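import Pool.Agent.Run7.h683.AB.M7

/-!
# Random bases: final form
-/

set_option autoImplicit false

namespace Run7.h683.AB

open Finset Filter

/-- the two statements about the digits of the numbers `x i` in a random base `b ≤ B` -/
def Random {r : ℕ} (x : Fin r → ℝ) (δ : ℝ) : Prop :=
  (∀ᶠ B : ℕ in atTop, ∀ K q : ℕ, 1 ≤ q → (K : ℝ) ≤ Real.log B ^ δ →
    (q : ℝ) ≤ Real.exp (Real.log B ^ δ) → ∀ A : Set (Fin r → Fin K → Fin q),
      |({b : ℕ | 0 < b ∧ b ≤ B ∧ ∃ w ∈ A, ∀ (i : Fin r) (j : Fin K),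
          q * digit b (x i) ((j : ℕ) + 2) / b = w i j}.ncard : ℝ) / B -
        (A.ncard : ℝ) / (q : ℝ) ^ (r * K)| ≤ Real.exp (-Real.sqrt (Real.log B))) ∧
  (∀ q L : ℕ, 1 ≤ q → ∀ ε : ℝ, 0 < ε → ∃ K0 : ℕ, ∀ᶠ B : ℕ in atTop,
    ({b : ℕ | 0 < b ∧ b ≤ B ∧ ∃ (v : Fin r → Fin L → Fin q) (K : ℕ), K0 ≤ K ∧
        (K : ℝ) ≤ Real.log B ^ δ ∧
        ε * K < |({s : ℕ | s < K ∧ ∀ (i : Fin r) (t : Fin L), q * digit b (x i) (s + (t : ℕ) + 2) / b = v i t}.ncard : ℝ) -
          K / (q : ℝ) ^ (r * L)|}.ncard : ℝ) ≤ ε * B)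

theorem card_curry {r K q : ℕ} (A : Set (Fin r → Fin K → Fin q)) :
    ∃ A' : Finset (Fin r × Fin K → Fin q), (A'.card : ℝ) = A.ncard ∧
      ∀ w, w ∈ A' ↔ (fun i j => w (i, j)) ∈ A := by
  classical
  refine ⟨Finset.univ.filter fun w => (fun i j => w (i, j)) ∈ A, ?_, fun w => by simp⟩
  have h1 : A = (fun w : Fin r × Fin K → Fin q => fun i j => w (i, j)) ''
      ((Finset.univ.filter fun w : Fin r × Fin K → Fin q => (fun i j => w (i, j)) ∈ A :
        Finset (Fin r × Fin K → Fin q)) : Set (Fin r × Fin K → Fin q)) := by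
    ext a
    constructor
    · intro ha
      refine ⟨fun p => a p.1 p.2, ?_, rfl⟩
      rw [Finset.mem_coe, Finset.mem_filter]
      exact ⟨Finset.mem_univ _, ha⟩
    · rintro ⟨w, hw, rfl⟩
      rw [Finset.mem_coe, Finset.mem_filter] at hw
      exact hw.2
  conv_rhs => rw [h1]
  rw [Set.ncard_image_of_injective, Set.ncard_coe_finset]
  intro w w' hww
  funext p
  exact congrFun (congrFun hww p.1) p.2

theorem random_of_meas : ∃ δ : ℝ, 0 < δ ∧ ∀ (r : ℕ) (x : Fin r → ℝ), Meas x → Random x δ := by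
  classical
  obtain ⟨δ, hδ, hmain⟩ := main
  refine ⟨δ / 2, by linarith, fun r x hx => ?_⟩
  have hm := hmain r x hx
  have hlog : Tendsto (fun N : ℕ => Real.log (N : ℝ)) atTop atTop :=
    Real.tendsto_log_atTop.comp tendsto_natCast_atTop_atTop
  constructor
  · filter_upwards [hm, hlog.eventually (eventually_ge_atTop 1)] with B hB ht K q hq hK hqt A
    have hle : Real.log B ^ (δ / 2) ≤ Real.log B ^ δ :=
      Real.rpow_le_rpow_of_exponent_le ht (by linarith)
    obtain ⟨A', hA', hmem⟩ := card_curry A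
    have h1 := hB K q hq (hK.trans hle) (hqt.trans (Real.exp_le_exp.2 hle)) A'
    rw [Real.sqrt_eq_rpow, ← hA']
    refine le_trans (le_of_eq ?_) h1
    congr 4
    rw [← Set.ncard_coe_finset]
    congr 1
    ext b
    rw [Finset.mem_coe, Finset.mem_filter, Finset.mem_Ioc, Set.mem_setOf_eq, and_assoc]
    refine and_congr_right fun _ => and_congr_right fun _ => ?_
    constructor
    · rintro ⟨w, hw, h⟩
      refine ⟨fun p => w p.1 p.2, (hmem _).2 hw, fun p => h p.1 p.2⟩
    · rintro ⟨w, hw, h⟩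
      exact ⟨fun i j => w (i, j), (hmem _).1 hw, fun i j => h (i, j)⟩
  · intro q L hq ε hε
    obtain ⟨V, hV⟩ : ∃ V : ℕ, V = Fintype.card (Fin r → Fin L → Fin q) := ⟨_, rfl⟩
    obtain ⟨ε', hε'⟩ : ∃ ε' : ℝ, ε' = ε / (V + 1) := ⟨_, rfl⟩
    have hε0 : 0 < ε' := by rw [hε']; positivity
    have hε1 : ε' ≤ ε := by
      rw [hε']
      apply div_le_self hε.le
      have : (0 : ℝ) ≤ V := Nat.cast_nonneg V
      linarith
    have hex := fun v : Fin r → Fin L → Fin q => freq (δ := δ) hδ x hm q L hq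
      (fun i t => if h : t < L then ((v i ⟨t, h⟩ : Fin q) : ℕ) else 0) (by
        intro i t ht
        rw [dif_pos ht]
        exact (v i ⟨t, ht⟩).2) ε' hε0
    choose K0 hK0 using hex
    refine ⟨∑ v, K0 v, ?_⟩
    filter_upwards [eventually_all.2 hK0] with B hB
    have hsub : {b : ℕ | 0 < b ∧ b ≤ B ∧ ∃ (v : Fin r → Fin L → Fin q) (K : ℕ), ∑ v, K0 v ≤ K ∧
        (K : ℝ) ≤ Real.log B ^ (δ / 2) ∧
        ε * K < |({s : ℕ | s < K ∧ ∀ (i : Fin r) (t : Fin L), q * digit b (x i) (s + (t : ℕ) + 2) / b = v i t}.ncard : ℝ) -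
          K / (q : ℝ) ^ (r * L)|} ⊆
        ((Finset.univ.biUnion fun v : Fin r → Fin L → Fin q =>
          (Finset.Ioc 0 B).filter fun b => ∃ K : ℕ, K0 v ≤ K ∧
          (K : ℝ) ≤ Real.log B ^ (δ / 2) ∧ ε' * K <
            |(((Finset.range K).filter fun s => ∀ i, ∀ t < L,
              q * digit b (x i) (s + t + 2) / b =
                (if h : t < L then ((v i ⟨t, h⟩ : Fin q) : ℕ) else 0)).card : ℝ) -
              K / (q : ℝ) ^ (r * L)| : Finset ℕ) : Set ℕ) := by
      rintro b ⟨hb0, hbB, v, K, hK, hKt, hbad⟩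
      rw [Finset.mem_coe, Finset.mem_biUnion]
      refine ⟨v, Finset.mem_univ _, ?_⟩
      rw [Finset.mem_filter, Finset.mem_Ioc]
      refine ⟨⟨hb0, hbB⟩, K, (Finset.single_le_sum (f := K0) (fun _ _ => Nat.zero_le _)
        (Finset.mem_univ v)).trans hK, hKt, ?_⟩
      have h1 : {s : ℕ | s < K ∧ ∀ (i : Fin r) (t : Fin L), q * digit b (x i) (s + (t : ℕ) + 2) / b = v i t} =
          (((Finset.range K).filter fun s => ∀ i, ∀ t < L,
              q * digit b (x i) (s + t + 2) / b =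
                (if h : t < L then ((v i ⟨t, h⟩ : Fin q) : ℕ) else 0) : Finset ℕ) : Set ℕ) := by
        ext s
        rw [Finset.mem_coe, Finset.mem_filter, Finset.mem_range, Set.mem_setOf_eq]
        refine and_congr_right fun _ => ?_
        constructor
        · intro h i t ht
          rw [dif_pos ht]
          exact h i ⟨t, ht⟩
        · intro h i t
          have := h i t t.2
          rw [dif_pos t.2] at this
          exact this
      rw [h1, Set.ncard_coe_finset] at hbad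
      refine lt_of_le_of_lt ?_ hbad
      gcongr
    have h1 := Set.ncard_le_ncard hsub (Finset.finite_toSet _)
    rw [Set.ncard_coe_finset] at h1
    have h2 := h1.trans Finset.card_biUnion_le
    have h3 : ({b : ℕ | 0 < b ∧ b ≤ B ∧ ∃ (v : Fin r → Fin L → Fin q) (K : ℕ), ∑ v, K0 v ≤ K ∧
        (K : ℝ) ≤ Real.log B ^ (δ / 2) ∧
        ε * K < |({s : ℕ | s < K ∧ ∀ (i : Fin r) (t : Fin L), q * digit b (x i) (s + (t : ℕ) + 2) / b = v i t}.ncard : ℝ) -
          K / (q : ℝ) ^ (r * L)|}.ncard : ℝ) ≤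
        ∑ v : Fin r → Fin L → Fin q, (((Finset.Ioc 0 B).filter fun b => ∃ K : ℕ, K0 v ≤ K ∧
          (K : ℝ) ≤ Real.log B ^ (δ / 2) ∧ ε' * K <
            |(((Finset.range K).filter fun s => ∀ i, ∀ t < L,
              q * digit b (x i) (s + t + 2) / b =
                (if h : t < L then ((v i ⟨t, h⟩ : Fin q) : ℕ) else 0)).card : ℝ) -
              K / (q : ℝ) ^ (r * L)|).card : ℝ) := by
      exact_mod_cast h2
    refine h3.trans ?_
    have hB0 : (0 : ℝ) ≤ B := Nat.cast_nonneg B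
    calc _ ≤ ∑ v : Fin r → Fin L → Fin q, ε' * (B : ℝ) := by
          refine Finset.sum_le_sum fun v _ => ?_
          exact hB v
      _ = (V * ε') * B := by
          rw [Finset.sum_const, Finset.card_univ, ← hV, nsmul_eq_mul]
          ring
      _ ≤ ε * B := by
          have h4 : (V : ℝ) * ε' ≤ ε := by
            rw [hε', mul_div_assoc', div_le_iff₀ (by positivity)]
            nlinarith
          gcongr

/-- the powers of a transcendental number and `√2` satisfy the hypotheses -/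
theorem powers_sqrt {z : ℝ} (hz : Transcendental ℚ z) (k : ℕ) :
    (∀ i, IsAlgebraic (Algebra.adjoin ℤ ({z} : Set ℝ))
      ((Fin.snoc (fun i : Fin k => z ^ ((i : ℕ) + 1)) (Real.sqrt 2) : Fin (k + 1) → ℝ) i)) ∧
    ∀ (m : ℤ) (g : Fin (k + 1) → ℤ), (m : ℝ) + ∑ i, (g i : ℝ) *
      (Fin.snoc (fun i : Fin k => z ^ ((i : ℕ) + 1)) (Real.sqrt 2) : Fin (k + 1) → ℝ) i = 0 →
      g = 0 := by
  constructor
  · intro i
    refine Fin.lastCases ?_ (fun j => ?_) i
    · rw [Fin.snoc_last]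
      have h1 : IsAlgebraic (Algebra.adjoin ℤ ({z} : Set ℝ)) ((Real.sqrt 2) ^ 2) := by
        rw [Real.sq_sqrt (by norm_num)]
        have h2 : (2 : ℝ) = algebraMap (Algebra.adjoin ℤ ({z} : Set ℝ)) ℝ 2 := by
          rw [map_ofNat]
        rw [h2]
        exact isAlgebraic_algebraMap _
      exact IsAlgebraic.of_pow (by norm_num) h1
    · rw [Fin.snoc_castSucc]
      have hxA : IsAlgebraic (Algebra.adjoin ℤ ({z} : Set ℝ)) z :=
        isAlgebraic_algebraMap
          (⟨z, Algebra.subset_adjoin rfl⟩ : Algebra.adjoin ℤ ({z} : Set ℝ))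
      exact hxA.pow _
  · intro m g h0
    rw [Fin.sum_univ_castSucc, Fin.snoc_last] at h0
    simp only [Fin.snoc_castSucc] at h0
    obtain ⟨R, hR⟩ : ∃ R : Polynomial ℤ, R = Polynomial.C m +
      ∑ i : Fin k, Polynomial.monomial ((i : ℕ) + 1) (g i.castSucc) := ⟨_, rfl⟩
    have hRz : Polynomial.aeval z R = (m : ℝ) + ∑ i : Fin k, (g i.castSucc : ℝ) * z ^ ((i : ℕ) + 1) := by
      rw [hR, map_add, map_sum, Polynomial.aeval_C]
      congr 1
      refine Finset.sum_congr rfl fun i _ => ?_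
      rw [Polynomial.aeval_monomial]
      rfl
    have hcoef : ∀ i : Fin k, R.coeff ((i : ℕ) + 1) = g i.castSucc := by
      intro i
      rw [hR, Polynomial.coeff_add, Polynomial.coeff_C_succ, zero_add, Polynomial.finset_sum_coeff]
      rw [Finset.sum_eq_single i]
      · rw [Polynomial.coeff_monomial, if_pos rfl]
      · intro j _ hj
        rw [Polynomial.coeff_monomial, if_neg]
        intro h
        apply hj
        apply Fin.ext
        omega
      · intro h
        exact absurd (Finset.mem_univ _) h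
    have h1 : Polynomial.aeval z (R ^ 2 - Polynomial.C (2 * (g (Fin.last k)) ^ 2)) = 0 := by
      rw [map_sub, map_pow, Polynomial.aeval_C, hRz]
      have h2 : (m : ℝ) + ∑ i : Fin k, (g i.castSucc : ℝ) * z ^ ((i : ℕ) + 1) =
          -((g (Fin.last k) : ℝ) * Real.sqrt 2) := by linarith
      rw [h2, neg_sq, mul_pow, Real.sq_sqrt (by norm_num)]
      simp
      ring
    have h2 : R ^ 2 - Polynomial.C (2 * (g (Fin.last k)) ^ 2) = 0 := by
      by_contra hne
      apply hz
      exact (IsFractionRing.isAlgebraic_iff ℤ ℚ ℝ).1 ⟨_, hne, h1⟩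
    have h3 : R.natDegree = 0 := by
      have h4 := congrArg Polynomial.natDegree (sub_eq_zero.1 h2)
      rw [Polynomial.natDegree_C, Polynomial.natDegree_pow] at h4
      omega
    have h4 : ∀ i : Fin k, g i.castSucc = 0 := by
      intro i
      rw [← hcoef i]
      exact Polynomial.coeff_eq_zero_of_natDegree_lt (by omega)
    simp only [h4, Int.cast_zero, zero_mul, Finset.sum_const_zero, zero_add] at h0
    have h5 : g (Fin.last k) = 0 := by
      by_contra h6
      have h7 : Irrational (Real.sqrt 2) := irrational_sqrt_two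
      apply h7
      refine ⟨-(m : ℚ) / (g (Fin.last k) : ℚ), ?_⟩
      have h8 : ((g (Fin.last k) : ℤ) : ℝ) ≠ 0 := by exact_mod_cast h6
      push_cast
      rw [div_eq_iff h8]
      linarith
    funext i
    refine Fin.lastCases ?_ (fun j => ?_) i
    · exact h5
    · exact h4 j

/-- the height of an integer polynomial -/
def height (P : Polynomial ℤ) : ℕ := P.support.sup fun i => (P.coeff i).natAbs

/-- Mahler's U-numbers -/
def UNumber (x : ℝ) : Prop :=
  ∃ d : ℕ, ∀ w : ℕ, {P : Polynomial ℤ | P.natDegree ≤ d ∧ 0 < |Polynomial.aeval x P| ∧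
    |Polynomial.aeval x P| * (height P : ℝ) ^ w ≤ 1}.Infinite

lemma height_le {P : Polynomial ℤ} {H : ℝ} (hH : 0 ≤ H) (h : ∀ j, |(P.coeff j : ℝ)| ≤ H) :
    (height P : ℝ) ≤ H := by
  by_cases hs : P.support.Nonempty
  · obtain ⟨i, -, h6⟩ := Finset.exists_mem_eq_sup _ hs (fun i => (P.coeff i).natAbs)
    unfold height
    rw [h6, Nat.cast_natAbs, Int.cast_abs]
    exact h i
  · rw [Finset.not_nonempty_iff_eq_empty] at hs
    unfold height
    rw [hs, Finset.sup_empty]
    simpa using hH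

/-- transcendental numbers which are not U-numbers have a transcendence measure -/
theorem mt_of_not_unumber {z : ℝ} (hz : Transcendental ℚ z) (hU : ¬ UNumber z) : MT z := by
  intro D
  unfold UNumber at hU
  push Not at hU
  obtain ⟨w, hw⟩ := hU D
  obtain ⟨T, hT⟩ : ∃ T : Set (Polynomial ℤ), T = {P : Polynomial ℤ | P.natDegree ≤ D ∧
    0 < |Polynomial.aeval z P| ∧ |Polynomial.aeval z P| * (height P : ℝ) ^ w ≤ 1} := ⟨_, rfl⟩
  have hTf : T.Finite := by rw [hT]; exact hw
  obtain ⟨c, hc, hcT⟩ : ∃ c : ℝ, 0 < c ∧ ∀ P ∈ T, c ≤ |Polynomial.aeval z P| := by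
    by_cases hne : T.Nonempty
    · obtain ⟨Q, hQ, hmin⟩ := Set.exists_min_image T (fun P => |Polynomial.aeval z P|) hTf hne
      rw [hT] at hQ
      exact ⟨|Polynomial.aeval z Q|, hQ.2.1, hmin⟩
    · exact ⟨1, one_pos, fun P hP => absurd ⟨P, hP⟩ hne⟩
  refine ⟨w, min 1 c, lt_min one_pos hc, fun P hP hPD H hH hPH => ?_⟩
  have h1 := height_le (by linarith) hPH
  have hpos : 0 < |Polynomial.aeval z P| := by
    rw [abs_pos]
    intro h0
    apply hz
    exact (IsFractionRing.isAlgebraic_iff ℤ ℚ ℝ).1 ⟨P, hP, h0⟩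
  by_cases hPT : P ∈ T
  · calc min 1 c ≤ c := min_le_right _ _
      _ ≤ |Polynomial.aeval z P| := hcT P hPT
      _ = 1 * |Polynomial.aeval z P| := (one_mul _).symm
      _ ≤ H ^ w * |Polynomial.aeval z P| := by
          gcongr
          exact one_le_pow₀ hH
  · have h2 : 1 < |Polynomial.aeval z P| * (height P : ℝ) ^ w := by
      by_contra hcon
      push Not at hcon
      apply hPT
      rw [hT]
      exact ⟨hPD, hpos, hcon⟩
    calc min 1 c ≤ 1 := min_le_left _ _
      _ ≤ |Polynomial.aeval z P| * (height P : ℝ) ^ w := h2.le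
      _ ≤ |Polynomial.aeval z P| * H ^ w := by gcongr
      _ = H ^ w * |Polynomial.aeval z P| := mul_comm _ _

/-- a number with a transcendence measure is transcendental -/
theorem transc_of_mt {z : ℝ} (hz : MT z) : Transcendental ℚ z := by
  intro h
  obtain ⟨P, hP0, hP⟩ := (IsFractionRing.isAlgebraic_iff ℤ ℚ ℝ).2 h
  obtain ⟨κ, c, hc, h2⟩ := hz P.natDegree
  obtain ⟨H, hH⟩ : ∃ H : ℝ, H = 1 + ∑ j ∈ P.support, |(P.coeff j : ℝ)| := ⟨_, rfl⟩
  have h0 : 0 ≤ ∑ j ∈ P.support, |(P.coeff j : ℝ)| := Finset.sum_nonneg fun _ _ => abs_nonneg _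
  have h3 := h2 P hP0 le_rfl H (by linarith) (by
    intro j
    by_cases hj : j ∈ P.support
    · have := Finset.single_le_sum (f := fun j => |(P.coeff j : ℝ)|) (fun _ _ => abs_nonneg _) hj
      linarith
    · rw [Polynomial.mem_support_iff, not_not] at hj
      rw [hj, Int.cast_zero, abs_zero]
      linarith)
  rw [hP, abs_zero, mul_zero] at h3
  linarith

/-- the numbers to which the theorem applies -/
theorem mt_cases {z : ℝ} (hz : z = Real.exp 1 ∨ z = Real.pi ∨
    (∃ q : ℚ, 0 < q ∧ q ≠ 1 ∧ z = Real.log q) ∨ (Transcendental ℚ z ∧ ¬ UNumber z)) : MT z := by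
  rcases hz with rfl | rfl | ⟨q, hq, hq1, rfl⟩ | ⟨h1, h2⟩
  · exact mt_of Pool.Agent.TH456.TM.measT_e
  · exact mt_of Pool.Agent.TH456.TM.measT_pi
  · exact mt_of (Pool.Agent.TH456.TM.measT_real_log q hq hq1)
  · exact mt_of_not_unumber h1 h2

end Run7.h683.AB
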