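import Pool.Agent.Run7.h683.AB.W3

/-!
# Random bases: smoothing by the Fejer kernel on a grid
-/

set_option autoImplicit false

namespace Run7.h683.AB

open Finset
open Pool.Agent.Y957.VK
open scoped ComplexConjugate

theorem ee_neg (t : ℝ) : ee (-t) = conj (ee t) := Pool.Agent.Y93.VK.ee_neg t

theorem ee_dz (t : ℝ) : 4 * dz t ≤ ‖ee t - 1‖ := Pool.Agent.Y93.VK.ee_dz t

theorem ee_nat (t : ℝ) (n : ℕ) : ee (t * n) = ee t ^ n := Pool.Agent.Y93.VK.ee_nat t n

theorem ee_sum {ι : Type*} (s : Finset ι) (f : ι → ℝ) : ee (∑ i ∈ s, f i) = ∏ i ∈ s, ee (f i) :=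
  Pool.Agent.Y93.VK.ee_sum s f

/-- the geometric sum -/
noncomputable def gs (L : ℕ) (t : ℝ) : ℂ := ∑ l ∈ Finset.range L, ee (t * l)

theorem gs_le (L : ℕ) (t η : ℝ) (hη : 0 < η) (h : η ≤ dz t) : ‖gs L t‖ ≤ 1 / (2 * η) := by
  have hz := ee_dz t
  have hz1 : ee t ≠ 1 := by
    intro h2
    rw [h2, sub_self, norm_zero] at hz
    linarith
  have hz2 : 0 < ‖ee t - 1‖ := norm_pos_iff.2 (sub_ne_zero.2 hz1)
  unfold gs
  rw [Finset.sum_congr rfl fun l _ => ee_nat t l, geom_sum_eq hz1, norm_div]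
  have h3 : ‖ee t ^ L - 1‖ ≤ 2 := by
    refine (norm_sub_le _ _).trans ?_
    rw [norm_pow, norm_ee, one_pow, norm_one]
    norm_num
  calc ‖ee t ^ L - 1‖ / ‖ee t - 1‖ ≤ 2 / (4 * η) :=
        div_le_div₀ (by norm_num) h3 (by linarith) (by linarith)
    _ = 1 / (2 * η) := by
        field_simp
        norm_num

theorem gs_sq (L : ℕ) (t : ℝ) : ((‖gs L t‖ ^ 2 : ℝ) : ℂ) =
    ∑ p ∈ Finset.range L ×ˢ Finset.range L, ee (((p.1 : ℝ) - p.2) * t) := by
  have h1 : ((‖gs L t‖ ^ 2 : ℝ) : ℂ) = gs L t * conj (gs L t) := by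
    rw [Complex.mul_conj, Complex.normSq_eq_norm_sq]
  rw [h1]
  unfold gs
  rw [map_sum, Finset.sum_mul_sum, Finset.sum_product]
  refine Finset.sum_congr rfl fun i _ => Finset.sum_congr rfl fun j _ => ?_
  rw [← ee_neg, ← ee_add]
  congr 1
  ring

theorem ee_eq_one {θ : ℝ} (h : ee θ = 1) : ∃ n : ℤ, θ = n := by
  unfold ee at h
  rw [Complex.exp_eq_one_iff] at h
  obtain ⟨n, hn⟩ := h
  refine ⟨n, ?_⟩
  have h2 : (2 * Real.pi * Complex.I : ℂ) ≠ 0 := by
    simp [Real.pi_ne_zero]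
  have h3 : (2 * Real.pi * Complex.I : ℂ) * (θ : ℂ) = (2 * Real.pi * Complex.I : ℂ) * (n : ℂ) := by
    rw [hn]
    ring
  have h4 := mul_left_cancel₀ h2 h3
  exact_mod_cast h4

/-- characters of the grid -/
theorem grid_char (G : ℕ) (hG : 1 ≤ G) (m : ℤ) (hm : m ≠ 0) (hmG : |m| < G) :
    ∑ c ∈ Finset.range G, ee (-((m : ℝ) * c / G)) = 0 := by
  have hG0 : (G : ℝ) ≠ 0 := by exact_mod_cast (by omega : G ≠ 0)
  obtain ⟨z, hz⟩ : ∃ z : ℂ, z = ee (-((m : ℝ) / G)) := ⟨_, rfl⟩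
  have hz1 : z ≠ 1 := by
    intro h
    rw [hz] at h
    obtain ⟨n, hn⟩ := ee_eq_one h
    have h1 : (m : ℝ) = -(n * G) := by
      have : (m : ℝ) / G = -n := by linarith
      rw [div_eq_iff hG0] at this
      linarith
    have h2 : m = -(n * G) := by exact_mod_cast h1
    have h3 : n ≠ 0 := by
      intro h4
      rw [h4] at h2
      apply hm
      rw [h2]
      ring
    have h4 : 1 ≤ |n| := Int.one_le_abs h3
    rw [h2, abs_neg, abs_mul, Nat.abs_cast] at hmG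
    nlinarith
  have h1 : ∀ c ∈ Finset.range G, ee (-((m : ℝ) * c / G)) = z ^ c := by
    intro c _
    rw [hz, ← ee_nat]
    congr 1
    ring
  rw [Finset.sum_congr rfl h1, geom_sum_eq hz1]
  have h2 : z ^ G = 1 := by
    rw [hz, ← ee_nat]
    have h3 : -((m : ℝ) / G) * G = ((-m : ℤ) : ℝ) := by
      push_cast
      field_simp
    rw [h3, ee_int]
  rw [h2, sub_self, zero_div]

theorem gs_grid (L G : ℕ) (hLG : L ≤ G) (hG : 1 ≤ G) (t : ℝ) :
    ∑ c ∈ Finset.range G, ‖gs L (t - c / G)‖ ^ 2 = G * L := by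
  have h1 : ((∑ c ∈ Finset.range G, ‖gs L (t - c / G)‖ ^ 2 : ℝ) : ℂ) = (G : ℂ) * L := by
    rw [Complex.ofReal_sum]
    rw [Finset.sum_congr rfl fun (c : ℕ) _ => gs_sq L (t - c / G)]
    rw [Finset.sum_comm]
    have h2 : ∀ p ∈ Finset.range L ×ˢ Finset.range L,
        ∑ c ∈ Finset.range G, ee (((p.1 : ℝ) - p.2) * (t - c / G)) =
          if p.1 = p.2 then (G : ℂ) else 0 := by
      intro p hp
      rw [Finset.mem_product, Finset.mem_range, Finset.mem_range] at hp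
      have h3 : ∀ c ∈ Finset.range G, ee (((p.1 : ℝ) - p.2) * (t - c / G)) =
          ee (((p.1 : ℝ) - p.2) * t) * ee (-((((p.1 : ℤ) - p.2 : ℤ) : ℝ) * c / G)) := by
        intro c _
        rw [← ee_add]
        congr 1
        push_cast
        ring
      rw [Finset.sum_congr rfl h3, ← Finset.mul_sum]
      split_ifs with h
      · rw [h]
        simp only [sub_self, zero_mul, Int.cast_zero, zero_div, neg_zero, ee_zero, Finset.sum_const,
          Finset.card_range, nsmul_eq_mul, mul_one, one_mul]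
      · rw [grid_char G hG _ (by omega) (by rw [abs_lt]; constructor <;> omega), mul_zero]
    rw [Finset.sum_congr rfl h2, Finset.sum_product]
    have h3 : ∀ i ∈ Finset.range L, ∑ j ∈ Finset.range L, (if i = j then (G : ℂ) else 0) = G := by
      intro i hi
      rw [Finset.sum_ite_eq, if_pos hi]
    rw [Finset.sum_congr rfl h3, Finset.sum_const, Finset.card_range, nsmul_eq_mul, mul_comm]
  exact_mod_cast h1

/-- the smoothed indicator function of a set of grid points -/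
noncomputable def fS (L G : ℕ) (S : Finset ℕ) (t : ℝ) : ℝ :=
  (∑ c ∈ S, ‖gs L (t - c / G)‖ ^ 2) / (G * L)

theorem fS_nonneg (L G : ℕ) (S : Finset ℕ) (t : ℝ) : 0 ≤ fS L G S t := by
  unfold fS
  positivity

theorem fS_le_one (L G : ℕ) (S : Finset ℕ) (t : ℝ) (hL : 1 ≤ L) (hLG : L ≤ G)
    (hS : S ⊆ Finset.range G) : fS L G S t ≤ 1 := by
  unfold fS
  have hL0 : (0 : ℝ) < L := by exact_mod_cast hL
  have hG0 : (0 : ℝ) < G := by exact_mod_cast (by omega : 0 < G)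
  rw [div_le_one (by positivity), ← gs_grid L G hLG (by omega) t]
  exact Finset.sum_le_sum_of_subset_of_nonneg hS fun _ _ _ => by positivity

theorem fS_small (L G : ℕ) (S : Finset ℕ) (t η : ℝ) (hL : 1 ≤ L) (hG : 1 ≤ G)
    (hS : S.card ≤ G) (hη : 0 < η) (h : ∀ c ∈ S, η ≤ dz (t - c / G)) :
    fS L G S t ≤ 1 / (4 * L * η ^ 2) := by
  unfold fS
  have hL0 : (0 : ℝ) < L := by exact_mod_cast hL
  have hG0 : (0 : ℝ) < G := by exact_mod_cast hG
  have hS' : (S.card : ℝ) ≤ G := by exact_mod_cast hS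
  rw [div_le_iff₀ (by positivity)]
  calc ∑ c ∈ S, ‖gs L (t - c / G)‖ ^ 2 ≤ ∑ c ∈ S, (1 / (2 * η)) ^ 2 :=
        Finset.sum_le_sum fun c hc => pow_le_pow_left₀ (norm_nonneg _) (gs_le L _ η hη (h c hc)) 2
    _ = S.card * (1 / (2 * η)) ^ 2 := by rw [Finset.sum_const, nsmul_eq_mul]
    _ ≤ G * (1 / (2 * η)) ^ 2 := by gcongr
    _ = 1 / (4 * L * η ^ 2) * (G * L) := by
        field_simp
        norm_num

/-- the coefficients -/
noncomputable def kS (L G : ℕ) (S : Finset ℕ) (p : ℕ × ℕ) : ℂ :=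
  (∑ c ∈ S, ee (-(((p.1 : ℝ) - p.2) * c / G))) / (G * L)

theorem fS_eq (L G : ℕ) (S : Finset ℕ) (t : ℝ) : ((fS L G S t : ℝ) : ℂ) =
    ∑ p ∈ Finset.range L ×ˢ Finset.range L, kS L G S p * ee (((p.1 : ℝ) - p.2) * t) := by
  unfold fS kS
  rw [Complex.ofReal_div, Complex.ofReal_sum, Finset.sum_congr rfl fun (c : ℕ) _ => gs_sq L (t - c / G),
    Finset.sum_comm, Finset.sum_div]
  push_cast
  refine Finset.sum_congr rfl fun p _ => ?_
  rw [div_mul_eq_mul_div, Finset.sum_mul]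
  congr 1
  refine Finset.sum_congr rfl fun c _ => ?_
  rw [← ee_add]
  congr 1
  ring

theorem kS_norm (L G : ℕ) (S : Finset ℕ) (p : ℕ × ℕ) (hL : 1 ≤ L) (hG : 1 ≤ G)
    (hS : S.card ≤ G) : ‖kS L G S p‖ ≤ 1 / L := by
  unfold kS
  have hL0 : (0 : ℝ) < L := by exact_mod_cast hL
  have hG0 : (0 : ℝ) < G := by exact_mod_cast hG
  have hS' : (S.card : ℝ) ≤ G := by exact_mod_cast hS
  rw [norm_div, norm_mul, Complex.norm_natCast, Complex.norm_natCast, div_le_iff₀ (by positivity)]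
  refine (norm_sum_le _ _).trans ?_
  rw [Finset.sum_congr rfl fun (c : ℕ) _ => norm_ee _, Finset.sum_const, nsmul_eq_mul, mul_one]
  refine hS'.trans (le_of_eq ?_)
  field_simp

theorem kS_diag (L G : ℕ) (S : Finset ℕ) (l : ℕ) :
    kS L G S (l, l) = (S.card : ℂ) / (G * L) := by
  unfold kS
  simp only [sub_self, zero_mul, zero_div, neg_zero, ee_zero, Finset.sum_const, nsmul_eq_mul,
    mul_one]

end Run7.h683.AB
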