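import Pool.Agent.Run7.h683.AB.F1

/-!
# Random bases: products of smoothed indicator functions
-/

set_option autoImplicit false

namespace Run7.h683.AB

open Finset
open Pool.Agent.Y957.VK

variable {ι : Type} [Fintype ι] [DecidableEq ι]

theorem prod_expand (L G : ℕ) (S : ι → Finset ℕ) (z : ι → ℝ) :
    ((∏ i, fS L G (S i) (z i) : ℝ) : ℂ) =
      ∑ P ∈ Fintype.piFinset (fun _ : ι => Finset.range L ×ˢ Finset.range L),
        (∏ i, kS L G (S i) (P i)) * ee (∑ i, (((P i).1 : ℝ) - (P i).2) * z i) := by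
  rw [Complex.ofReal_prod, Finset.prod_congr rfl fun (i : ι) _ => fS_eq L G (S i) (z i),
    Finset.prod_univ_sum]
  refine Finset.sum_congr rfl fun P _ => ?_
  rw [Finset.prod_mul_distrib, ee_sum]

theorem diag_sum (L G : ℕ) (hL : 1 ≤ L) (S : Finset ℕ) :
    ∑ p ∈ Finset.range L ×ˢ Finset.range L, (if p.1 = p.2 then kS L G S p else 0) =
      (S.card : ℂ) / G := by
  rw [Finset.sum_product]
  have h1 : ∀ i ∈ Finset.range L,
      ∑ j ∈ Finset.range L, (if i = j then kS L G S (i, j) else 0) = (S.card : ℂ) / (G * L) := by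
    intro i hi
    rw [Finset.sum_ite_eq, if_pos hi, kS_diag]
  rw [Finset.sum_congr rfl h1, Finset.sum_const, Finset.card_range, nsmul_eq_mul]
  have hL0 : (L : ℂ) ≠ 0 := by exact_mod_cast (by omega : L ≠ 0)
  rcases eq_or_ne (G : ℂ) 0 with h | h
  · rw [h]
    simp
  · field_simp

theorem avg (L G : ℕ) (hL : 1 ≤ L) (hG : 1 ≤ G) (S : ι → Finset ℕ) (hS : ∀ i, (S i).card ≤ G)
    (Ω : Finset ℕ) (Z : ℕ → ι → ℝ) (ε : ℝ)
    (hε : ∀ h : ι → ℤ, h ≠ 0 → (∀ i, |h i| < L) →
      ‖∑ b ∈ Ω, ee (∑ i, (h i : ℝ) * Z b i)‖ ≤ Ω.card * ε) :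
    |∑ b ∈ Ω, ∏ i, fS L G (S i) (Z b i) - Ω.card * ∏ i, ((S i).card : ℝ) / G| ≤
      Ω.card * ε * (L : ℝ) ^ Fintype.card ι ∨ (Ω.card : ℝ) * ε < 0 := by
  classical
  by_cases hneg : (Ω.card : ℝ) * ε < 0
  · exact Or.inr hneg
  left
  push Not at hneg
  have hL0 : (0 : ℝ) < L := by exact_mod_cast hL
  obtain ⟨R, hR⟩ : ∃ R, R = Fintype.piFinset (fun _ : ι => Finset.range L ×ˢ Finset.range L) :=
    ⟨_, rfl⟩
  have h1 : ((∑ b ∈ Ω, ∏ i, fS L G (S i) (Z b i) - Ω.card * ∏ i, ((S i).card : ℝ) / G : ℝ) : ℂ) =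
      ∑ P ∈ R, (∏ i, kS L G (S i) (P i)) *
        (∑ b ∈ Ω, ee (∑ i, (((P i).1 : ℝ) - (P i).2) * Z b i) -
          (if ∀ i, (P i).1 = (P i).2 then (Ω.card : ℂ) else 0)) := by
    have h2 : ((∏ i, ((S i).card : ℝ) / G : ℝ) : ℂ) =
        ∑ P ∈ R, if ∀ i, (P i).1 = (P i).2 then ∏ i, kS L G (S i) (P i) else 0 := by
      rw [Complex.ofReal_prod]
      have h3 : ∀ i ∈ (Finset.univ : Finset ι), ((((S i).card : ℝ) / G : ℝ) : ℂ) =
          ∑ p ∈ Finset.range L ×ˢ Finset.range L, (if p.1 = p.2 then kS L G (S i) p else 0) := by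
        intro i _
        rw [diag_sum L G hL]
        push_cast
        rfl
      rw [Finset.prod_congr rfl h3, Finset.prod_univ_sum, hR]
      refine Finset.sum_congr rfl fun P _ => ?_
      split_ifs with h
      · exact Finset.prod_congr rfl fun i _ => if_pos (h i)
      · push Not at h
        obtain ⟨i, hi⟩ := h
        exact Finset.prod_eq_zero (Finset.mem_univ i) (if_neg hi)
    rw [Complex.ofReal_sub, Complex.ofReal_mul, h2, Complex.ofReal_sum,
      Finset.sum_congr rfl fun (b : ℕ) _ => prod_expand L G S (Z b), ← hR, Finset.sum_comm,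
      Finset.mul_sum, ← Finset.sum_sub_distrib]
    refine Finset.sum_congr rfl fun P _ => ?_
    rw [← Finset.mul_sum, mul_sub]
    congr 1
    split_ifs
    · push_cast
      ring
    · ring
  have h2 : ∀ P ∈ R, ‖(∏ i, kS L G (S i) (P i)) *
        (∑ b ∈ Ω, ee (∑ i, (((P i).1 : ℝ) - (P i).2) * Z b i) -
          (if ∀ i, (P i).1 = (P i).2 then (Ω.card : ℂ) else 0))‖ ≤
      (1 / (L : ℝ)) ^ Fintype.card ι * (Ω.card * ε) := by
    intro P hP
    rw [hR, Fintype.mem_piFinset] at hP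
    rw [norm_mul, norm_prod]
    have h3 : ∏ i, ‖kS L G (S i) (P i)‖ ≤ (1 / (L : ℝ)) ^ Fintype.card ι := by
      refine (Finset.prod_le_prod (fun _ _ => norm_nonneg _)
        (fun i _ => kS_norm L G (S i) (P i) hL hG (hS i))).trans (le_of_eq ?_)
      rw [Finset.prod_const, Finset.card_univ]
    refine mul_le_mul h3 ?_ (norm_nonneg _) (by positivity)
    split_ifs with h
    · have h4 : ∑ b ∈ Ω, ee (∑ i, (((P i).1 : ℝ) - (P i).2) * Z b i) = (Ω.card : ℂ) := by
        rw [Finset.sum_congr rfl (g := fun _ => (1 : ℂ))]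
        · simp
        · intro b _
          rw [Finset.sum_eq_zero, ee_zero]
          intro i _
          rw [h i, sub_self, zero_mul]
      rw [h4, sub_self, norm_zero]
      exact hneg
    · rw [sub_zero]
      obtain ⟨h0, hh0⟩ : ∃ h0 : ι → ℤ, h0 = fun i => ((P i).1 : ℤ) - (P i).2 := ⟨_, rfl⟩
      have h5 := hε h0 (by
        intro h6
        apply h
        intro i
        have h7 := congrFun h6 i
        rw [hh0] at h7
        simp only [Pi.zero_apply] at h7
        omega) (by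
        intro i
        have h7 := hP i
        rw [Finset.mem_product, Finset.mem_range, Finset.mem_range] at h7
        rw [hh0, abs_lt]
        dsimp only
        constructor <;> omega)
      rw [hh0] at h5
      push_cast at h5
      exact h5
  have h3 : ‖((∑ b ∈ Ω, ∏ i, fS L G (S i) (Z b i) -
      Ω.card * ∏ i, ((S i).card : ℝ) / G : ℝ) : ℂ)‖ ≤ Ω.card * ε * (L : ℝ) ^ Fintype.card ι := by
    rw [h1]
    refine (norm_sum_le _ _).trans ((Finset.sum_le_sum h2).trans (le_of_eq ?_))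
    rw [Finset.sum_const, nsmul_eq_mul, hR, Fintype.card_piFinset, Finset.prod_const,
      Finset.card_univ, Finset.card_product, Finset.card_range]
    push_cast
    rw [mul_pow, one_div, inv_pow]
    have h4 : (L : ℝ) ^ Fintype.card ι ≠ 0 := by positivity
    field_simp
  rwa [Complex.norm_real, Real.norm_eq_abs] at h3

end Run7.h683.AB
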