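import Pool.Agent.Run7.h683.AB.F2

/-!
# Random bases: from exponential sums to the distribution of the coarse digits
-/

set_option autoImplicit false

namespace Run7.h683.AB

open Finset
open Pool.Agent.Y957.VK

/-- the grid points of the cell `w`, far from the ends of the cell -/
def Sw (a q w : ℕ) : Finset ℕ :=
  (Finset.range (q * a ^ 4)).filter fun c => w * a ^ 4 + q * a ^ 3 ≤ c ∧ c + q * a ^ 3 ≤ (w + 1) * a ^ 4

theorem Sw_sub (a q w : ℕ) : Sw a q w ⊆ Finset.range (q * a ^ 4) := Finset.filter_subset _ _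

theorem Sw_card_le (a q w : ℕ) : (Sw a q w).card ≤ q * a ^ 4 := by
  have := Finset.card_le_card (Sw_sub a q w)
  rwa [Finset.card_range] at this

theorem Sw_card (a q w : ℕ) (ha : 1 ≤ a) (hq : 1 ≤ q) (hw : w < q) :
    (1 : ℝ) / q - 2 / a ≤ ((Sw a q w).card : ℝ) / ((q * a ^ 4 : ℕ) : ℝ) := by
  have ha0 : (0 : ℝ) < a := by exact_mod_cast ha
  have hq0 : (0 : ℝ) < q := by exact_mod_cast hq
  have h1 : Finset.Ico (w * a ^ 4 + q * a ^ 3) (w * a ^ 4 + (a ^ 4 - q * a ^ 3)) ⊆ Sw a q w := by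
    intro c hc
    rw [Finset.mem_Ico] at hc
    unfold Sw
    rw [Finset.mem_filter, Finset.mem_range]
    have h2 : (w + 1) * a ^ 4 = w * a ^ 4 + a ^ 4 := by ring
    have h3 : (w + 1) * a ^ 4 ≤ q * a ^ 4 := Nat.mul_le_mul_right _ hw
    have h4 : 1 ≤ q * a ^ 3 := Nat.mul_pos hq (pow_pos ha 3)
    refine ⟨by omega, hc.1, by omega⟩
  have h2 := Finset.card_le_card h1
  rw [Nat.card_Ico] at h2
  have h3 : a ^ 4 ≤ (Sw a q w).card + 2 * (q * a ^ 3) := by omega
  have h4 : (a : ℝ) ^ 4 ≤ (Sw a q w).card + 2 * (q * (a : ℝ) ^ 3) := by exact_mod_cast h3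
  push_cast
  rw [le_div_iff₀ (by positivity)]
  have h5 : ((1 : ℝ) / q - 2 / a) * (q * (a : ℝ) ^ 4) = (a : ℝ) ^ 4 - 2 * (q * (a : ℝ) ^ 3) := by
    field_simp
  rw [h5]
  linarith

theorem dz_fract (z y : ℝ) : dz (z - y) = dz (Int.fract z - y) := by
  have h1 : z - y = (Int.fract z - y) + ⌊z⌋ := by
    have := Int.floor_add_fract z
    linarith
  rw [h1]
  unfold dz
  rw [round_add_intCast]
  congr 1
  push_cast
  ring

theorem le_dz {x η : ℝ} (h0 : η ≤ |x|) (h1 : |x| ≤ 1 - η) : η ≤ dz x := by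
  unfold dz
  rw [abs_sub_round_eq_min]
  have hη : 0 ≤ η ∨ η < 0 := le_or_gt 0 η
  rcases hη with hη | hη
  · have hx1 : |x| ≤ 1 := by linarith
    rcases le_or_gt 0 x with h | h
    · rw [abs_of_nonneg h] at h0 h1
      rcases eq_or_lt_of_le (show x ≤ 1 by linarith) with h2 | h2
      · subst h2
        have h3 : η = 0 := by linarith
        rw [h3]
        simp
      · have h3 : Int.fract x = x := Int.fract_eq_self.2 ⟨h, h2⟩
        rw [h3]
        exact le_min h0 (by linarith)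
    · rw [abs_of_neg h] at h0 h1
      rcases eq_or_lt_of_le (show -1 ≤ x by linarith) with h2 | h2
      · subst h2
        have h3 : η = 0 := by linarith
        rw [h3]
        have h4 : Int.fract (-1 : ℝ) = 0 := by
          rw [Int.fract_eq_iff]
          exact ⟨le_rfl, by norm_num, -1, by norm_num⟩
        rw [h4]
        simp
      · have h3 : Int.fract x = x + 1 := by
          rw [Int.fract_eq_iff]
          refine ⟨by linarith, by linarith, -1, ?_⟩
          push_cast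
          ring
        rw [h3]
        refine le_min (by linarith) (by linarith)
  · refine hη.le.trans (le_min (Int.fract_nonneg x) ?_)
    have := Int.fract_lt_one x
    linarith

theorem separation (a q w b c : ℕ) (z : ℝ) (ha : 1 ≤ a) (hq : 1 ≤ q) (hb : 2 * a ≤ b)
    (hc : c ∈ Sw a q w)
    (hz : ¬ ((w : ℝ) / q + 1 / b ≤ Int.fract z ∧ Int.fract z < ((w : ℝ) + 1) / q)) :
    1 / (2 * (a : ℝ)) ≤ dz (z - c / ((q * a ^ 4 : ℕ) : ℝ)) := by
  have ha0 : (0 : ℝ) < a := by exact_mod_cast ha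
  have hq0 : (0 : ℝ) < q := by exact_mod_cast hq
  have hb' : 2 * (a : ℝ) ≤ b := by exact_mod_cast hb
  have hb0 : (0 : ℝ) < b := by linarith
  rw [dz_fract]
  obtain ⟨t, ht⟩ : ∃ t, t = Int.fract z := ⟨_, rfl⟩
  have ht0 : 0 ≤ t := by rw [ht]; exact Int.fract_nonneg z
  have ht1 : t < 1 := by rw [ht]; exact Int.fract_lt_one z
  rw [← ht] at hz ⊢
  unfold Sw at hc
  rw [Finset.mem_filter, Finset.mem_range] at hc
  obtain ⟨h1, h2, h3⟩ := hc
  have h2' : (w : ℝ) * (a : ℝ) ^ 4 + q * (a : ℝ) ^ 3 ≤ c := by exact_mod_cast h2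
  have h3' : (c : ℝ) + q * (a : ℝ) ^ 3 ≤ ((w : ℝ) + 1) * (a : ℝ) ^ 4 := by exact_mod_cast h3
  obtain ⟨y, hy⟩ : ∃ y : ℝ, y = c / ((q * a ^ 4 : ℕ) : ℝ) := ⟨_, rfl⟩
  rw [← hy]
  push_cast at hy
  have hqa : (0 : ℝ) < q * (a : ℝ) ^ 4 := by positivity
  have k1 : (w : ℝ) / q + 1 / a ≤ y := by
    rw [hy, le_div_iff₀ hqa]
    have : ((w : ℝ) / q + 1 / a) * (q * (a : ℝ) ^ 4) = w * (a : ℝ) ^ 4 + q * (a : ℝ) ^ 3 := by
      field_simp
    rw [this]
    exact h2'
  have k2 : y ≤ ((w : ℝ) + 1) / q - 1 / a := by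
    rw [hy, div_le_iff₀ hqa]
    have : (((w : ℝ) + 1) / q - 1 / a) * (q * (a : ℝ) ^ 4) =
        (w + 1) * (a : ℝ) ^ 4 - q * (a : ℝ) ^ 3 := by
      field_simp
    rw [this]
    linarith
  have hinv : 1 / (b : ℝ) ≤ 1 / (2 * a) := one_div_le_one_div_of_le (by linarith) hb'
  have hhalf : 1 / (a : ℝ) = 1 / (2 * a) + 1 / (2 * a) := by
    field_simp
    norm_num
  have hpos : 0 < 1 / (2 * (a : ℝ)) := by positivity
  have hw0 : (0 : ℝ) ≤ (w : ℝ) / q := by positivity
  have hwq : w < q := by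
    by_contra h
    push Not at h
    have h5 : (q : ℝ) ≤ w := by exact_mod_cast h
    have h6 : (c : ℝ) < q * (a : ℝ) ^ 4 := by exact_mod_cast h1
    have h7 : (q : ℝ) * (a : ℝ) ^ 4 ≤ w * (a : ℝ) ^ 4 := by gcongr
    have h8 : (0 : ℝ) < q * (a : ℝ) ^ 3 := by positivity
    linarith
  have hw1 : ((w : ℝ) + 1) / q ≤ 1 := by
    rw [div_le_one hq0]
    exact_mod_cast hwq
  apply le_dz
  · rcases lt_or_ge t ((w : ℝ) / q + 1 / b) with h | h
    · rw [abs_sub_comm, abs_of_nonneg (by linarith)]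
      linarith
    · have h4 : ((w : ℝ) + 1) / q ≤ t := by
        by_contra h5
        push Not at h5
        exact hz ⟨h, h5⟩
      rw [abs_of_nonneg (by linarith)]
      linarith
  · rw [abs_le]
    constructor <;> linarith

variable {ι : Type} [Fintype ι] [DecidableEq ι]

theorem pow_sub_le {x y : ℝ} (hx : 0 ≤ x) (hxy : x ≤ y) (hy : y ≤ 1) (n : ℕ) :
    y ^ n - n * (y - x) ≤ x ^ n := by
  induction n with
  | zero => simp
  | succ n ih =>
    have h1 : x ^ n ≤ 1 := pow_le_one₀ hx (hxy.trans hy)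
    have h2 : 0 ≤ x ^ n := pow_nonneg hx n
    have h3 : y ^ (n + 1) - x ^ (n + 1) = y * (y ^ n - x ^ n) + (y - x) * x ^ n := by ring
    have h4 : y * (y ^ n - x ^ n) ≤ 1 * (n * (y - x)) := by
      have h5 : 0 ≤ y ^ n - x ^ n := sub_nonneg.2 (pow_le_pow_left₀ hx hxy n)
      exact mul_le_mul hy (by linarith) h5 zero_le_one
    have h5 : (y - x) * x ^ n ≤ (y - x) * 1 := mul_le_mul_of_nonneg_left h1 (by linarith)
    push_cast
    linarith

/-- lower bound for the frequency of each string -/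
theorem string_count (a q B : ℕ) (ha : 1 ≤ a) (hq : 1 ≤ q) (Z : ℕ → ι → ℝ) (W : ℕ → ι → ℕ)
    (hW : ∀ b, 2 * a ≤ b → ∀ i, ∀ w < q, (w : ℝ) / q + 1 / b ≤ Int.fract (Z b i) →
      Int.fract (Z b i) < ((w : ℝ) + 1) / q → W b i = w) (ε : ℝ) (hε0 : 0 ≤ ε)
    (hε : ∀ h : ι → ℤ, h ≠ 0 → (∀ i, |h i| < ((a ^ 4 : ℕ) : ℤ)) →
      ‖∑ b ∈ Finset.Ioc 0 B, ee (∑ i, (h i : ℝ) * Z b i)‖ ≤ B * ε)
    (hqa : (2 : ℝ) / a ≤ 1 / q) (w : ι → Fin q) :
    B * ((1 / (q : ℝ)) ^ Fintype.card ι - Fintype.card ι * (2 / a) -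
      ε * ((a : ℝ) ^ 4) ^ Fintype.card ι - 1 / (a : ℝ) ^ 2) - 2 * a ≤
      ((Finset.Ioc 0 B).filter fun b => ∀ i, W b i = w i).card := by
  classical
  have ha0 : (0 : ℝ) < a := by exact_mod_cast ha
  have hq0 : (0 : ℝ) < q := by exact_mod_cast hq
  have hL : 1 ≤ a ^ 4 := Nat.one_le_pow _ _ ha
  have hLG : a ^ 4 ≤ q * a ^ 4 := Nat.le_mul_of_pos_left _ hq
  have hG : 1 ≤ q * a ^ 4 := hL.trans hLG
  obtain ⟨S, hS⟩ : ∃ S : ι → Finset ℕ, S = fun i => Sw a q (w i) := ⟨_, rfl⟩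
  have hav := avg (a ^ 4) (q * a ^ 4) hL hG S (fun i => by rw [hS]; exact Sw_card_le a q _)
    (Finset.Ioc 0 B) Z ε (by
      rw [Nat.card_Ioc, Nat.sub_zero]
      exact hε)
  rw [Nat.card_Ioc, Nat.sub_zero] at hav
  have hav' := hav.resolve_right (by
    push Not
    positivity)
  have h1 := (abs_le.1 hav').1
  have hbase : (1 : ℝ) / q - 2 / a ≥ 0 := by linarith
  have hprod : (1 / (q : ℝ)) ^ Fintype.card ι - Fintype.card ι * (2 / a) ≤
      ∏ i, ((S i).card : ℝ) / ((q * a ^ 4 : ℕ) : ℝ) := by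
    have h2 : ((1 : ℝ) / q - 2 / a) ^ Fintype.card ι ≤
        ∏ i, ((S i).card : ℝ) / ((q * a ^ 4 : ℕ) : ℝ) := by
      rw [← Finset.card_univ, ← Finset.prod_const]
      refine Finset.prod_le_prod (fun _ _ => hbase) fun i _ => ?_
      rw [hS]
      exact Sw_card a q (w i) ha hq (w i).2
    have h3 := pow_sub_le hbase (show (1 : ℝ) / q - 2 / a ≤ 1 / q by
      have : (0 : ℝ) < 2 / a := by positivity
      linarith) (by
        rw [div_le_one hq0]
        exact_mod_cast hq) (Fintype.card ι)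
    have h4 : (1 : ℝ) / q - (1 / q - 2 / a) = 2 / a := by ring
    rw [h4] at h3
    linarith
  have hsum : ∑ b ∈ Finset.Ioc 0 B, ∏ i, fS (a ^ 4) (q * a ^ 4) (S i) (Z b i) ≤
      ((Finset.Ioc 0 B).filter fun b => ∀ i, W b i = w i).card + 2 * a + B * (1 / (a : ℝ) ^ 2) := by
    have h2 : ∀ b ∈ Finset.Ioc 0 B, ∏ i, fS (a ^ 4) (q * a ^ 4) (S i) (Z b i) ≤
        (if ∀ i, W b i = w i then (1 : ℝ) else 0) + (if b < 2 * a then (1 : ℝ) else 0) +
          1 / (a : ℝ) ^ 2 := by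
      intro b _
      have h3 : ∀ i, fS (a ^ 4) (q * a ^ 4) (S i) (Z b i) ≤ 1 := fun i =>
        fS_le_one _ _ _ _ hL hLG (by rw [hS]; exact Sw_sub a q _)
      have h4 : ∏ i, fS (a ^ 4) (q * a ^ 4) (S i) (Z b i) ≤ 1 :=
        Finset.prod_le_one (fun i _ => fS_nonneg _ _ _ _) fun i _ => h3 i
      have h5 : (0 : ℝ) ≤ 1 / (a : ℝ) ^ 2 := by positivity
      by_cases h6 : ∀ i, W b i = w i
      · rw [if_pos h6]
        split_ifs <;> linarith
      · rw [if_neg h6]
        by_cases h7 : b < 2 * a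
        · rw [if_pos h7]
          linarith
        · rw [if_neg h7]
          push Not at h6 h7
          obtain ⟨i, hi⟩ := h6
          have h8 : fS (a ^ 4) (q * a ^ 4) (S i) (Z b i) ≤ 1 / (a : ℝ) ^ 2 := by
            refine (fS_small _ _ _ _ (1 / (2 * (a : ℝ))) hL hG (by rw [hS]; exact Sw_card_le a q _)
              (by positivity) ?_).trans (le_of_eq ?_)
            · intro c hc
              rw [hS] at hc
              refine separation a q (w i) b c (Z b i) ha hq h7 hc ?_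
              rintro ⟨h9, h10⟩
              exact hi (hW b h7 i (w i) (w i).2 h9 h10)
            · push_cast
              field_simp
              norm_num
          have h9 : ∏ i, fS (a ^ 4) (q * a ^ 4) (S i) (Z b i) ≤
              fS (a ^ 4) (q * a ^ 4) (S i) (Z b i) := by
            rw [← Finset.mul_prod_erase _ _ (Finset.mem_univ i)]
            have h10 : ∏ j ∈ Finset.univ.erase i, fS (a ^ 4) (q * a ^ 4) (S j) (Z b j) ≤ 1 :=
              Finset.prod_le_one (fun i _ => fS_nonneg _ _ _ _) fun i _ => h3 i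
            have h11 := fS_nonneg (a ^ 4) (q * a ^ 4) (S i) (Z b i)
            nlinarith
          linarith
    refine (Finset.sum_le_sum h2).trans ?_
    rw [Finset.sum_add_distrib, Finset.sum_add_distrib, Finset.sum_const, Nat.card_Ioc, Nat.sub_zero,
      nsmul_eq_mul, Finset.sum_boole, Finset.sum_boole]
    have h3 : (((Finset.Ioc 0 B).filter fun b => b < 2 * a).card : ℝ) ≤ 2 * a := by
      have h4 : (Finset.Ioc 0 B).filter (fun b => b < 2 * a) ⊆ Finset.range (2 * a) := by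
        intro b hb
        rw [Finset.mem_filter] at hb
        exact Finset.mem_range.2 hb.2
      have h5 := Finset.card_le_card h4
      rw [Finset.card_range] at h5
      exact_mod_cast h5
    linarith
  have hB0 : (0 : ℝ) ≤ B := Nat.cast_nonneg B
  have h2 : (B : ℝ) * ((1 / (q : ℝ)) ^ Fintype.card ι - Fintype.card ι * (2 / a)) ≤
      B * ∏ i, ((S i).card : ℝ) / ((q * a ^ 4 : ℕ) : ℝ) := mul_le_mul_of_nonneg_left hprod hB0
  have h3 : (B : ℝ) * ε * (((a ^ 4 : ℕ) : ℝ)) ^ Fintype.card ι =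
      B * (ε * ((a : ℝ) ^ 4) ^ Fintype.card ι) := by
    push_cast
    ring
  rw [h3] at h1
  linarith

/-- the same for all events -/
theorem event_count (a q B : ℕ) (ha : 1 ≤ a) (hq : 1 ≤ q) (Z : ℕ → ι → ℝ) (W : ℕ → ι → ℕ)
    (hWq : ∀ b, 1 ≤ b → ∀ i, W b i < q)
    (hW : ∀ b, 2 * a ≤ b → ∀ i, ∀ w < q, (w : ℝ) / q + 1 / b ≤ Int.fract (Z b i) →
      Int.fract (Z b i) < ((w : ℝ) + 1) / q → W b i = w) (ε : ℝ) (hε0 : 0 ≤ ε)
    (hε : ∀ h : ι → ℤ, h ≠ 0 → (∀ i, |h i| < ((a ^ 4 : ℕ) : ℤ)) →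
      ‖∑ b ∈ Finset.Ioc 0 B, ee (∑ i, (h i : ℝ) * Z b i)‖ ≤ B * ε)
    (hqa : (2 : ℝ) / a ≤ 1 / q) (A : Finset (ι → Fin q)) (E : ℝ)
    (hE : B * (Fintype.card ι * (2 / a) + ε * ((a : ℝ) ^ 4) ^ Fintype.card ι + 1 / (a : ℝ) ^ 2) +
      2 * a ≤ B * E) (hE0 : 0 ≤ E) :
    |(((Finset.Ioc 0 B).filter fun b => ∃ w ∈ A, ∀ i, W b i = w i).card : ℝ) -
      B * (A.card / (q : ℝ) ^ Fintype.card ι)| ≤ B * ((q : ℝ) ^ Fintype.card ι * E) := by
  classical
  have hq0 : (0 : ℝ) < q := by exact_mod_cast hq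
  have hB0 : (0 : ℝ) ≤ B := Nat.cast_nonneg B
  -- counts
  have hlow : ∀ A : Finset (ι → Fin q), B * (A.card / (q : ℝ) ^ Fintype.card ι) -
      B * ((q : ℝ) ^ Fintype.card ι * E) ≤
      (((Finset.Ioc 0 B).filter fun b => ∃ w ∈ A, ∀ i, W b i = w i).card : ℝ) := by
    intro A
    have h1 : ((Finset.Ioc 0 B).filter fun b => ∃ w ∈ A, ∀ i, W b i = w i) =
        A.biUnion fun w => (Finset.Ioc 0 B).filter fun b => ∀ i, W b i = w i := by
      ext b
      simp only [Finset.mem_filter, Finset.mem_biUnion]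
      constructor
      · rintro ⟨h1, w, h2, h3⟩
        exact ⟨w, h2, h1, h3⟩
      · rintro ⟨w, h2, h1, h3⟩
        exact ⟨h1, w, h2, h3⟩
    rw [h1, Finset.card_biUnion]
    · push_cast
      have h2 : ∑ w ∈ A, (B * (1 / (q : ℝ)) ^ Fintype.card ι - B * E) ≤
          ∑ w ∈ A, (((Finset.Ioc 0 B).filter fun b => ∀ i, W b i = w i).card : ℝ) := by
        refine Finset.sum_le_sum fun w _ => ?_
        have h3 := string_count a q B ha hq Z W hW ε hε0 hε hqa w
        linarith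
      refine le_trans ?_ h2
      rw [Finset.sum_const, nsmul_eq_mul, mul_sub, one_div, inv_pow]
      have h3 : (A.card : ℝ) ≤ (q : ℝ) ^ Fintype.card ι := by
        have h4 := Finset.card_le_univ A
        rw [Fintype.card_fun, Fintype.card_fin] at h4
        exact_mod_cast h4
      have h4 : (A.card : ℝ) * (B * E) ≤ (q : ℝ) ^ Fintype.card ι * (B * E) := by gcongr
      have h5 : (B : ℝ) * (A.card / (q : ℝ) ^ Fintype.card ι) =
          A.card * (B * ((q : ℝ) ^ Fintype.card ι)⁻¹) := by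
        rw [div_eq_mul_inv]
        ring
      rw [h5]
      linarith
    · intro w _ w' _ hww
      rw [Function.onFun, Finset.disjoint_left]
      intro b hb hb'
      rw [Finset.mem_filter] at hb hb'
      apply hww
      funext i
      apply Fin.ext
      rw [← hb.2 i, ← hb'.2 i]
  have h1 := hlow A
  have h2 := hlow Aᶜ
  have h3 : (((Finset.Ioc 0 B).filter fun b => ∃ w ∈ A, ∀ i, W b i = w i).card : ℝ) +
      (((Finset.Ioc 0 B).filter fun b => ∃ w ∈ Aᶜ, ∀ i, W b i = w i).card : ℝ) = B := by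
    have h4 : (Finset.Ioc 0 B).filter (fun b => ∃ w ∈ Aᶜ, ∀ i, W b i = w i) =
        (Finset.Ioc 0 B).filter (fun b => ¬ ∃ w ∈ A, ∀ i, W b i = w i) := by
      refine Finset.filter_congr fun b hb => ?_
      rw [Finset.mem_Ioc] at hb
      constructor
      · rintro ⟨w, hw, hw'⟩ ⟨v, hv, hv'⟩
        rw [Finset.mem_compl] at hw
        apply hw
        have : w = v := by
          funext i
          apply Fin.ext
          rw [← hw' i, ← hv' i]
        rw [this]
        exact hv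
      · intro h
        refine ⟨fun i => ⟨W b i, hWq b (by omega) i⟩, ?_, fun i => rfl⟩
        rw [Finset.mem_compl]
        intro h5
        exact h ⟨_, h5, fun i => rfl⟩
    rw [h4]
    have h5 := Finset.card_filter_add_card_filter_not (s := Finset.Ioc 0 B)
      (fun b => ∃ w ∈ A, ∀ i, W b i = w i)
    rw [Nat.card_Ioc, Nat.sub_zero] at h5
    exact_mod_cast h5
  have h4 : ((Aᶜ).card : ℝ) = (q : ℝ) ^ Fintype.card ι - A.card := by
    rw [Finset.card_compl, Nat.cast_sub (Finset.card_le_univ A), Fintype.card_fun, Fintype.card_fin]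
    push_cast
    rfl
  rw [h4] at h2
  have h5 : (B : ℝ) * (((q : ℝ) ^ Fintype.card ι - A.card) / (q : ℝ) ^ Fintype.card ι) =
      B - B * (A.card / (q : ℝ) ^ Fintype.card ι) := by
    field_simp
  rw [h5] at h2
  rw [abs_le]
  constructor <;> linarith

end Run7.h683.AB
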