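import Pool.Agent.Run7.h683.AB.W4

/-!
# Random bases: exponential sums over polynomials of growing degree, asymptotic form
-/

set_option autoImplicit false

namespace Run7.h683.AB

open Finset Polynomial Filter
open Pool.Agent.Y957.VK

theorem ev_lt {a b : ℝ} (hab : a < b) (C : ℝ) : ∀ᶠ t : ℝ in atTop, C * t ^ a ≤ t ^ b := by
  have h1 := tendsto_rpow_atTop (y := b - a) (by linarith)
  filter_upwards [h1.eventually_ge_atTop C, eventually_gt_atTop 0] with t ht ht0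
  have h2 : t ^ b = t ^ (b - a) * t ^ a := by
    rw [← Real.rpow_add ht0]
    congr 1
    ring
  rw [h2]
  exact mul_le_mul_of_nonneg_right ht (Real.rpow_nonneg ht0.le _)

theorem ev_const {b : ℝ} (hb : 0 < b) (C : ℝ) : ∀ᶠ t : ℝ in atTop, C ≤ t ^ b := by
  filter_upwards [ev_lt hb C] with t ht
  simpa using ht

theorem AA_le (C : ℕ) {t δ E : ℝ} (ht : 1 ≤ t) (hδ : δ = 1 / (100 * ((C : ℝ) + 1)))
    (hE0 : 0 ≤ E) (hE : E ≤ 4 * t ^ δ) :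
    AA C E ≤ (2 * (C * 32 ^ C) + 9 * 4 ^ 7 + 3) * t ^ (1 / 10 : ℝ) := by
  have ht0 : 0 < t := by linarith
  have hC0 : (0 : ℝ) ≤ C := Nat.cast_nonneg C
  have hδ0 : 0 < δ := by rw [hδ]; positivity
  have hδ1 : δ ≤ 1 / 100 := by
    rw [hδ]
    apply one_div_le_one_div_of_le (by norm_num)
    nlinarith
  have hδC : 2 * δ * C ≤ 1 / 10 := by
    rw [hδ]
    have h1 : 2 * (1 / (100 * ((C : ℝ) + 1))) * C = (C / (C + 1)) / 50 := by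
      field_simp
      ring
    rw [h1]
    have h2 : (C : ℝ) / (C + 1) ≤ 1 := by
      rw [div_le_one (by linarith)]
      linarith
    linarith
  have h1 : (2 * E ^ 2) ^ C ≤ 32 ^ C * t ^ (1 / 10 : ℝ) := by
    calc (2 * E ^ 2) ^ C ≤ (2 * (4 * t ^ δ) ^ 2) ^ C := by gcongr
      _ = 32 ^ C * t ^ (2 * δ * C) := by
          have h2 : (2 * (4 * t ^ δ) ^ 2) = 32 * t ^ (2 * δ) := by
            rw [mul_pow, ← Real.rpow_natCast (t ^ δ) 2, ← Real.rpow_mul ht0.le]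
            push_cast
            rw [mul_comm δ 2]
            ring
          rw [h2, mul_pow, ← Real.rpow_natCast (t ^ (2 * δ)) C, ← Real.rpow_mul ht0.le]
      _ ≤ 32 ^ C * t ^ (1 / 10 : ℝ) := by
          gcongr
  have h2 : E ^ 7 ≤ 4 ^ 7 * t ^ (1 / 10 : ℝ) := by
    calc E ^ 7 ≤ (4 * t ^ δ) ^ 7 := by gcongr
      _ = 4 ^ 7 * t ^ (δ * 7) := by
          rw [mul_pow, ← Real.rpow_natCast (t ^ δ) 7, ← Real.rpow_mul ht0.le]
          push_cast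
          rfl
      _ ≤ 4 ^ 7 * t ^ (1 / 10 : ℝ) := by
          gcongr
          linarith
  have h3 : (1 : ℝ) ≤ t ^ (1 / 10 : ℝ) := Real.one_le_rpow ht (by norm_num)
  unfold AA
  calc 2 * (C * (2 * E ^ 2) ^ C) + 9 * E ^ 7 + 3 ≤
      2 * (C * (32 ^ C * t ^ (1 / 10 : ℝ))) + 9 * (4 ^ 7 * t ^ (1 / 10 : ℝ)) +
        3 * t ^ (1 / 10 : ℝ) := by
        gcongr
        linarith
    _ = _ := by ring

theorem weyl_asym : ∃ δ : ℝ, 0 < δ ∧ δ ≤ 1 / 100 ∧ ∀ (κ : ℕ) (c : ℝ), 0 < c →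
    ∀ᶠ N : ℕ in atTop, ∀ (r : ℕ) (L : ℝ) (P : ℝ[X]), 2 ≤ r → (r : ℝ) ≤ 3 * Real.log N ^ δ →
    1 ≤ L → L ≤ Real.exp (Real.log N ^ (3 / 5 : ℝ)) → 1 ≤ P.natDegree → P.natDegree ≤ r →
    (∀ u : ℕ, 1 ≤ u → c / (L * u) ^ κ ≤ dz (P.coeff P.natDegree * u)) →
    ‖∑ n ∈ Finset.Ioc 0 N, ee (P.eval (n : ℝ))‖ ≤ N * Real.exp (-(Real.log N ^ (4 / 5 : ℝ))) := by
  obtain ⟨C, hC⟩ := weyl_explicit
  obtain ⟨δ, hδ⟩ : ∃ δ : ℝ, δ = 1 / (100 * ((C : ℝ) + 1)) := ⟨_, rfl⟩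
  have hC0 : (0 : ℝ) ≤ C := Nat.cast_nonneg C
  have hδ0 : 0 < δ := by rw [hδ]; positivity
  have hδ1 : δ ≤ 1 / 100 := by
    rw [hδ]
    apply one_div_le_one_div_of_le (by norm_num)
    nlinarith
  refine ⟨δ, hδ0, hδ1, ?_⟩
  intro κ c hc
  obtain ⟨K1, hK1⟩ : ∃ K1 : ℝ, K1 = 32 * ((κ : ℝ) + 1) + 1 := ⟨_, rfl⟩
  obtain ⟨K2, hK2⟩ : ∃ K2 : ℝ, K2 = (2 * (C * 32 ^ C) + 9 * 4 ^ 7 + 3) * (40 * ((κ : ℝ) + 1)) :=
    ⟨_, rfl⟩
  have hlog : Tendsto (fun N : ℕ => Real.log (N : ℝ)) atTop atTop :=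
    Real.tendsto_log_atTop.comp tendsto_natCast_atTop_atTop
  have ev : ∀ᶠ t : ℝ in atTop, (20 : ℝ) ≤ t ∧ K1 ≤ t ^ δ ∧ K2 * t ^ (1 / 10 : ℝ) ≤ t ^ (1 : ℝ) ∧
      (160 * (κ + 1) * 4 ^ 6) * t ^ (9 / 10 : ℝ) ≤ t ^ (94 / 100 : ℝ) ∧
      2 * t ^ (4 / 5 : ℝ) ≤ t ^ (9 / 10 : ℝ) ∧ 4 * t ^ (4 / 5 : ℝ) ≤ t ^ (1 : ℝ) ∧
      2 ≤ t ^ (4 / 5 : ℝ) ∧ (10 * (κ + |Real.log c|)) * t ^ (3 / 5 : ℝ) ≤ t ^ (1 : ℝ) := by
    filter_upwards [eventually_ge_atTop 20, ev_const hδ0 K1,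
      ev_lt (a := 1 / 10) (b := 1) (by norm_num) K2,
      ev_lt (a := 9 / 10) (b := 94 / 100) (by norm_num) (160 * (κ + 1) * 4 ^ 6),
      ev_lt (a := 4 / 5) (b := 9 / 10) (by norm_num) 2,
      ev_lt (a := 4 / 5) (b := 1) (by norm_num) 4,
      ev_const (b := 4 / 5) (by norm_num) 2,
      ev_lt (a := 3 / 5) (b := 1) (by norm_num) (10 * (κ + |Real.log c|))] with t a1 a2 a3 a4 a5 a6 a7 a8
    exact ⟨a1, a2, a3, a4, a5, a6, a7, a8⟩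
  filter_upwards [hlog.eventually ev, eventually_ge_atTop 2] with N hN hN2
  obtain ⟨t, ht⟩ : ∃ t : ℝ, t = Real.log N := ⟨_, rfl⟩
  rw [← ht] at hN ⊢
  obtain ⟨a1, a2, a3, a4, a5, a6, a7, a8⟩ := hN
  rw [Real.rpow_one] at a3 a6 a8
  have ht0 : 0 < t := by linarith
  have hN0 : (0 : ℝ) < N := by exact_mod_cast (by omega : 0 < N)
  have hN1 : (1 : ℝ) ≤ N := by exact_mod_cast (by omega : 1 ≤ N)
  intro r L P hr hrt hL hLt hk1 hk2 hdz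
  obtain ⟨M, hM⟩ : ∃ M : ℕ, M = ⌊(N : ℝ) ^ (1 / 4 : ℝ)⌋₊ := ⟨_, rfl⟩
  have hy1 : (1 : ℝ) ≤ (N : ℝ) ^ (1 / 4 : ℝ) := Real.one_le_rpow hN1 (by norm_num)
  have hM1 : 1 ≤ M := by
    rw [hM, Nat.one_le_floor_iff]
    exact hy1
  have hM1' : (1 : ℝ) ≤ M := by exact_mod_cast hM1
  have hM0 : (0 : ℝ) < M := by linarith
  have hMle : (M : ℝ) ≤ (N : ℝ) ^ (1 / 4 : ℝ) := by
    rw [hM]
    exact Nat.floor_le (by positivity)
  have hMge : (N : ℝ) ^ (1 / 4 : ℝ) ≤ 2 * M := by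
    have h1 : (N : ℝ) ^ (1 / 4 : ℝ) < (M : ℝ) + 1 := by
      rw [hM]
      exact Nat.lt_floor_add_one _
    linarith
  obtain ⟨l, hl⟩ : ∃ l : ℝ, l = Real.log M := ⟨_, rfl⟩
  have hlt : t / 5 ≤ l := by
    have h1 : Real.log ((N : ℝ) ^ (1 / 4 : ℝ)) ≤ Real.log (2 * M) :=
      Real.log_le_log (by positivity) hMge
    rw [Real.log_rpow hN0, Real.log_mul (by norm_num) hM0.ne', ← ht, ← hl] at h1
    have h2 : Real.log 2 < 1 := by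
      have := Real.log_two_lt_d9
      linarith
    linarith
  have hl0 : 0 ≤ l := by linarith
  obtain ⟨E, hE⟩ : ∃ E : ℝ, E = (r : ℝ) + 32 * (κ + 1) + 1 := ⟨_, rfl⟩
  have hκ0 : (0 : ℝ) ≤ κ := Nat.cast_nonneg κ
  have hr0 : (0 : ℝ) ≤ r := Nat.cast_nonneg r
  have hE0 : 0 < E := by rw [hE]; positivity
  have hE4 : E ≤ 4 * t ^ δ := by
    rw [hE]
    rw [hK1] at a2
    linarith
  have hAA := AA_le C (by linarith : 1 ≤ t) hδ hE0.le hE4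
  have hcond : AA C E ≤ l / (8 * (κ + 1)) := by
    rw [le_div_iff₀ (by positivity)]
    rw [hK2] at a3
    have h1 : AA C E * (8 * ((κ : ℝ) + 1)) ≤
        ((2 * (C * 32 ^ C) + 9 * 4 ^ 7 + 3) * t ^ (1 / 10 : ℝ)) * (8 * (κ + 1)) := by gcongr
    nlinarith
  have hL1 : L ^ κ ≤ c * (M : ℝ) ^ (1 / 2 : ℝ) := by
    have h1 : (M : ℝ) ^ (1 / 2 : ℝ) = Real.exp (l * (1 / 2)) := by
      rw [Real.rpow_def_of_pos hM0, hl]
    have h2 : L ^ κ ≤ Real.exp (κ * t ^ (3 / 5 : ℝ)) := by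
      rw [Real.exp_nat_mul]
      exact pow_le_pow_left₀ (by linarith) hLt κ
    have h3 : c = Real.exp (Real.log c) := (Real.exp_log hc).symm
    rw [h1, h3, ← Real.exp_add]
    refine h2.trans (Real.exp_le_exp.2 ?_)
    have h4 : -|Real.log c| ≤ Real.log c := neg_abs_le _
    have h5 : (1 : ℝ) ≤ t ^ (3 / 5 : ℝ) := Real.one_le_rpow (by linarith) (by norm_num)
    have h6 : |Real.log c| ≤ |Real.log c| * t ^ (3 / 5 : ℝ) := by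
      have := abs_nonneg (Real.log c)
      nlinarith
    linarith
  have hmain := hC κ r M N L c P hr hM1 hL hc hk1 hk2 hdz hL1 (by rw [← hE, ← hl]; exact hcond)
  rw [← hE, ← hl] at hmain
  refine hmain.trans ?_
  have hx : t ^ (9 / 10 : ℝ) ≤ l / (32 * (κ + 1) * E ^ 6) := by
    rw [le_div_iff₀ (by positivity)]
    have h1 : E ^ 6 ≤ 4 ^ 6 * t ^ (6 / 100 : ℝ) := by
      calc E ^ 6 ≤ (4 * t ^ δ) ^ 6 := by gcongr
        _ = 4 ^ 6 * t ^ (δ * 6) := by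
            rw [mul_pow, ← Real.rpow_natCast (t ^ δ) 6, ← Real.rpow_mul ht0.le]
            push_cast
            rfl
        _ ≤ 4 ^ 6 * t ^ (6 / 100 : ℝ) := by
            gcongr
            · linarith
            · linarith
    have h2 : t ^ (94 / 100 : ℝ) * t ^ (6 / 100 : ℝ) = t := by
      rw [← Real.rpow_add ht0]
      norm_num
    have h3 : (0 : ℝ) ≤ t ^ (6 / 100 : ℝ) := by positivity
    have h4 : (0 : ℝ) ≤ t ^ (9 / 10 : ℝ) := by positivity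
    calc t ^ (9 / 10 : ℝ) * (32 * (κ + 1) * E ^ 6) ≤
        t ^ (9 / 10 : ℝ) * (32 * (κ + 1) * (4 ^ 6 * t ^ (6 / 100 : ℝ))) := by gcongr
      _ = ((160 * (κ + 1) * 4 ^ 6) * t ^ (9 / 10 : ℝ)) * t ^ (6 / 100 : ℝ) / 5 := by ring
      _ ≤ t ^ (94 / 100 : ℝ) * t ^ (6 / 100 : ℝ) / 5 := by gcongr
      _ = t / 5 := by rw [h2]
      _ ≤ l := hlt
  obtain ⟨z, hz⟩ : ∃ z : ℝ, z = t ^ (4 / 5 : ℝ) := ⟨_, rfl⟩
  rw [← hz] at a5 a6 a7 ⊢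
  have h1 : Real.exp (-(l / (32 * (κ + 1) * E ^ 6))) ≤ Real.exp (-z) * Real.exp (-2) := by
    rw [← Real.exp_add]
    apply Real.exp_le_exp.2
    linarith
  have h2 : 2 * (M : ℝ) ^ 2 ≤ N * (Real.exp (-z) * (2 * Real.exp (-2))) := by
    have h3 : (M : ℝ) ^ 2 ≤ (N : ℝ) ^ (1 / 2 : ℝ) := by
      calc (M : ℝ) ^ 2 ≤ ((N : ℝ) ^ (1 / 4 : ℝ)) ^ 2 := by gcongr
        _ = (N : ℝ) ^ (1 / 2 : ℝ) := by
            rw [← Real.rpow_natCast, ← Real.rpow_mul hN0.le]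
            norm_num
    have h4 : (N : ℝ) ^ (1 / 2 : ℝ) = N * Real.exp (-(t / 2)) := by
      have h5 : (N : ℝ) = Real.exp t := by rw [ht, Real.exp_log hN0]
      rw [Real.rpow_def_of_pos hN0, ← ht]
      nth_rewrite 1 [h5]
      rw [← Real.exp_add]
      congr 1
      ring
    rw [h4] at h3
    have h5 : Real.exp (-(t / 2)) ≤ Real.exp (-z) * Real.exp (-2) := by
      rw [← Real.exp_add]
      apply Real.exp_le_exp.2
      linarith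
    calc 2 * (M : ℝ) ^ 2 ≤ 2 * (N * Real.exp (-(t / 2))) := by gcongr
      _ ≤ 2 * (N * (Real.exp (-z) * Real.exp (-2))) := by gcongr
      _ = _ := by ring
  have h3 : 3 * Real.exp (-2) ≤ 1 := by
    have h4 := Real.add_one_le_exp (2 : ℝ)
    rw [Real.exp_neg]
    rw [← div_eq_mul_inv, div_le_one (Real.exp_pos _)]
    linarith
  calc N * Real.exp (-(l / (32 * (κ + 1) * E ^ 6))) + 2 * (M : ℝ) ^ 2 ≤
      N * (Real.exp (-z) * Real.exp (-2)) + N * (Real.exp (-z) * (2 * Real.exp (-2))) := by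
        gcongr
    _ = N * Real.exp (-z) * (3 * Real.exp (-2)) := by ring
    _ ≤ N * Real.exp (-z) * 1 := by gcongr
    _ = N * Real.exp (-z) := by ring

end Run7.h683.AB
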