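import Pool.Agent.Run7.h683.AB.F3
import Pool.Agent.Run7.h683.AB.W5

/-!
# Random bases: digits and polynomials
-/

set_option autoImplicit false

namespace Run7.h683.AB

open Finset Polynomial
open Pool.Agent.Y957.VK

/-- the digit at the place `j` after the point of `y` in base `b` -/
noncomputable def digit (b : ℕ) (y : ℝ) (j : ℕ) : ℕ := (⌊y * (b : ℝ) ^ j⌋ % (b : ℤ)).toNat

theorem digit_lt (b : ℕ) (y : ℝ) (j : ℕ) (hb : 1 ≤ b) : digit b y j < b := by
  unfold digit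
  have h1 := Int.emod_lt_of_pos ⌊y * (b : ℝ) ^ j⌋ (by omega : (0 : ℤ) < b)
  have h2 := Int.emod_nonneg ⌊y * (b : ℝ) ^ j⌋ (by omega : (b : ℤ) ≠ 0)
  omega

theorem digit_eq (b : ℕ) (y : ℝ) (j : ℕ) (hb : 1 ≤ b) :
    ((digit b y (j + 1) : ℕ) : ℤ) = ⌊(b : ℝ) * Int.fract (y * (b : ℝ) ^ j)⌋ := by
  unfold digit
  have hb0 : (0 : ℝ) < b := by exact_mod_cast hb
  have h2 := Int.emod_nonneg ⌊y * (b : ℝ) ^ (j + 1)⌋ (by omega : (b : ℤ) ≠ 0)
  rw [Int.toNat_of_nonneg h2]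
  have h3 : y * (b : ℝ) ^ (j + 1) = ((b * ⌊y * (b : ℝ) ^ j⌋ : ℤ) : ℝ) +
      (b : ℝ) * Int.fract (y * (b : ℝ) ^ j) := by
    have h4 := Int.floor_add_fract (y * (b : ℝ) ^ j)
    push_cast
    rw [← mul_add, h4]
    ring
  rw [h3, Int.floor_intCast_add, Int.mul_add_emod_self_left]
  have h4 := Int.fract_nonneg (y * (b : ℝ) ^ j)
  have h5 := Int.fract_lt_one (y * (b : ℝ) ^ j)
  apply Int.emod_eq_of_lt
  · exact Int.floor_nonneg.2 (by positivity)
  · rw [Int.floor_lt]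
    push_cast
    nlinarith

theorem coarse_lt (q b : ℕ) (y : ℝ) (j : ℕ) (hq : 1 ≤ q) (hb : 1 ≤ b) :
    q * digit b y j / b < q := by
  rw [Nat.div_lt_iff_lt_mul (by omega)]
  exact Nat.mul_lt_mul_of_pos_left (digit_lt b y j hb) (by omega)

theorem coarse_eq (q b w : ℕ) (y : ℝ) (j : ℕ) (hq : 1 ≤ q) (hb : 1 ≤ b)
    (h1 : (w : ℝ) / q + 1 / b ≤ Int.fract (y * (b : ℝ) ^ j))
    (h2 : Int.fract (y * (b : ℝ) ^ j) < ((w : ℝ) + 1) / q) :
    q * digit b y (j + 1) / b = w := by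
  have hb0 : (0 : ℝ) < b := by exact_mod_cast hb
  have hq0 : (0 : ℝ) < q := by exact_mod_cast hq
  obtain ⟨t, ht⟩ : ∃ t, t = Int.fract (y * (b : ℝ) ^ j) := ⟨_, rfl⟩
  rw [← ht] at h1 h2
  have h3 := digit_eq b y j hb
  rw [← ht] at h3
  have h4 : ((digit b y (j + 1) : ℕ) : ℝ) = ((⌊(b : ℝ) * t⌋ : ℤ) : ℝ) := by exact_mod_cast h3
  have h5 : ((⌊(b : ℝ) * t⌋ : ℤ) : ℝ) ≤ b * t := Int.floor_le _
  have h6 : (b : ℝ) * t < ((⌊(b : ℝ) * t⌋ : ℤ) : ℝ) + 1 := Int.lt_floor_add_one _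
  rw [← h4] at h5 h6
  have h7 : (w : ℝ) * b ≤ q * digit b y (j + 1) := by
    have h8 : ((w : ℝ) / q + 1 / b) * (q * b) ≤ t * (q * b) := by gcongr
    have h9 : ((w : ℝ) / q + 1 / b) * (q * b) = w * b + q := by field_simp
    nlinarith
  have h8 : (q : ℝ) * digit b y (j + 1) < (w + 1) * b := by
    rw [lt_div_iff₀ hq0] at h2
    calc (q : ℝ) * digit b y (j + 1) ≤ q * (b * t) := by gcongr
      _ = (t * q) * b := by ring
      _ < (w + 1) * b := by gcongr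
  have k7 : w * b ≤ q * digit b y (j + 1) := by exact_mod_cast h7
  have k8 : q * digit b y (j + 1) < (w + 1) * b := by exact_mod_cast h8
  exact Nat.div_eq_of_lt_le k7 k8

/-- a family of real numbers with a measure of linear independence together with `1` -/
def Meas {r : ℕ} (x : Fin r → ℝ) : Prop :=
  ∃ (κ : ℕ) (c : ℝ), 0 < c ∧ ∀ h : Fin r → ℤ, h ≠ 0 → ∀ H : ℕ, (∀ i, |h i| ≤ H) →
    c / (H : ℝ) ^ κ ≤ dz (∑ i, (h i : ℝ) * x i)

theorem hsum {r : ℕ} (x : Fin r → ℝ) (κ : ℕ) (c : ℝ) (hc : 0 < c)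
    (hx : ∀ h : Fin r → ℤ, h ≠ 0 → ∀ H : ℕ, (∀ i, |h i| ≤ H) →
      c / (H : ℝ) ^ κ ≤ dz (∑ i, (h i : ℝ) * x i)) (B L K : ℕ) (ε : ℝ) (hL : 1 ≤ L)
    (hw : ∀ P : ℝ[X], 1 ≤ P.natDegree → P.natDegree ≤ K + 2 →
      (∀ u : ℕ, 1 ≤ u → c / ((L : ℝ) * u) ^ κ ≤ dz (P.coeff P.natDegree * u)) →
      ‖∑ n ∈ Finset.Ioc 0 B, ee (P.eval (n : ℝ))‖ ≤ B * ε)
    (h : Fin r × Fin K → ℤ) (h0 : h ≠ 0) (hh : ∀ p, |h p| < (L : ℤ)) :
    ‖∑ b ∈ Finset.Ioc 0 B, ee (∑ p, (h p : ℝ) * (x p.1 * (b : ℝ) ^ ((p.2 : ℕ) + 1)))‖ ≤ B * ε := by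
  classical
  obtain ⟨P, hP⟩ : ∃ P : ℝ[X], P = ∑ p : Fin r × Fin K,
    monomial ((p.2 : ℕ) + 1) ((h p : ℝ) * x p.1) := ⟨_, rfl⟩
  have hcoeff : ∀ n : ℕ, P.coeff n = ∑ p : Fin r × Fin K,
      if (p.2 : ℕ) + 1 = n then (h p : ℝ) * x p.1 else 0 := by
    intro n
    rw [hP, finset_sum_coeff]
    exact Finset.sum_congr rfl fun p _ => coeff_monomial
  -- the top place
  have hne : (Finset.univ.filter fun j : Fin K => ∃ i, h (i, j) ≠ 0).Nonempty := by
    by_contra hcon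
    rw [Finset.not_nonempty_iff_eq_empty] at hcon
    apply h0
    funext p
    by_contra hp
    have : p.2 ∈ (Finset.univ.filter fun j : Fin K => ∃ i, h (i, j) ≠ 0) := by
      rw [Finset.mem_filter]
      exact ⟨Finset.mem_univ _, p.1, hp⟩
    rw [hcon] at this
    exact absurd this (Finset.notMem_empty _)
  obtain ⟨k0, hk0m, hk0⟩ := Finset.exists_max_image _ (fun j : Fin K => (j : ℕ)) hne
  rw [Finset.mem_filter] at hk0m
  obtain ⟨_, i0, hi0⟩ := hk0m
  have htop : ∀ j : Fin K, (k0 : ℕ) < j → ∀ i, h (i, j) = 0 := by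
    intro j hj i
    by_contra hc'
    have := hk0 j (by rw [Finset.mem_filter]; exact ⟨Finset.mem_univ _, i, hc'⟩)
    omega
  obtain ⟨g, hg⟩ : ∃ g : Fin r → ℤ, g = fun i => h (i, k0) := ⟨_, rfl⟩
  have hg0 : g ≠ 0 := by
    intro hc'
    apply hi0
    have := congrFun hc' i0
    rw [hg] at this
    exact this
  have hc1 : P.coeff ((k0 : ℕ) + 1) = ∑ i, (g i : ℝ) * x i := by
    rw [hcoeff, Fintype.sum_prod_type]
    refine Finset.sum_congr rfl fun i _ => ?_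
    have h1 : ∀ j ∈ (Finset.univ : Finset (Fin K)),
        (if ((i, j).2 : ℕ) + 1 = (k0 : ℕ) + 1 then (h (i, j) : ℝ) * x (i, j).1 else 0) =
        if j = k0 then (h (i, j) : ℝ) * x i else 0 := by
      intro j _
      have h2 : ((j : ℕ) + 1 = (k0 : ℕ) + 1) ↔ j = k0 := by
        rw [Fin.ext_iff]
        omega
      simp only [h2]
    rw [Finset.sum_congr rfl h1, Finset.sum_ite_eq', if_pos (Finset.mem_univ _), hg]
  have hne0 : ∑ i, (g i : ℝ) * x i ≠ 0 := by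
    intro hc'
    have h1 := hx g hg0 L (fun i => by rw [hg]; exact (hh _).le)
    rw [hc'] at h1
    have h2 : dz 0 = 0 := by
      unfold dz
      simp
    rw [h2] at h1
    have hL0 : (0 : ℝ) < L := by exact_mod_cast hL
    have h3 : 0 < c / (L : ℝ) ^ κ := by positivity
    linarith
  have hdeg : P.natDegree = (k0 : ℕ) + 1 := by
    apply le_antisymm
    · rw [natDegree_le_iff_coeff_eq_zero]
      intro n hn
      rw [hcoeff]
      refine Finset.sum_eq_zero fun p _ => ?_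
      split_ifs with h1
      · rw [show h p = 0 from htop p.2 (by omega) p.1]
        simp
      · rfl
    · apply le_natDegree_of_ne_zero
      rw [hc1]
      exact hne0
  have hk0K := k0.2
  have hmain := hw P (by omega) (by omega) (by
    intro u hu
    rw [hdeg, hc1]
    obtain ⟨g', hg'⟩ : ∃ g' : Fin r → ℤ, g' = fun i => g i * u := ⟨_, rfl⟩
    have h1 := hx g' (by
      intro hc'
      apply hg0
      funext i
      have h2 := congrFun hc' i
      rw [hg'] at h2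
      simp only [Pi.zero_apply, mul_eq_zero] at h2
      rcases h2 with h2 | h2
      · exact h2
      · omega) (L * u) (by
      intro i
      rw [hg']
      simp only
      rw [abs_mul, Nat.abs_cast]
      push_cast
      have h2 : |g i| ≤ L := by rw [hg]; exact (hh _).le
      have h3 : (0 : ℤ) ≤ u := by omega
      exact mul_le_mul_of_nonneg_right h2 h3)
    have h2 : ∑ i, (g' i : ℝ) * x i = (∑ i, (g i : ℝ) * x i) * u := by
      rw [hg', Finset.sum_mul]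
      refine Finset.sum_congr rfl fun i _ => ?_
      push_cast
      ring
    rw [h2] at h1
    push_cast at h1
    exact h1)
  refine le_trans (le_of_eq ?_) hmain
  congr 1
  refine Finset.sum_congr rfl fun b _ => ?_
  congr 1
  rw [hP, eval_finset_sum]
  refine Finset.sum_congr rfl fun p _ => ?_
  rw [eval_monomial]
  ring

end Run7.h683.AB
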