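import Pool.Agent.Run7.h683.AB.M1

/-!
# Random bases: the main theorem
-/

set_option autoImplicit false

namespace Run7.h683.AB

open Finset Polynomial Filter
open Pool.Agent.Y957.VK

/-- the numerical estimate at the end of the proof -/
theorem final_bound (t : ℝ) (r K q a B : ℕ) (δ : ℝ) (hδ1 : δ ≤ 1 / 100) (ht : 1 ≤ t)
    (hB : (B : ℝ) = Real.exp t) (ha : (a : ℝ) ≤ Real.exp (t ^ (3 / 5 : ℝ) / 4))
    (ha2 : Real.exp (t ^ (3 / 5 : ℝ) / 4) ≤ 2 * a) (hq : 1 ≤ q) (hKt : (K : ℝ) ≤ t ^ δ)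
    (hqt : (q : ℝ) ≤ Real.exp (t ^ δ))
    (c1 : (16 * r : ℝ) * t ^ (1 / 50 : ℝ) ≤ t ^ (3 / 5 : ℝ))
    (c2 : 16 * t ^ (1 / 2 : ℝ) ≤ t ^ (3 / 5 : ℝ)) (c3 : 64 ≤ t ^ (3 / 5 : ℝ))
    (c4 : (8 * r : ℝ) * t ^ (61 / 100 : ℝ) ≤ t ^ (4 / 5 : ℝ))
    (c5 : 8 * t ^ (3 / 5 : ℝ) ≤ t ^ (4 / 5 : ℝ))
    (c6 : 8 * t ^ (3 / 5 : ℝ) ≤ t ^ (1 : ℝ)) :
    (q : ℝ) ^ (r * K) * ((r * K : ℕ) * (2 / (a : ℝ)) +
      Real.exp (-(t ^ (4 / 5 : ℝ))) * ((a : ℝ) ^ 4) ^ (r * K) + 1 / (a : ℝ) ^ 2 + 2 * a / B) ≤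
      Real.exp (-(t ^ (1 / 2 : ℝ))) := by
  rw [Real.rpow_one] at c6
  have ht0 : 0 < t := by linarith
  have hq0 : (1 : ℝ) ≤ q := by exact_mod_cast hq
  obtain ⟨y, hy⟩ : ∃ y, y = t ^ (3 / 5 : ℝ) := ⟨_, rfl⟩
  obtain ⟨s, hs⟩ : ∃ s, s = (r : ℝ) * t ^ (1 / 50 : ℝ) := ⟨_, rfl⟩
  obtain ⟨v, hv⟩ : ∃ v, v = t ^ (1 / 2 : ℝ) := ⟨_, rfl⟩
  obtain ⟨u, hu⟩ : ∃ u, u = t ^ (4 / 5 : ℝ) := ⟨_, rfl⟩
  obtain ⟨m, hm⟩ : ∃ m, m = (r : ℝ) * t ^ (61 / 100 : ℝ) := ⟨_, rfl⟩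
  have hδK : (K : ℝ) ≤ t ^ (1 / 100 : ℝ) :=
    hKt.trans (Real.rpow_le_rpow_of_exponent_le ht hδ1)
  have hδq : (q : ℝ) ≤ Real.exp (t ^ (1 / 100 : ℝ)) :=
    hqt.trans (Real.exp_le_exp.2 (Real.rpow_le_rpow_of_exponent_le ht hδ1))
  have hr0 : (0 : ℝ) ≤ r := Nat.cast_nonneg r
  have hD : ((r * K : ℕ) : ℝ) ≤ r * t ^ (1 / 100 : ℝ) := by
    push_cast
    exact mul_le_mul_of_nonneg_left hδK hr0
  have hDs : ((r * K : ℕ) : ℝ) ≤ s := by
    refine hD.trans ?_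
    rw [hs]
    exact mul_le_mul_of_nonneg_left (Real.rpow_le_rpow_of_exponent_le ht (by norm_num)) hr0
  have hDexp : ((r * K : ℕ) : ℝ) ≤ Real.exp s := by
    have := Real.add_one_le_exp s
    linarith
  have hqD : (q : ℝ) ^ (r * K) ≤ Real.exp s := by
    have h1 : (q : ℝ) ^ (r * K) = Real.exp (((r * K : ℕ) : ℝ) * Real.log q) := by
      rw [mul_comm, ← Real.log_pow, Real.exp_log (by positivity)]
    rw [h1]
    apply Real.exp_le_exp.2
    have h2 : Real.log q ≤ t ^ (1 / 100 : ℝ) := by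
      rw [Real.log_le_iff_le_exp (by linarith)]
      exact hδq
    have h3 : 0 ≤ Real.log q := Real.log_nonneg hq0
    calc ((r * K : ℕ) : ℝ) * Real.log q ≤ (r * t ^ (1 / 100 : ℝ)) * t ^ (1 / 100 : ℝ) := by
          gcongr
      _ = r * (t ^ (1 / 100 : ℝ) * t ^ (1 / 100 : ℝ)) := by ring
      _ = r * t ^ (1 / 50 : ℝ) := by
          rw [← Real.rpow_add ht0]
          norm_num
      _ = s := hs.symm
  rw [← hy] at ha ha2 c1 c2 c3 c5 c6
  rw [← hv] at c2 ⊢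
  rw [← hu] at c4 c5 ⊢
  have c1' : 16 * s ≤ y := by rw [hs]; linarith
  have c4' : 8 * m ≤ u := by rw [hm]; linarith
  have ha0 : (0 : ℝ) < a := by
    have := Real.exp_pos (y / 4)
    linarith
  have hs0 : 0 ≤ s := by rw [hs]; positivity
  have hm0 : 0 ≤ m := by rw [hm]; positivity
  have hv0 : 0 ≤ v := by rw [hv]; positivity
  have h16 : (16 : ℝ) ≤ Real.exp 3 := by
    have h1 : (2.7 : ℝ) < Real.exp 1 := by
      have := Real.exp_one_gt_d9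
      linarith
    have h2 : Real.exp 3 = Real.exp 1 ^ 3 := by
      rw [← Real.exp_nat_mul]
      norm_num
    rw [h2]
    calc (16 : ℝ) ≤ 2.7 ^ 3 := by norm_num
      _ ≤ Real.exp 1 ^ 3 := by gcongr
  have hinv : 1 / (a : ℝ) ≤ 2 * Real.exp (-(y / 4)) := by
    rw [Real.exp_neg, div_le_iff₀ ha0]
    have := Real.exp_pos (y / 4)
    rw [mul_assoc, mul_comm ((Real.exp (y / 4))⁻¹), ← mul_assoc, ← div_eq_mul_inv,
      le_div_iff₀ this]
    linarith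
  have hfour : ∀ z : ℝ, z + 3 ≤ -v → 16 * Real.exp z ≤ Real.exp (-v) := by
    intro z hz
    calc 16 * Real.exp z ≤ Real.exp 3 * Real.exp z := by gcongr
      _ = Real.exp (z + 3) := by rw [← Real.exp_add]; ring_nf
      _ ≤ Real.exp (-v) := Real.exp_le_exp.2 hz
  have T1 : (q : ℝ) ^ (r * K) * ((r * K : ℕ) * (2 / (a : ℝ))) ≤ 4 * Real.exp (2 * s - y / 4) := by
    calc (q : ℝ) ^ (r * K) * ((r * K : ℕ) * (2 / (a : ℝ))) =
        (q : ℝ) ^ (r * K) * ((r * K : ℕ) * (2 * (1 / (a : ℝ)))) := by ring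
      _ ≤ Real.exp s * (Real.exp s * (2 * (2 * Real.exp (-(y / 4))))) := by gcongr
      _ = 4 * (Real.exp s * Real.exp s * Real.exp (-(y / 4))) := by ring
      _ = 4 * Real.exp (2 * s - y / 4) := by
          rw [← Real.exp_add, ← Real.exp_add]
          ring_nf
  have T2 : (q : ℝ) ^ (r * K) * (Real.exp (-u) * ((a : ℝ) ^ 4) ^ (r * K)) ≤
      Real.exp (s + m - u) := by
    have h1 : ((a : ℝ) ^ 4) ^ (r * K) ≤ Real.exp m := by
      have h2 : (a : ℝ) ^ 4 ≤ Real.exp y := by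
        calc (a : ℝ) ^ 4 ≤ Real.exp (y / 4) ^ 4 := by gcongr
          _ = Real.exp y := by
            rw [← Real.exp_nat_mul]
            congr 1
            push_cast
            ring
      calc ((a : ℝ) ^ 4) ^ (r * K) ≤ Real.exp y ^ (r * K) := by gcongr
        _ = Real.exp (((r * K : ℕ) : ℝ) * y) := by rw [← Real.exp_nat_mul]
        _ ≤ Real.exp m := by
            apply Real.exp_le_exp.2
            calc ((r * K : ℕ) : ℝ) * y ≤ (r * t ^ (1 / 100 : ℝ)) * t ^ (3 / 5 : ℝ) := by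
                  rw [hy]
                  gcongr
              _ = r * (t ^ (1 / 100 : ℝ) * t ^ (3 / 5 : ℝ)) := by ring
              _ = r * t ^ (61 / 100 : ℝ) := by
                  rw [← Real.rpow_add ht0]
                  norm_num
              _ = m := hm.symm
    calc (q : ℝ) ^ (r * K) * (Real.exp (-u) * ((a : ℝ) ^ 4) ^ (r * K)) ≤
        Real.exp s * (Real.exp (-u) * Real.exp m) := by gcongr
      _ = Real.exp (s + m - u) := by
          rw [← Real.exp_add, ← Real.exp_add]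
          ring_nf
  have T3 : (q : ℝ) ^ (r * K) * (1 / (a : ℝ) ^ 2) ≤ 4 * Real.exp (s - y / 2) := by
    have h1 : 1 / (a : ℝ) ^ 2 ≤ (2 * Real.exp (-(y / 4))) ^ 2 := by
      rw [← one_div_pow]
      gcongr
    calc (q : ℝ) ^ (r * K) * (1 / (a : ℝ) ^ 2) ≤ Real.exp s * (2 * Real.exp (-(y / 4))) ^ 2 := by
          gcongr
      _ = 4 * (Real.exp s * (Real.exp (-(y / 4)) * Real.exp (-(y / 4)))) := by ring
      _ = 4 * Real.exp (s - y / 2) := by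
          rw [← Real.exp_add, ← Real.exp_add]
          ring_nf
  have T4 : (q : ℝ) ^ (r * K) * (2 * a / B) ≤ 2 * Real.exp (s + y / 4 - t) := by
    calc (q : ℝ) ^ (r * K) * (2 * a / B) ≤ Real.exp s * (2 * Real.exp (y / 4) / B) := by gcongr
      _ = 2 * (Real.exp s * (Real.exp (y / 4) * Real.exp (-t))) := by
          rw [hB, Real.exp_neg]
          ring
      _ = 2 * Real.exp (s + y / 4 - t) := by
          rw [← Real.exp_add, ← Real.exp_add]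
          ring_nf
  have U1 := hfour (2 * s - y / 4) (by linarith)
  have U2 := hfour (s + m - u) (by linarith)
  have U3 := hfour (s - y / 2) (by linarith)
  have U4 := hfour (s + y / 4 - t) (by linarith)
  have P1 := Real.exp_pos (2 * s - y / 4)
  have P2 := Real.exp_pos (s + m - u)
  have P3 := Real.exp_pos (s - y / 2)
  have P4 := Real.exp_pos (s + y / 4 - t)
  rw [mul_add, mul_add, mul_add]
  linarith

/-- the main theorem -/
theorem main : ∃ δ : ℝ, 0 < δ ∧ ∀ (r : ℕ) (x : Fin r → ℝ), Meas x → ∀ᶠ B : ℕ in atTop,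
    ∀ K q : ℕ, 1 ≤ q → (K : ℝ) ≤ Real.log B ^ δ → (q : ℝ) ≤ Real.exp (Real.log B ^ δ) →
    ∀ A : Finset (Fin r × Fin K → Fin q),
    |(((Finset.Ioc 0 B).filter fun b => ∃ w ∈ A, ∀ p : Fin r × Fin K,
        q * digit b (x p.1) ((p.2 : ℕ) + 2) / b = w p).card : ℝ) / B -
      A.card / (q : ℝ) ^ (r * K)| ≤ Real.exp (-(Real.log B ^ (1 / 2 : ℝ))) := by
  obtain ⟨δ, hδ0, hδ1, hweyl⟩ := weyl_asym
  refine ⟨δ, hδ0, ?_⟩
  rintro r x ⟨κ, c, hc, hx⟩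
  have hlog : Tendsto (fun N : ℕ => Real.log (N : ℝ)) atTop atTop :=
    Real.tendsto_log_atTop.comp tendsto_natCast_atTop_atTop
  have ev : ∀ᶠ t : ℝ in atTop, 1 ≤ t ∧ (16 * r : ℝ) * t ^ (1 / 50 : ℝ) ≤ t ^ (3 / 5 : ℝ) ∧
      16 * t ^ (1 / 2 : ℝ) ≤ t ^ (3 / 5 : ℝ) ∧ 64 ≤ t ^ (3 / 5 : ℝ) ∧
      (8 * r : ℝ) * t ^ (61 / 100 : ℝ) ≤ t ^ (4 / 5 : ℝ) ∧
      8 * t ^ (3 / 5 : ℝ) ≤ t ^ (4 / 5 : ℝ) ∧ 8 * t ^ (3 / 5 : ℝ) ≤ t ^ (1 : ℝ) ∧
      16 * t ^ (1 / 100 : ℝ) ≤ t ^ (3 / 5 : ℝ) := by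
    filter_upwards [eventually_ge_atTop 1, ev_lt (a := 1 / 50) (b := 3 / 5) (by norm_num) (16 * r),
      ev_lt (a := 1 / 2) (b := 3 / 5) (by norm_num) 16, ev_const (b := 3 / 5) (by norm_num) 64,
      ev_lt (a := 61 / 100) (b := 4 / 5) (by norm_num) (8 * r),
      ev_lt (a := 3 / 5) (b := 4 / 5) (by norm_num) 8,
      ev_lt (a := 3 / 5) (b := 1) (by norm_num) 8,
      ev_lt (a := 1 / 100) (b := 3 / 5) (by norm_num) 16] with t h1 h2 h3 h4 h5 h6 h7 h8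
    exact ⟨h1, h2, h3, h4, h5, h6, h7, h8⟩
  filter_upwards [hlog.eventually ev, hweyl κ c hc, eventually_ge_atTop 1] with B hev hwB hB1
  obtain ⟨ht1, c1, c2, c3, c4, c5, c6, c7⟩ := hev
  intro K q hq hK hqt A
  obtain ⟨t, ht⟩ : ∃ t, t = Real.log B := ⟨_, rfl⟩
  rw [← ht] at ht1 c1 c2 c3 c4 c5 c6 c7 hwB hK hqt ⊢
  have hB0 : (0 : ℝ) < B := by exact_mod_cast hB1
  have hBt : (B : ℝ) = Real.exp t := by rw [ht, Real.exp_log hB0]
  have hq0 : (1 : ℝ) ≤ q := by exact_mod_cast hq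
  obtain ⟨a, ha⟩ : ∃ a : ℕ, a = ⌊Real.exp (t ^ (3 / 5 : ℝ) / 4)⌋₊ := ⟨_, rfl⟩
  have he1 := Real.add_one_le_exp (t ^ (3 / 5 : ℝ) / 4)
  have haL : (a : ℝ) ≤ Real.exp (t ^ (3 / 5 : ℝ) / 4) := by
    rw [ha]
    exact Nat.floor_le (Real.exp_pos _).le
  have haU : Real.exp (t ^ (3 / 5 : ℝ) / 4) < a + 1 := by
    rw [ha]
    exact Nat.lt_floor_add_one _
  have ha1' : (1 : ℝ) < a := by linarith
  have ha1 : 1 ≤ a := by
    have : 1 < a := by exact_mod_cast ha1'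
    omega
  have ha2 : Real.exp (t ^ (3 / 5 : ℝ) / 4) ≤ 2 * a := by linarith
  have ha0 : (0 : ℝ) < a := by linarith
  have hδt : t ^ δ ≤ t ^ (1 / 100 : ℝ) := Real.rpow_le_rpow_of_exponent_le ht1 hδ1
  have h1t : 1 ≤ t ^ δ := Real.one_le_rpow ht1 hδ0.le
  have hqa : (2 : ℝ) / a ≤ 1 / q := by
    rw [div_le_div_iff₀ ha0 (by linarith)]
    have h4 : 4 * (q : ℝ) ≤ Real.exp (t ^ (3 / 5 : ℝ) / 4) := by
      calc 4 * (q : ℝ) ≤ Real.exp 2 * Real.exp (t ^ (1 / 100 : ℝ)) := by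
            have h5 : (4 : ℝ) ≤ Real.exp 2 := by
              have h6 : (2 : ℝ) ≤ Real.exp 1 := by
                have := Real.add_one_le_exp (1 : ℝ)
                linarith
              have h7 : Real.exp 2 = Real.exp 1 * Real.exp 1 := by
                rw [← Real.exp_add]
                norm_num
              rw [h7]
              nlinarith
            have h6 := hqt.trans (Real.exp_le_exp.2 hδt)
            gcongr
        _ = Real.exp (2 + t ^ (1 / 100 : ℝ)) := by rw [← Real.exp_add]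
        _ ≤ Real.exp (t ^ (3 / 5 : ℝ) / 4) := by
            apply Real.exp_le_exp.2
            linarith
    linarith
  have hcard : Fintype.card (Fin r × Fin K) = r * K := by simp
  have hev2 := event_count (ι := Fin r × Fin K) a q B ha1 hq
    (fun b p => x p.1 * (b : ℝ) ^ ((p.2 : ℕ) + 1))
    (fun b p => q * digit b (x p.1) ((p.2 : ℕ) + 2) / b)
    (fun b hb p => coarse_lt q b _ _ hq hb)
    (fun b hb p w _ h1 h2 => coarse_eq q b w (x p.1) ((p.2 : ℕ) + 1) hq (by omega) h1 h2)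
    (Real.exp (-(t ^ (4 / 5 : ℝ)))) (Real.exp_pos _).le
    (fun h h0 hh => hsum x κ c hc hx B (a ^ 4) K _ (Nat.one_le_pow _ _ ha1) (by
      intro P hP1 hP2 hP3
      refine hwB (K + 2) ((a ^ 4 : ℕ) : ℝ) P (by omega) ?_ ?_ ?_ hP1 hP2 hP3
      · push_cast
        linarith
      · exact_mod_cast Nat.one_le_pow _ _ ha1
      · push_cast
        calc (a : ℝ) ^ 4 ≤ Real.exp (t ^ (3 / 5 : ℝ) / 4) ^ 4 := by gcongr
          _ = Real.exp (t ^ (3 / 5 : ℝ)) := by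
            rw [← Real.exp_nat_mul]
            congr 1
            push_cast
            ring) h h0 hh) hqa A
    ((r * K : ℕ) * (2 / (a : ℝ)) + Real.exp (-(t ^ (4 / 5 : ℝ))) * ((a : ℝ) ^ 4) ^ (r * K) +
      1 / (a : ℝ) ^ 2 + 2 * a / B) (by
        rw [hcard]
        apply le_of_eq
        field_simp) (by positivity)
  rw [hcard] at hev2
  have hfb := final_bound t r K q a B δ hδ1 ht1 hBt haL ha2 hq hK hqt c1 c2 c3 c4 c5 c6
  have hres := hev2.trans (mul_le_mul_of_nonneg_left hfb hB0.le)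
  have heq : ∀ X Y : ℝ, X / B - Y = (X - B * Y) / B := by
    intro X Y
    field_simp
  rw [heq, abs_div, abs_of_pos hB0, div_le_iff₀ hB0, mul_comm _ (B : ℝ)]
  exact hres

end Run7.h683.AB
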