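import Mathlib

/-!
# Random bases: heights of polynomial families
-/

set_option autoImplicit false

namespace Run7.h683.AB

open Polynomial

/-- the values of a polynomial with coefficients in `ℤ[X]` at integer points -/
theorem mv_bound {σ : Type} (F : MvPolynomial σ ℤ[X]) : ∃ D E n : ℕ, ∀ (h : σ → ℤ) (H : ℕ),
    1 ≤ H → (∀ i, |h i| ≤ H) →
    (MvPolynomial.eval (fun i => Polynomial.C (h i)) F).natDegree ≤ D ∧
    ∀ j, |(MvPolynomial.eval (fun i => Polynomial.C (h i)) F).coeff j| ≤ (E : ℤ) * (H : ℤ) ^ n := by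
  induction F using MvPolynomial.induction_on with
  | C a =>
    refine ⟨a.natDegree, ∑ j ∈ Finset.range (a.natDegree + 1), (a.coeff j).natAbs, 0,
      fun h H hH hh => ?_⟩
    rw [MvPolynomial.eval_C]
    refine ⟨le_rfl, fun j => ?_⟩
    rw [pow_zero, mul_one]
    by_cases hj : j ≤ a.natDegree
    · have h1 := Finset.single_le_sum (f := fun j => (a.coeff j).natAbs)
        (fun _ _ => Nat.zero_le _) (Finset.mem_range.2 (by omega : j < a.natDegree + 1))
      rw [Int.abs_eq_natAbs]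
      exact_mod_cast h1
    · rw [Polynomial.coeff_eq_zero_of_natDegree_lt (by omega), abs_zero]
      positivity
  | add p q hp hq =>
    obtain ⟨D1, E1, n1, h1⟩ := hp
    obtain ⟨D2, E2, n2, h2⟩ := hq
    refine ⟨max D1 D2, E1 + E2, n1 + n2, fun h H hH hh => ?_⟩
    obtain ⟨a1, b1⟩ := h1 h H hH hh
    obtain ⟨a2, b2⟩ := h2 h H hH hh
    rw [map_add]
    refine ⟨(natDegree_add_le _ _).trans (max_le_max a1 a2), fun j => ?_⟩
    rw [coeff_add]
    have hH1 : (1 : ℤ) ≤ H := by exact_mod_cast hH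
    have k1 : (H : ℤ) ^ n1 ≤ (H : ℤ) ^ (n1 + n2) := pow_le_pow_right₀ hH1 (by omega)
    have k2 : (H : ℤ) ^ n2 ≤ (H : ℤ) ^ (n1 + n2) := pow_le_pow_right₀ hH1 (by omega)
    have k3 : (E1 : ℤ) * (H : ℤ) ^ n1 ≤ E1 * (H : ℤ) ^ (n1 + n2) :=
      mul_le_mul_of_nonneg_left k1 (by positivity)
    have k4 : (E2 : ℤ) * (H : ℤ) ^ n2 ≤ E2 * (H : ℤ) ^ (n1 + n2) :=
      mul_le_mul_of_nonneg_left k2 (by positivity)
    refine (abs_add_le _ _).trans ?_
    push_cast
    have := b1 j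
    have := b2 j
    linarith
  | mul_X p i hp =>
    obtain ⟨D, E, n, h1⟩ := hp
    refine ⟨D, E, n + 1, fun h H hH hh => ?_⟩
    obtain ⟨a1, b1⟩ := h1 h H hH hh
    rw [map_mul, MvPolynomial.eval_X]
    refine ⟨(natDegree_mul_C_le _ _).trans a1, fun j => ?_⟩
    rw [coeff_mul_C, abs_mul, pow_succ, ← mul_assoc]
    have := b1 j
    exact mul_le_mul this (hh i) (abs_nonneg _) (by positivity)

/-- uniform version for finitely many polynomials -/
theorem mv_bound_fin {σ : Type} (m : ℕ) (F : ℕ → MvPolynomial σ ℤ[X]) : ∃ D E n : ℕ,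
    ∀ k ≤ m, ∀ (h : σ → ℤ) (H : ℕ), 1 ≤ H → (∀ i, |h i| ≤ H) →
    (MvPolynomial.eval (fun i => Polynomial.C (h i)) (F k)).natDegree ≤ D ∧
    ∀ j, |(MvPolynomial.eval (fun i => Polynomial.C (h i)) (F k)).coeff j| ≤
      (E : ℤ) * (H : ℤ) ^ n := by
  choose D E n hF using fun k => mv_bound (F k)
  refine ⟨∑ k ∈ Finset.range (m + 1), D k, ∑ k ∈ Finset.range (m + 1), E k,
    ∑ k ∈ Finset.range (m + 1), n k, fun k hk h H hH hh => ?_⟩
  obtain ⟨h1, h2⟩ := hF k h H hH hh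
  have hm := Finset.mem_range.2 (Nat.lt_succ_of_le hk)
  have a1 := Finset.single_le_sum (f := D) (fun _ _ => Nat.zero_le _) hm
  have a2 := Finset.single_le_sum (f := E) (fun _ _ => Nat.zero_le _) hm
  have a3 := Finset.single_le_sum (f := n) (fun _ _ => Nat.zero_le _) hm
  refine ⟨h1.trans a1, fun j => (h2 j).trans ?_⟩
  have hH1 : (1 : ℤ) ≤ H := by exact_mod_cast hH
  have k1 : (H : ℤ) ^ (n k) ≤ (H : ℤ) ^ (∑ k ∈ Finset.range (m + 1), n k) :=
    pow_le_pow_right₀ hH1 a3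
  have k2 : ((E k : ℕ) : ℤ) ≤ ((∑ k ∈ Finset.range (m + 1), E k : ℕ) : ℤ) := by exact_mod_cast a2
  exact mul_le_mul k2 k1 (by positivity) (by positivity)

/-- the basic inequality: a root of a polynomial relation whose lowest nonzero coefficient is not
small is not small -/
theorem root_bound (m : ℕ) (c : ℕ → ℝ) (L e T : ℝ) (hL : L ≠ 0) (hm : c m = 1)
    (hsmall : ∀ j ≤ m, c j = 0 ∨ e ≤ |c j|) (hT : 1 ≤ T) (hc : ∀ j ≤ m, |c j| ≤ T) (hLT : |L| ≤ T)
    (h : ∑ j ∈ Finset.range (m + 1), c j * L ^ j = 0) :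
    e ≤ |L| * ((m + 1) * T ^ (m + 1)) := by
  classical
  have hex : ∃ j, j ≤ m ∧ c j ≠ 0 := ⟨m, le_rfl, by rw [hm]; exact one_ne_zero⟩
  obtain ⟨j0, hj0⟩ : ∃ j0, j0 = Nat.find hex := ⟨_, rfl⟩
  have hs : j0 ≤ m ∧ c j0 ≠ 0 := by rw [hj0]; exact Nat.find_spec hex
  have hlt : ∀ j < j0, c j = 0 := by
    intro j hj
    by_contra hcj
    rw [hj0] at hj
    exact Nat.find_min hex hj ⟨by have := hs.1; omega, hcj⟩
  have h1 : ∑ j ∈ Finset.range (m + 1 - j0), c (j0 + j) * L ^ (j0 + j) = 0 := by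
    have h2 : m + 1 = j0 + (m + 1 - j0) := by omega
    rw [h2, Finset.sum_range_add] at h
    rw [Finset.sum_eq_zero (fun j hj => by
      rw [hlt j (Finset.mem_range.1 hj), zero_mul]), zero_add] at h
    exact h
  have h2 : ∑ j ∈ Finset.range (m + 1 - j0), c (j0 + j) * L ^ j = 0 := by
    have h3 : ∑ j ∈ Finset.range (m + 1 - j0), c (j0 + j) * L ^ (j0 + j) =
        L ^ j0 * ∑ j ∈ Finset.range (m + 1 - j0), c (j0 + j) * L ^ j := by
      rw [Finset.mul_sum]
      refine Finset.sum_congr rfl fun j _ => ?_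
      rw [pow_add]
      ring
    rw [h3] at h1
    exact (mul_eq_zero.1 h1).resolve_left (pow_ne_zero _ hL)
  have h3 : m + 1 - j0 = (m - j0) + 1 := by omega
  rw [h3, Finset.sum_range_succ', pow_zero, mul_one, add_zero] at h2
  have h4 : c j0 = -∑ j ∈ Finset.range (m - j0), c (j0 + (j + 1)) * L ^ (j + 1) := by linarith
  have he' := (hsmall j0 hs.1).resolve_left hs.2
  refine he'.trans ?_
  rw [h4, abs_neg]
  refine (Finset.abs_sum_le_sum_abs _ _).trans ?_
  have h5 : ∀ j ∈ Finset.range (m - j0), |c (j0 + (j + 1)) * L ^ (j + 1)| ≤ |L| * T ^ (m + 1) := by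
    intro j hj
    rw [Finset.mem_range] at hj
    rw [abs_mul, pow_succ, abs_mul, abs_pow]
    calc |c (j0 + (j + 1))| * (|L| ^ j * |L|) ≤ T * (T ^ j * |L|) := by
          have := hc (j0 + (j + 1)) (by omega)
          gcongr
      _ = |L| * T ^ (j + 1) := by ring
      _ ≤ |L| * T ^ (m + 1) := by
          gcongr
          omega
  refine (Finset.sum_le_sum h5).trans ?_
  rw [Finset.sum_const, Finset.card_range, nsmul_eq_mul]
  have h6 : ((m - j0 : ℕ) : ℝ) ≤ m + 1 := by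
    have : m - j0 ≤ m + 1 := by omega
    exact_mod_cast this
  calc ((m - j0 : ℕ) : ℝ) * (|L| * T ^ (m + 1)) ≤ (m + 1) * (|L| * T ^ (m + 1)) := by gcongr
    _ = |L| * ((m + 1) * T ^ (m + 1)) := by ring

end Run7.h683.AB
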