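import Pool.Agent.Run7.h683.AB.M3
import Pool.Agent.TH456.TM.E

/-!
# Random bases: linear forms in numbers algebraic over a field with a transcendence measure
-/

set_option autoImplicit false

namespace Run7.h683.AB

open Polynomial Matrix

/-- numbers algebraic over `ℤ[z]` lie in a finite module: multiplication matrices -/
theorem exists_matrices_aux {z : ℝ} (A : Subalgebra ℤ ℝ) (hlift : ∀ a : A, ∃ Q : ℤ[X], aeval z Q = (a : ℝ))
    {r : ℕ} (x : Fin r → ℝ) (hx : ∀ i, IsAlgebraic A (x i)) :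
    ∃ (P : ℤ[X]) (m : ℕ) (ω : Fin m → ℝ) (N : Fin r → Matrix (Fin m) (Fin m) ℤ[X]),
      aeval z P ≠ 0 ∧ ω ≠ 0 ∧
      ∀ i j, (aeval z P * x i) * ω j = ∑ k, aeval z (N i j k) * ω k := by
  classical
  choose a ha0 haint using fun i => (hx i).exists_integral_multiple
  obtain ⟨d, hd⟩ : ∃ d : A, d = ∏ i, a i := ⟨_, rfl⟩
  have hd0 : d ≠ 0 := by
    rw [hd]
    exact Finset.prod_ne_zero_iff.2 fun i _ => ha0 i
  have hint : ∀ i, IsIntegral A ((d : ℝ) * x i) := by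
    intro i
    have h1 : (d : ℝ) * x i = (∏ j ∈ Finset.univ.erase i, a j : A) • (a i • x i) := by
      rw [hd, ← Finset.mul_prod_erase _ _ (Finset.mem_univ i)]
      simp only [Subalgebra.smul_def, smul_eq_mul]
      push_cast
      ring
    rw [h1]
    exact (haint i).smul _
  obtain ⟨B, hB⟩ : ∃ B : Subalgebra A ℝ,
      B = Algebra.adjoin A (Set.range fun i => (d : ℝ) * x i) := ⟨_, rfl⟩
  have hfg : (Subalgebra.toSubmodule B).FG := by
    rw [hB]
    refine fg_adjoin_of_finite (Set.finite_range _) ?_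
    rintro _ ⟨i, rfl⟩
    exact hint i
  obtain ⟨s, hs⟩ := hfg
  obtain ⟨m, hm⟩ : ∃ m, m = s.card := ⟨_, rfl⟩
  obtain ⟨f⟩ : Nonempty (Fin m ≃ s) := ⟨(Finset.equivFinOfCardEq hm.symm).symm⟩
  obtain ⟨ω, hω⟩ : ∃ ω : Fin m → ℝ, ω = fun j => (f j : ℝ) := ⟨_, rfl⟩
  have hrange : Set.range ω = (s : Set ℝ) := by
    rw [hω]
    ext y
    constructor
    · rintro ⟨j, rfl⟩
      exact (f j).2
    · intro hy
      refine ⟨f.symm ⟨y, hy⟩, ?_⟩
      simp
  have hspan : Submodule.span A (Set.range ω) = Subalgebra.toSubmodule B := by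
    rw [hrange]
    exact hs
  have hmem : ∀ j, ω j ∈ B := by
    intro j
    have h1 : ω j ∈ Submodule.span A (Set.range ω) := Submodule.subset_span ⟨j, rfl⟩
    rw [hspan] at h1
    exact h1
  have hcomb : ∀ y ∈ B, ∃ c : Fin m → A, ∑ k, (c k : ℝ) * ω k = y := by
    intro y hy
    have h1 : y ∈ Submodule.span A (Set.range ω) := by
      rw [hspan]
      exact hy
    rw [Submodule.mem_span_range_iff_exists_fun] at h1
    obtain ⟨c, hc⟩ := h1
    exact ⟨c, by rw [← hc]; rfl⟩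
  have hex : ∀ i j, ∃ c : Fin m → ℤ[X], ∑ k, aeval z (c k) * ω k = ((d : ℝ) * x i) * ω j := by
    intro i j
    have h1 : ((d : ℝ) * x i) * ω j ∈ B := by
      refine B.mul_mem ?_ (hmem j)
      rw [hB]
      exact Algebra.subset_adjoin ⟨i, rfl⟩
    obtain ⟨c, hc⟩ := hcomb _ h1
    choose c' hc' using fun k => hlift (c k)
    exact ⟨c', by rw [← hc]; exact Finset.sum_congr rfl fun k _ => by rw [hc']⟩
  choose N hN using hex
  obtain ⟨P, hP⟩ := hlift d
  refine ⟨P, m, ω, fun i j k => N i j k, ?_, ?_, ?_⟩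
  · rw [hP]
    intro h0
    exact hd0 (Subtype.ext h0)
  · intro h0
    obtain ⟨c, hc⟩ := hcomb 1 B.one_mem
    rw [h0] at hc
    simp at hc
  · intro i j
    rw [hP, ← hN i j]

theorem exists_matrices {z : ℝ} {r : ℕ} (x : Fin r → ℝ)
    (hx : ∀ i, IsAlgebraic (Algebra.adjoin ℤ ({z} : Set ℝ)) (x i)) :
    ∃ (P : ℤ[X]) (m : ℕ) (ω : Fin m → ℝ) (N : Fin r → Matrix (Fin m) (Fin m) ℤ[X]),
      aeval z P ≠ 0 ∧ ω ≠ 0 ∧
      ∀ i j, (aeval z P * x i) * ω j = ∑ k, aeval z (N i j k) * ω k := by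
  refine exists_matrices_aux (Algebra.adjoin ℤ ({z} : Set ℝ)) ?_ x hx
  rintro ⟨a, ha⟩
  rw [Algebra.adjoin_singleton_eq_range_aeval] at ha
  obtain ⟨f, hf⟩ := ha
  exact ⟨f, hf⟩

end Run7.h683.AB
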