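import Mathlib

/-!
# Random bases: the second moment of word counts for uniformly distributed strings
-/

set_option autoImplicit false

namespace Run7.h683.AB

open Finset

theorem card_constr {ι : Type} [Fintype ι] [DecidableEq ι] (q : ℕ) (T : Finset ι)
    (u : ι → Fin q) :
    (Finset.univ.filter fun w : ι → Fin q => ∀ p ∈ T, w p = u p).card * q ^ T.card =
      q ^ Fintype.card ι := by
  have h1 : (Finset.univ.filter fun w : ι → Fin q => ∀ p ∈ T, w p = u p) =
      Fintype.piFinset (fun p => if p ∈ T then {u p} else Finset.univ) := by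
    ext w
    rw [Finset.mem_filter, Fintype.mem_piFinset]
    constructor
    · rintro ⟨_, h⟩ p
      split_ifs with hp
      · rw [Finset.mem_singleton]
        exact h p hp
      · exact Finset.mem_univ _
    · intro h
      refine ⟨Finset.mem_univ _, fun p hp => ?_⟩
      have := h p
      rw [if_pos hp, Finset.mem_singleton] at this
      exact this
  rw [h1, Fintype.card_piFinset]
  have h2 : ∀ p, (if p ∈ T then ({u p} : Finset (Fin q)) else Finset.univ).card =
      if p ∈ T then 1 else q := by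
    intro p
    split_ifs
    · exact Finset.card_singleton _
    · rw [Finset.card_univ, Fintype.card_fin]
  simp only [h2]
  rw [Finset.prod_ite, Finset.prod_const_one, one_mul, Finset.prod_const, ← pow_add]
  congr 1
  have h3 := Finset.card_filter_add_card_filter_not (s := (Finset.univ : Finset ι)) (fun p => p ∈ T)
  have h4 : Finset.univ.filter (fun p => p ∈ T) = T := by
    ext p
    simp
  rw [h4, Finset.card_univ] at h3
  omega

/-- the window at `s` of the string `w` reads `v` -/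
def EE {r N q : ℕ} (L : ℕ) (v : Fin r → ℕ → ℕ) (s : ℕ) (w : Fin r × Fin N → Fin q) : Prop :=
  ∀ p : Fin r × Fin N, s ≤ (p.2 : ℕ) → (p.2 : ℕ) < s + L → (w p : ℕ) = v p.1 (p.2 - s)

/-- the places of the window -/
def TT (r N L s : ℕ) : Finset (Fin r × Fin N) :=
  Finset.univ.filter fun p => s ≤ (p.2 : ℕ) ∧ (p.2 : ℕ) < s + L

theorem TT_card (r N L s : ℕ) (h : s + L ≤ N) : (TT r N L s).card = r * L := by
  have h1 : TT r N L s = Finset.univ ×ˢ (Finset.univ.filter fun j : Fin N =>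
      s ≤ (j : ℕ) ∧ (j : ℕ) < s + L) := by
    ext p
    unfold TT
    simp
  rw [h1, Finset.card_product, Finset.card_univ, Fintype.card_fin]
  congr 1
  have h2 : (Finset.univ.filter fun j : Fin N => s ≤ (j : ℕ) ∧ (j : ℕ) < s + L).card =
      (Finset.Ico s (s + L)).card := by
    apply Finset.card_bij (fun (j : Fin N) _ => (j : ℕ))
    · intro j hj
      rw [Finset.mem_filter] at hj
      rw [Finset.mem_Ico]
      exact hj.2
    · intro a _ b _ hab
      exact Fin.ext hab
    · intro b hb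
      rw [Finset.mem_Ico] at hb
      exact ⟨⟨b, by omega⟩, by rw [Finset.mem_filter]; exact ⟨Finset.mem_univ _, hb⟩, rfl⟩
  rw [h2, Nat.card_Ico]
  omega

open Classical in
theorem card_E {r N q : ℕ} (L : ℕ) (v : Fin r → ℕ → ℕ) (hq : 1 ≤ q) (hv : ∀ i, ∀ t < L, v i t < q)
    (s : ℕ) (hs : s + L ≤ N) :
    (Finset.univ.filter fun w : Fin r × Fin N → Fin q => EE L v s w).card * q ^ (r * L) =
      q ^ (r * N) := by
  have h1 := card_constr q (TT r N L s) (fun p => ⟨v p.1 (p.2 - s) % q, Nat.mod_lt _ hq⟩)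
  rw [TT_card r N L s hs, Fintype.card_prod, Fintype.card_fin, Fintype.card_fin] at h1
  rw [← h1]
  congr 2
  ext w
  rw [Finset.mem_filter, Finset.mem_filter]
  refine and_congr_right fun _ => ?_
  constructor
  · intro h p hp
    unfold TT at hp
    rw [Finset.mem_filter] at hp
    apply Fin.ext
    simp only
    rw [h p hp.2.1 hp.2.2, Nat.mod_eq_of_lt (hv _ _ (by omega))]
  · intro h p h2 h3
    have h4 := h p (by unfold TT; rw [Finset.mem_filter]; exact ⟨Finset.mem_univ _, h2, h3⟩)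
    have h5 := congrArg Fin.val h4
    simp only at h5
    rw [h5, Nat.mod_eq_of_lt (hv _ _ (by omega))]

open Classical in
theorem card_EE {r N q : ℕ} (L : ℕ) (v : Fin r → ℕ → ℕ) (hq : 1 ≤ q)
    (hv : ∀ i, ∀ t < L, v i t < q) (s s' : ℕ) (hss : s + L ≤ s') (hs : s' + L ≤ N) :
    (Finset.univ.filter fun w : Fin r × Fin N → Fin q => EE L v s w ∧ EE L v s' w).card *
      q ^ (2 * (r * L)) = q ^ (r * N) := by
  have h1 := card_constr q (TT r N L s ∪ TT r N L s')
    (fun p => if (p.2 : ℕ) < s' then ⟨v p.1 (p.2 - s) % q, Nat.mod_lt _ hq⟩ else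
      ⟨v p.1 (p.2 - s') % q, Nat.mod_lt _ hq⟩)
  have hdisj : Disjoint (TT r N L s) (TT r N L s') := by
    rw [Finset.disjoint_left]
    intro p hp hp'
    unfold TT at hp hp'
    rw [Finset.mem_filter] at hp hp'
    omega
  rw [Finset.card_union_of_disjoint hdisj, TT_card r N L s (by omega), TT_card r N L s' hs,
    Fintype.card_prod, Fintype.card_fin, Fintype.card_fin, ← two_mul] at h1
  rw [← h1]
  congr 2
  ext w
  rw [Finset.mem_filter, Finset.mem_filter]
  refine and_congr_right fun _ => ?_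
  constructor
  · rintro ⟨h, h'⟩ p hp
    rw [Finset.mem_union] at hp
    unfold TT at hp
    rw [Finset.mem_filter, Finset.mem_filter] at hp
    apply Fin.ext
    rcases hp with ⟨_, hp1, hp2⟩ | ⟨_, hp1, hp2⟩
    · rw [if_pos (by omega)]
      simp only
      rw [h p hp1 hp2, Nat.mod_eq_of_lt (hv _ _ (by omega))]
    · rw [if_neg (by omega)]
      simp only
      rw [h' p hp1 hp2, Nat.mod_eq_of_lt (hv _ _ (by omega))]
  · intro h
    constructor
    · intro p h2 h3
      have h4 := h p (by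
        rw [Finset.mem_union]
        left
        unfold TT
        rw [Finset.mem_filter]
        exact ⟨Finset.mem_univ _, h2, h3⟩)
      rw [if_pos (by omega)] at h4
      have h5 := congrArg Fin.val h4
      simp only at h5
      rw [h5, Nat.mod_eq_of_lt (hv _ _ (by omega))]
    · intro p h2 h3
      have h4 := h p (by
        rw [Finset.mem_union]
        right
        unfold TT
        rw [Finset.mem_filter]
        exact ⟨Finset.mem_univ _, h2, h3⟩)
      rw [if_neg (by omega)] at h4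
      have h5 := congrArg Fin.val h4
      simp only at h5
      rw [h5, Nat.mod_eq_of_lt (hv _ _ (by omega))]

open Classical in
/-- the number of windows before `k` which read `v` -/
noncomputable def cnt {r N q : ℕ} (L : ℕ) (v : Fin r → ℕ → ℕ) (k : ℕ) (w : Fin r × Fin N → Fin q) :
    ℕ := ((Finset.range k).filter fun s => EE L v s w).card

open Classical in
theorem second_moment {r N q : ℕ} (L : ℕ) (v : Fin r → ℕ → ℕ) (hq : 1 ≤ q)
    (hv : ∀ i, ∀ t < L, v i t < q) (k : ℕ) (hk : k + L ≤ N) :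
    ∑ w : Fin r × Fin N → Fin q, ((cnt L v k w : ℝ) - k * (1 / (q : ℝ) ^ (r * L))) ^ 2 ≤
      2 * L * k * (q : ℝ) ^ (r * N) := by
  obtain ⟨p, hp⟩ : ∃ p : ℝ, p = 1 / (q : ℝ) ^ (r * L) := ⟨_, rfl⟩
  obtain ⟨Q, hQ⟩ : ∃ Q : ℝ, Q = (q : ℝ) ^ (r * N) := ⟨_, rfl⟩
  have hq1 : (1 : ℝ) ≤ q := by exact_mod_cast hq
  have hqL : (1 : ℝ) ≤ (q : ℝ) ^ (r * L) := one_le_pow₀ hq1
  have hp0 : 0 ≤ p := by rw [hp]; positivity
  have hp1 : p ≤ 1 := by
    rw [hp, div_le_one (by positivity)]
    exact hqL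
  have hQ0 : 0 ≤ Q := by rw [hQ]; positivity
  rw [← hp, ← hQ]
  obtain ⟨f, hf⟩ : ∃ f : ℕ → (Fin r × Fin N → Fin q) → ℝ,
      f = fun s w => (if EE L v s w then (1 : ℝ) else 0) - p := ⟨_, rfl⟩
  have hf1 : ∀ s w, |f s w| ≤ 1 := by
    intro s w
    rw [hf]
    simp only
    rw [abs_le]
    split_ifs <;> constructor <;> linarith
  have hcardQ : ((Finset.univ : Finset (Fin r × Fin N → Fin q)).card : ℝ) = Q := by
    rw [Finset.card_univ, Fintype.card_fun, Fintype.card_prod, Fintype.card_fin, Fintype.card_fin,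
      Fintype.card_fin, hQ]
    push_cast
    rfl
  have hS : ∀ w : Fin r × Fin N → Fin q, (cnt L v k w : ℝ) - k * p =
      ∑ s ∈ Finset.range k, f s w := by
    intro w
    rw [hf]
    simp only
    rw [Finset.sum_sub_distrib, Finset.sum_boole, Finset.sum_const, Finset.card_range, nsmul_eq_mul]
    rfl
  -- single windows
  have hone : ∀ s, s + L ≤ N → ∑ w : Fin r × Fin N → Fin q, (if EE L v s w then (1 : ℝ) else 0) =
      Q * p := by
    intro s hs
    rw [Finset.sum_boole]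
    have h1 := card_E (r := r) (N := N) (q := q) L v hq hv s hs
    have h2 : ((Finset.univ.filter fun w : Fin r × Fin N → Fin q => EE L v s w).card : ℝ) *
        (q : ℝ) ^ (r * L) = Q := by
      rw [hQ]
      exact_mod_cast h1
    rw [hp, ← h2]
    field_simp
  have htwo : ∀ s s', s + L ≤ s' → s' + L ≤ N →
      ∑ w : Fin r × Fin N → Fin q, (if EE L v s w ∧ EE L v s' w then (1 : ℝ) else 0) =
      Q * p * p := by
    intro s s' hss hs
    rw [Finset.sum_boole]
    have h1 := card_EE (r := r) (N := N) (q := q) L v hq hv s s' hss hs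
    have h2 : ((Finset.univ.filter fun w : Fin r × Fin N → Fin q =>
        EE L v s w ∧ EE L v s' w).card : ℝ) * (q : ℝ) ^ (2 * (r * L)) = Q := by
      rw [hQ]
      exact_mod_cast h1
    rw [hp, ← h2, two_mul, pow_add]
    field_simp
  have hfar : ∀ s s', s + L ≤ s' → s' + L ≤ N →
      ∑ w : Fin r × Fin N → Fin q, f s w * f s' w = 0 := by
    intro s s' hss hs
    have h1 : ∀ w, f s w * f s' w = (if EE L v s w ∧ EE L v s' w then (1 : ℝ) else 0) -
        p * (if EE L v s w then (1 : ℝ) else 0) - p * (if EE L v s' w then (1 : ℝ) else 0) +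
          p * p := by
      intro w
      rw [hf]
      simp only
      by_cases a : EE L v s w <;> by_cases b : EE L v s' w <;> simp [a, b] <;> ring
    simp only [h1]
    rw [Finset.sum_add_distrib, Finset.sum_sub_distrib, Finset.sum_sub_distrib, ← Finset.mul_sum,
      ← Finset.mul_sum, htwo s s' hss hs, hone s (by omega), hone s' hs, Finset.sum_const,
      nsmul_eq_mul, hcardQ]
    ring
  have hpair : ∀ s s', s < k → s' < k →
      ∑ w : Fin r × Fin N → Fin q, f s w * f s' w ≤ if s' < s + L ∧ s < s' + L then Q else 0 := by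
    intro s s' hs hs'
    split_ifs with h
    · calc ∑ w : Fin r × Fin N → Fin q, f s w * f s' w ≤
          ∑ w : Fin r × Fin N → Fin q, (1 : ℝ) := by
            refine Finset.sum_le_sum fun w _ => ?_
            refine (le_abs_self _).trans ?_
            rw [abs_mul]
            have := hf1 s w
            have := hf1 s' w
            have := abs_nonneg (f s w)
            have := abs_nonneg (f s' w)
            nlinarith
        _ = Q := by rw [Finset.sum_const, nsmul_eq_mul, hcardQ, mul_one]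
    · rw [not_and_or] at h
      rcases h with h | h
      · rw [hfar s s' (by omega) (by omega)]
      · simp only [mul_comm (f s _)]
        rw [hfar s' s (by omega) (by omega)]
  have hclose : ∀ s, ∑ s' ∈ Finset.range k, (if s' < s + L ∧ s < s' + L then Q else 0) ≤
      2 * L * Q := by
    intro s
    rw [← Finset.sum_filter, Finset.sum_const, nsmul_eq_mul]
    have h1 : (Finset.range k).filter (fun s' => s' < s + L ∧ s < s' + L) ⊆
        Finset.Ico (s + 1 - L) (s + L) := by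
      intro s' hs'
      rw [Finset.mem_filter] at hs'
      rw [Finset.mem_Ico]
      omega
    have h2 := Finset.card_le_card h1
    rw [Nat.card_Ico] at h2
    have h3 : ((Finset.range k).filter (fun s' => s' < s + L ∧ s < s' + L)).card ≤ 2 * L := by
      omega
    have h4 : (((Finset.range k).filter (fun s' => s' < s + L ∧ s < s' + L)).card : ℝ) ≤ 2 * L := by
      exact_mod_cast h3
    gcongr
  simp only [hS]
  have h1 : ∑ w : Fin r × Fin N → Fin q, (∑ s ∈ Finset.range k, f s w) ^ 2 =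
      ∑ s ∈ Finset.range k, ∑ s' ∈ Finset.range k,
        ∑ w : Fin r × Fin N → Fin q, f s w * f s' w := by
    simp only [sq, Finset.sum_mul_sum]
    rw [Finset.sum_comm]
    refine Finset.sum_congr rfl fun s _ => ?_
    rw [Finset.sum_comm]
  rw [h1]
  calc ∑ s ∈ Finset.range k, ∑ s' ∈ Finset.range k,
        ∑ w : Fin r × Fin N → Fin q, f s w * f s' w ≤
      ∑ s ∈ Finset.range k, 2 * L * Q := by
        refine Finset.sum_le_sum fun s hs => ?_
        refine le_trans (Finset.sum_le_sum fun s' hs' => ?_) (hclose s)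
        exact hpair s s' (Finset.mem_range.1 hs) (Finset.mem_range.1 hs')
    _ = 2 * L * k * Q := by
        rw [Finset.sum_const, Finset.card_range, nsmul_eq_mul]
        ring

open Classical in
/-- strings with a bad frequency at some square -/
theorem bad_squares {r N q : ℕ} (L : ℕ) (v : Fin r → ℕ → ℕ) (hq : 1 ≤ q)
    (hv : ∀ i, ∀ t < L, v i t < q) (ε : ℝ) (hε : 0 < ε) (l0 : ℕ) (hl0 : 1 ≤ l0) :
    ((Finset.univ.filter fun w : Fin r × Fin N → Fin q => ∃ l, l0 ≤ l ∧ l ^ 2 + L ≤ N ∧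
      ε * (l : ℝ) ^ 2 < |(cnt L v (l ^ 2) w : ℝ) - (l : ℝ) ^ 2 * (1 / (q : ℝ) ^ (r * L))|).card : ℝ)
      ≤ 4 * L / (ε ^ 2 * l0) * (q : ℝ) ^ (r * N) := by
  obtain ⟨Q, hQ⟩ : ∃ Q : ℝ, Q = (q : ℝ) ^ (r * N) := ⟨_, rfl⟩
  have hQ0 : 0 ≤ Q := by rw [hQ]; positivity
  have hone : ∀ l : ℕ, l0 ≤ l → l ^ 2 + L ≤ N →
      ((Finset.univ.filter fun w : Fin r × Fin N → Fin q => 
        ε * (l : ℝ) ^ 2 < |(cnt L v (l ^ 2) w : ℝ) -
          (l : ℝ) ^ 2 * (1 / (q : ℝ) ^ (r * L))|).card : ℝ) ≤ 2 * L / ε ^ 2 * Q * (1 / (l : ℝ) ^ 2) := by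
    intro l hl hlN
    have hl1 : (1 : ℝ) ≤ l := by exact_mod_cast hl0.trans hl
    have h1 := second_moment (r := r) (q := q) L v hq hv (l ^ 2) hlN
    push_cast at h1
    have h2 : ((Finset.univ.filter fun w : Fin r × Fin N → Fin q => 
        ε * (l : ℝ) ^ 2 < |(cnt L v (l ^ 2) w : ℝ) -
          (l : ℝ) ^ 2 * (1 / (q : ℝ) ^ (r * L))|).card : ℝ) * (ε * (l : ℝ) ^ 2) ^ 2 ≤
        ∑ w : Fin r × Fin N → Fin q,
          ((cnt L v (l ^ 2) w : ℝ) - (l : ℝ) ^ 2 * (1 / (q : ℝ) ^ (r * L))) ^ 2 := by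
      rw [← nsmul_eq_mul, ← Finset.sum_const]
      refine le_trans (Finset.sum_le_sum fun w hw => ?_)
        (Finset.sum_le_sum_of_subset_of_nonneg (Finset.filter_subset _ _) fun _ _ _ => sq_nonneg _)
      rw [Finset.mem_filter] at hw
      rw [← sq_abs ((cnt L v (l ^ 2) w : ℝ) - _)]
      exact pow_le_pow_left₀ (by positivity) hw.2.le 2
    have h3 := h2.trans h1
    rw [← hQ] at h3
    rw [← le_div_iff₀ (by positivity)] at h3
    refine h3.trans (le_of_eq ?_)
    field_simp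
  rw [← hQ]
  have hsub : (Finset.univ.filter fun w : Fin r × Fin N → Fin q => ∃ l, l0 ≤ l ∧ l ^ 2 + L ≤ N ∧
      ε * (l : ℝ) ^ 2 < |(cnt L v (l ^ 2) w : ℝ) - (l : ℝ) ^ 2 * (1 / (q : ℝ) ^ (r * L))|) ⊆
      ((Finset.Ico l0 (N + 1)).filter fun l => l ^ 2 + L ≤ N).biUnion fun l =>
        Finset.univ.filter fun w : Fin r × Fin N → Fin q => 
          ε * (l : ℝ) ^ 2 < |(cnt L v (l ^ 2) w : ℝ) -
            (l : ℝ) ^ 2 * (1 / (q : ℝ) ^ (r * L))| := by
    intro w hw
    rw [Finset.mem_filter] at hw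
    obtain ⟨_, l, hl, hlN, h⟩ := hw
    rw [Finset.mem_biUnion]
    refine ⟨l, ?_, by rw [Finset.mem_filter]; exact ⟨Finset.mem_univ _, h⟩⟩
    rw [Finset.mem_filter, Finset.mem_Ico]
    refine ⟨⟨hl, ?_⟩, hlN⟩
    have : l ≤ l ^ 2 := Nat.le_self_pow (by norm_num) l
    omega
  have h1 := (Finset.card_le_card hsub).trans Finset.card_biUnion_le
  have h2 : ((Finset.univ.filter fun w : Fin r × Fin N → Fin q => ∃ l, l0 ≤ l ∧ l ^ 2 + L ≤ N ∧
      ε * (l : ℝ) ^ 2 < |(cnt L v (l ^ 2) w : ℝ) -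
        (l : ℝ) ^ 2 * (1 / (q : ℝ) ^ (r * L))|).card : ℝ) ≤
      ∑ l ∈ (Finset.Ico l0 (N + 1)).filter fun l => l ^ 2 + L ≤ N,
        2 * L / ε ^ 2 * Q * (1 / (l : ℝ) ^ 2) := by
    have h3 : ((Finset.univ.filter fun w : Fin r × Fin N → Fin q => ∃ l, l0 ≤ l ∧ l ^ 2 + L ≤ N ∧
      ε * (l : ℝ) ^ 2 < |(cnt L v (l ^ 2) w : ℝ) -
        (l : ℝ) ^ 2 * (1 / (q : ℝ) ^ (r * L))|).card : ℝ) ≤
        ((∑ l ∈ (Finset.Ico l0 (N + 1)).filter fun l => l ^ 2 + L ≤ N,
          (Finset.univ.filter fun w : Fin r × Fin N → Fin q => 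
          ε * (l : ℝ) ^ 2 < |(cnt L v (l ^ 2) w : ℝ) -
            (l : ℝ) ^ 2 * (1 / (q : ℝ) ^ (r * L))|).card : ℕ) : ℝ) := by
      exact_mod_cast h1
    refine h3.trans ?_
    push_cast
    refine Finset.sum_le_sum fun l hl => ?_
    rw [Finset.mem_filter, Finset.mem_Ico] at hl
    exact hone l hl.1.1 hl.2
  refine h2.trans ?_
  have htel : ∀ n : ℕ, ∑ l ∈ Finset.Ico l0 (l0 + n), 1 / (l : ℝ) ^ 2 ≤
      (2 : ℝ) / l0 - 2 / ((l0 + n : ℕ) : ℝ) := by
    intro n
    induction n with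
    | zero => simp
    | succ n ih =>
      rw [← add_assoc, Finset.sum_Ico_succ_top (by omega)]
      have hn1 : (1 : ℝ) ≤ ((l0 + n : ℕ) : ℝ) := by exact_mod_cast (by omega : 1 ≤ l0 + n)
      have h4 : 1 / ((l0 + n : ℕ) : ℝ) ^ 2 ≤ 2 / ((l0 + n : ℕ) : ℝ) - 2 / ((l0 + n + 1 : ℕ) : ℝ) := by
        rw [Nat.cast_add_one]
        rw [div_sub_div _ _ (by positivity) (by positivity), div_le_div_iff₀ (by positivity)
          (by positivity)]
        nlinarith
      linarith
  have hall : ∑ l ∈ (Finset.Ico l0 (N + 1)).filter (fun l => l ^ 2 + L ≤ N), 1 / (l : ℝ) ^ 2 ≤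
      (2 : ℝ) / l0 := by
    refine (Finset.sum_le_sum_of_subset_of_nonneg (t := Finset.Ico l0 (l0 + (N + 1))) ?_
      (fun _ _ _ => by positivity)).trans ?_
    · intro l hl
      rw [Finset.mem_filter, Finset.mem_Ico] at hl
      rw [Finset.mem_Ico]
      omega
    · have h5 := htel (N + 1)
      have h6 : (0 : ℝ) ≤ 2 / ((l0 + (N + 1) : ℕ) : ℝ) := by positivity
      linarith
  rw [← Finset.mul_sum]
  calc 2 * L / ε ^ 2 * Q *
        ∑ l ∈ (Finset.Ico l0 (N + 1)).filter (fun l => l ^ 2 + L ≤ N), 1 / (l : ℝ) ^ 2 ≤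
      2 * L / ε ^ 2 * Q * (2 / l0) := by
        apply mul_le_mul_of_nonneg_left hall
        positivity
    _ = 4 * L / (ε ^ 2 * l0) * Q := by
        field_simp
        ring

open Classical in
/-- from squares to all lengths -/
theorem interpolate {r N q : ℕ} (L : ℕ) (v : Fin r → ℕ → ℕ) (hq : 1 ≤ q) (ε : ℝ) (hε : 0 < ε)
    (l0 : ℕ) (hl0 : 4 / ε ≤ l0) (hl1 : 1 ≤ l0) (w : Fin r × Fin N → Fin q)
    (h : ∀ l, l0 ≤ l → l ^ 2 + L ≤ N →
      |(cnt L v (l ^ 2) w : ℝ) - (l : ℝ) ^ 2 * (1 / (q : ℝ) ^ (r * L))| ≤ ε * (l : ℝ) ^ 2)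
    (K : ℕ) (hK : l0 ^ 2 ≤ K) (hKN : K + L ≤ N) :
    |(cnt L v K w : ℝ) - K * (1 / (q : ℝ) ^ (r * L))| ≤ 2 * ε * K := by
  obtain ⟨p, hp⟩ : ∃ p : ℝ, p = 1 / (q : ℝ) ^ (r * L) := ⟨_, rfl⟩
  have hq1 : (1 : ℝ) ≤ q := by exact_mod_cast hq
  have hqL : (1 : ℝ) ≤ (q : ℝ) ^ (r * L) := one_le_pow₀ hq1
  have hp0 : 0 ≤ p := by rw [hp]; positivity
  have hp1 : p ≤ 1 := by
    rw [hp, div_le_one (by positivity)]
    exact hqL
  rw [← hp] at h ⊢
  obtain ⟨l, hl⟩ : ∃ l, l = Nat.sqrt K := ⟨_, rfl⟩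
  have h1 : l ^ 2 ≤ K := by rw [hl]; exact Nat.sqrt_le' K
  have h2 : K < (l + 1) ^ 2 := by rw [hl]; exact Nat.lt_succ_sqrt' K
  have hll : l0 ≤ l := by
    rw [hl, Nat.le_sqrt']
    exact hK
  have h3 := h l hll (by omega)
  have hmono : cnt L v (l ^ 2) w ≤ cnt L v K w := by
    unfold cnt
    apply Finset.card_le_card
    apply Finset.filter_subset_filter
    exact Finset.range_mono h1
  have hadd : cnt L v K w ≤ cnt L v (l ^ 2) w + (K - l ^ 2) := by
    unfold cnt
    have h4 : (Finset.range K).filter (fun s => EE L v s w) ⊆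
        (Finset.range (l ^ 2)).filter (fun s => EE L v s w) ∪ Finset.Ico (l ^ 2) K := by
      intro s hs
      rw [Finset.mem_filter, Finset.mem_range] at hs
      rw [Finset.mem_union, Finset.mem_filter, Finset.mem_range, Finset.mem_Ico]
      by_cases h5 : s < l ^ 2
      · left
        exact ⟨h5, hs.2⟩
      · right
        omega
    have h5 := (Finset.card_le_card h4).trans (Finset.card_union_le _ _)
    rw [Nat.card_Ico] at h5
    exact h5
  have h4 : K - l ^ 2 ≤ 2 * l := by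
    have : (l + 1) ^ 2 = l ^ 2 + 2 * l + 1 := by ring
    omega
  have h5 : (K : ℝ) ≤ (l : ℝ) ^ 2 + 2 * l := by
    have : K ≤ l ^ 2 + 2 * l := by omega
    exact_mod_cast this
  have h6 : ((l : ℝ)) ^ 2 ≤ K := by exact_mod_cast h1
  have h7 : (cnt L v (l ^ 2) w : ℝ) ≤ cnt L v K w := by exact_mod_cast hmono
  have h8 : (cnt L v K w : ℝ) ≤ cnt L v (l ^ 2) w + 2 * l := by
    have : cnt L v K w ≤ cnt L v (l ^ 2) w + 2 * l := by omega
    exact_mod_cast this
  have hl0' : (0 : ℝ) < l := by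
    have : 0 < l := by omega
    exact_mod_cast this
  have h9 : 4 * (l : ℝ) ≤ ε * (l : ℝ) ^ 2 := by
    have h10 : (l0 : ℝ) ≤ l := by exact_mod_cast hll
    have h11 : 4 ≤ ε * l := by
      have := hl0.trans h10
      rw [div_le_iff₀ hε] at this
      linarith
    nlinarith
  have h10 : (l : ℝ) ^ 2 * p ≤ K * p := by gcongr
  have h11 : (K : ℝ) * p ≤ (l : ℝ) ^ 2 * p + 2 * l := by
    have : (K : ℝ) * p ≤ ((l : ℝ) ^ 2 + 2 * l) * p := by gcongr
    have h12 : 2 * (l : ℝ) * p ≤ 2 * l := by nlinarith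
    nlinarith
  have h12 : ε * (l : ℝ) ^ 2 ≤ ε * K := by gcongr
  rw [abs_le] at h3 ⊢
  constructor <;> linarith [h3.1, h3.2]

end Run7.h683.AB
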