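import Pool.Agent.Run7.h683.AB.M5
import Pool.Agent.Run7.h683.AB.M6

/-!
# Random bases: frequencies of words, and the numbers algebraic over `ℚ(z)`
-/

set_option autoImplicit false

namespace Run7.h683.AB

open Finset Filter
open Pool.Agent.Y957.VK

/-- numbers algebraic over `ℚ(z)` which are linearly independent together with `1` -/
theorem meas_alg {z : ℝ} (hz : MT z) {r : ℕ} (x : Fin r → ℝ)
    (hx : ∀ i, IsAlgebraic (Algebra.adjoin ℤ ({z} : Set ℝ)) (x i))
    (hli : ∀ (m : ℤ) (g : Fin r → ℤ), (m : ℝ) + ∑ i, (g i : ℝ) * x i = 0 → g = 0) : Meas x := by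
  obtain ⟨κ, c, hc, h⟩ := lin_measure hz x hx (by
    intro g hg h0
    apply hg
    have h1 := hli (g none) (fun i => g (some i)) h0
    have h2 : ∀ i, g (some i) = 0 := fun i => congrFun h1 i
    simp only [h2] at h0
    funext o
    cases o with
    | none =>
      simp only [Int.cast_zero, zero_mul, Finset.sum_const_zero, add_zero] at h0
      exact_mod_cast h0
    | some i => exact h2 i)
  obtain ⟨S, hS⟩ : ∃ S : ℕ, S = ⌈1 + ∑ i, |x i|⌉₊ := ⟨_, rfl⟩
  have hS1 : 1 + ∑ i, |x i| ≤ S := by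
    rw [hS]
    exact Nat.le_ceil _
  have hx0 : 0 ≤ ∑ i, |x i| := Finset.sum_nonneg fun _ _ => abs_nonneg _
  have hS0 : (1 : ℝ) ≤ S := by linarith
  have hS0' : 1 ≤ S := by exact_mod_cast hS0
  refine ⟨κ, c / (S : ℝ) ^ κ, by positivity, fun g hg H hH => ?_⟩
  have hH1 : 1 ≤ H := by
    by_contra hcon
    apply hg
    funext i
    have h1 := hH i
    have h2 : H = 0 := by omega
    rw [h2] at h1
    have h3 := abs_nonneg (g i)
    have h4 : |g i| = 0 := by
      push_cast at h1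
      omega
    exact abs_eq_zero.1 h4
  have hH1' : (1 : ℝ) ≤ H := by exact_mod_cast hH1
  obtain ⟨y, hy⟩ : ∃ y, y = ∑ i, (g i : ℝ) * x i := ⟨_, rfl⟩
  have hyle : |y| ≤ (∑ i, |x i|) * H := by
    rw [hy]
    refine (Finset.abs_sum_le_sum_abs _ _).trans ?_
    rw [Finset.sum_mul]
    refine Finset.sum_le_sum fun i _ => ?_
    rw [abs_mul, mul_comm]
    have h4 : |(g i : ℝ)| ≤ H := by exact_mod_cast hH i
    gcongr
  obtain ⟨g', hg'⟩ : ∃ g' : Option (Fin r) → ℤ, g' = fun o => match o with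
    | none => -round y
    | some i => g i := ⟨_, rfl⟩
  have h1 := h g' (by
    intro h0
    apply hg
    funext i
    have := congrFun h0 (some i)
    rw [hg'] at this
    exact this) (S * H) (Nat.mul_pos hS0' hH1) (by
    intro o
    rw [hg']
    cases o with
    | none =>
      simp only
      rw [abs_neg]
      have h2 : |(round y : ℝ)| ≤ S * H := by
        have h3 := abs_sub_round y
        have h4 : |(round y : ℝ)| ≤ |y| + 1 := by
          have h5 : (round y : ℝ) = y - (y - round y) := by ring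
          rw [h5]
          refine (abs_sub _ _).trans ?_
          linarith
        have h5 : |y| + 1 ≤ (1 + ∑ i, |x i|) * H := by linarith
        have h6 : (1 + ∑ i, |x i|) * (H : ℝ) ≤ S * H := by gcongr
        linarith
      exact_mod_cast h2
    | some i =>
      simp only
      have h2 := hH i
      have h3 : (H : ℤ) ≤ ((S * H : ℕ) : ℤ) := by
        exact_mod_cast Nat.le_mul_of_pos_left H hS0'
      linarith)
  have h2 : ((g' none : ℤ) : ℝ) + ∑ i, ((g' (some i) : ℤ) : ℝ) * x i = y - round y := by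
    rw [hg', hy]
    push_cast
    ring
  rw [h2] at h1
  rw [← hy]
  unfold dz
  refine le_trans (le_of_eq ?_) h1
  push_cast
  rw [mul_pow, div_div]

open Classical in
/-- frequencies of words in a random base -/
theorem freq {δ : ℝ} (hδ : 0 < δ) {r : ℕ} (x : Fin r → ℝ)
    (hmain : ∀ᶠ B : ℕ in atTop,
      ∀ K q : ℕ, 1 ≤ q → (K : ℝ) ≤ Real.log B ^ δ → (q : ℝ) ≤ Real.exp (Real.log B ^ δ) →
      ∀ A : Finset (Fin r × Fin K → Fin q),
      |(((Finset.Ioc 0 B).filter fun b => ∃ w ∈ A, ∀ p : Fin r × Fin K,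
          q * digit b (x p.1) ((p.2 : ℕ) + 2) / b = w p).card : ℝ) / B -
        A.card / (q : ℝ) ^ (r * K)| ≤ Real.exp (-(Real.log B ^ (1 / 2 : ℝ))))
    (q L : ℕ) (hq : 1 ≤ q) (v : Fin r → ℕ → ℕ) (hv : ∀ i, ∀ t < L, v i t < q) (ε : ℝ)
    (hε : 0 < ε) :
    ∃ K0 : ℕ, ∀ᶠ B : ℕ in atTop, (((Finset.Ioc 0 B).filter fun b => ∃ K : ℕ, K0 ≤ K ∧
      (K : ℝ) ≤ Real.log B ^ (δ / 2) ∧ ε * K < |(((Finset.range K).filter fun s => ∀ i, ∀ t < L,
        q * digit b (x i) (s + t + 2) / b = v i t).card : ℝ) - K / (q : ℝ) ^ (r * L)|).card : ℝ) ≤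
      ε * B := by
  obtain ⟨l0, hl0⟩ : ∃ l0 : ℕ, l0 = max 1 (max ⌈4 / (ε / 2)⌉₊ ⌈4 * L / ((ε / 2) ^ 2 * (ε / 2))⌉₊) :=
    ⟨_, rfl⟩
  have hl1 : 1 ≤ l0 := by rw [hl0]; exact le_max_left _ _
  have hl2 : 4 / (ε / 2) ≤ l0 := by
    have h1 : ⌈4 / (ε / 2)⌉₊ ≤ l0 := by
      rw [hl0]
      exact (le_max_left _ _).trans (le_max_right _ _)
    exact (Nat.le_ceil _).trans (by exact_mod_cast h1)
  have hl3 : 4 * L / ((ε / 2) ^ 2 * (ε / 2)) ≤ l0 := by
    have h1 : ⌈4 * L / ((ε / 2) ^ 2 * (ε / 2))⌉₊ ≤ l0 := by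
      rw [hl0]
      exact (le_max_right _ _).trans (le_max_right _ _)
    exact (Nat.le_ceil _).trans (by exact_mod_cast h1)
  have hl0' : (0 : ℝ) < l0 := by exact_mod_cast hl1
  refine ⟨l0 ^ 2, ?_⟩
  have hlog : Tendsto (fun N : ℕ => Real.log (N : ℝ)) atTop atTop :=
    Real.tendsto_log_atTop.comp tendsto_natCast_atTop_atTop
  have ev : ∀ᶠ t : ℝ in atTop, 1 ≤ t ∧ 2 * t ^ (δ / 2) ≤ t ^ δ ∧ (L : ℝ) ≤ t ^ (δ / 2) ∧
      (q : ℝ) ≤ t ^ δ ∧ -Real.log (ε / 2) ≤ t ^ (1 / 2 : ℝ) := by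
    filter_upwards [eventually_ge_atTop 1, ev_lt (a := δ / 2) (b := δ) (by linarith) 2,
      ev_const (b := δ / 2) (by linarith) L, ev_const (b := δ) hδ q,
      ev_const (b := 1 / 2) (by norm_num) (-Real.log (ε / 2))] with t h1 h2 h3 h4 h5
    exact ⟨h1, h2, h3, h4, h5⟩
  filter_upwards [hlog.eventually ev, hmain, eventually_ge_atTop 1] with B hev hm hB1
  obtain ⟨ht1, e1, e2, e3, e4⟩ := hev
  have hB0 : (0 : ℝ) < B := by exact_mod_cast hB1
  obtain ⟨N, hN⟩ : ∃ N : ℕ, N = ⌊Real.log B ^ (δ / 2)⌋₊ + L := ⟨_, rfl⟩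
  have ht0 : (0 : ℝ) ≤ Real.log B ^ (δ / 2) := Real.rpow_nonneg (by linarith) _
  have hNle : (N : ℝ) ≤ Real.log B ^ δ := by
    rw [hN]
    push_cast
    have := Nat.floor_le ht0
    linarith
  obtain ⟨A, hA⟩ : ∃ A : Finset (Fin r × Fin N → Fin q), A = Finset.univ.filter fun w => ∃ l,
      l0 ≤ l ∧ l ^ 2 + L ≤ N ∧ ε / 2 * (l : ℝ) ^ 2 <
        |(cnt L v (l ^ 2) w : ℝ) - (l : ℝ) ^ 2 * (1 / (q : ℝ) ^ (r * L))| := ⟨_, rfl⟩
  have hAcard : (A.card : ℝ) ≤ 4 * L / ((ε / 2) ^ 2 * l0) * (q : ℝ) ^ (r * N) := by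
    rw [hA]
    exact bad_squares L v hq hv (ε / 2) (by linarith) l0 hl1
  have hq0 : (0 : ℝ) < q := by exact_mod_cast hq
  have hA2 : (A.card : ℝ) / (q : ℝ) ^ (r * N) ≤ ε / 2 := by
    rw [div_le_iff₀ (by positivity)]
    refine hAcard.trans ?_
    have h1 : 4 * L / ((ε / 2) ^ 2 * l0) ≤ ε / 2 := by
      rw [div_le_iff₀ (by positivity)] at hl3 ⊢
      linarith
    gcongr
  have e3' : (q : ℝ) ≤ Real.exp (Real.log B ^ δ) := by
    have := Real.add_one_le_exp (Real.log B ^ δ)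
    linarith
  have hmm := hm N q hq hNle e3' A
  have hexp : Real.exp (-(Real.log B ^ (1 / 2 : ℝ))) ≤ ε / 2 := by
    rw [← Real.exp_log (show 0 < ε / 2 by linarith)]
    apply Real.exp_le_exp.2
    linarith
  have h1 := (abs_le.1 hmm).2
  have h2 : (((Finset.Ioc 0 B).filter fun b => ∃ w ∈ A, ∀ p : Fin r × Fin N,
          q * digit b (x p.1) ((p.2 : ℕ) + 2) / b = w p).card : ℝ) / B ≤ ε := by linarith
  rw [div_le_iff₀ hB0] at h2
  refine le_trans ?_ h2
  have hsub : ((Finset.Ioc 0 B).filter fun b => ∃ K : ℕ, l0 ^ 2 ≤ K ∧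
      (K : ℝ) ≤ Real.log B ^ (δ / 2) ∧ ε * K < |(((Finset.range K).filter fun s => ∀ i, ∀ t < L,
        q * digit b (x i) (s + t + 2) / b = v i t).card : ℝ) - K / (q : ℝ) ^ (r * L)|) ⊆
      (Finset.Ioc 0 B).filter fun b => ∃ w ∈ A, ∀ p : Fin r × Fin N,
          q * digit b (x p.1) ((p.2 : ℕ) + 2) / b = w p := by
    intro b hb
    rw [Finset.mem_filter, Finset.mem_Ioc] at hb
    obtain ⟨⟨hb0, hbB⟩, K, hK0, hK, hbad⟩ := hb
    rw [Finset.mem_filter, Finset.mem_Ioc]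
    refine ⟨⟨hb0, hbB⟩, ?_⟩
    obtain ⟨w, hw⟩ : ∃ w : Fin r × Fin N → Fin q, w = fun p =>
      ⟨q * digit b (x p.1) ((p.2 : ℕ) + 2) / b, coarse_lt q b _ _ hq (by omega)⟩ := ⟨_, rfl⟩
    refine ⟨w, ?_, fun p => by rw [hw]⟩
    by_contra hwA
    have hKN : K + L ≤ N := by
      have : K ≤ ⌊Real.log B ^ (δ / 2)⌋₊ := Nat.le_floor hK
      omega
    have hgood : ∀ l, l0 ≤ l → l ^ 2 + L ≤ N →
        |(cnt L v (l ^ 2) w : ℝ) - (l : ℝ) ^ 2 * (1 / (q : ℝ) ^ (r * L))| ≤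
          ε / 2 * (l : ℝ) ^ 2 := by
      intro l hl hlN
      by_contra hcon
      push Not at hcon
      apply hwA
      rw [hA, Finset.mem_filter]
      exact ⟨Finset.mem_univ _, l, hl, hlN, hcon⟩
    have h3 := interpolate L v hq (ε / 2) (by linarith) l0 hl2 hl1 w hgood K hK0 hKN
    have h4 : cnt L v K w = ((Finset.range K).filter fun s => ∀ i, ∀ t < L,
        q * digit b (x i) (s + t + 2) / b = v i t).card := by
      unfold cnt
      congr 1
      refine Finset.filter_congr fun s hs => ?_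
      rw [Finset.mem_range] at hs
      unfold EE
      rw [hw]
      constructor
      · intro h i t ht
        have h5 := h (i, ⟨s + t, by omega⟩) (by simp) (by simp; exact ht)
        simp only [Nat.add_sub_cancel_left] at h5
        exact h5
      · intro h p hp1 hp2
        have h5 := h p.1 (p.2 - s) (by omega)
        simp only
        rw [← h5]
        congr 3
        omega
    rw [h4] at h3
    have h5 : (2 : ℝ) * (ε / 2) * K = ε * K := by ring
    rw [h5, mul_one_div] at h3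
    linarith
  exact_mod_cast Finset.card_le_card hsub

end Run7.h683.AB
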