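import Pool.Agent.Y331.VK.WB

/-!
# Random bases: the sums of `min (2 V + 1, 1 / (2 ‖a u‖))` for numbers `a` whose first `Q` multiples are
not close to integers
-/

set_option autoImplicit false

namespace Run7.h683.AB

open Finset
open Pool.Agent.Y957.VK (dz mn WJ)

theorem dz_nonneg (θ : ℝ) : 0 ≤ dz θ := abs_nonneg _

theorem dz_le_int (θ : ℝ) (m : ℤ) : dz θ ≤ |θ - m| := by
  unfold dz
  exact round_le θ m

theorem dz_neg (θ : ℝ) : dz (-θ) = dz θ := by
  refine le_antisymm ?_ ?_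
  · have h := dz_le_int (-θ) (-round θ)
    refine h.trans (le_of_eq ?_)
    unfold dz
    push_cast
    rw [← abs_neg]
    congr 1
    ring
  · have h := dz_le_int θ (-round (-θ))
    refine h.trans (le_of_eq ?_)
    unfold dz
    push_cast
    rw [← abs_neg]
    congr 1
    ring

theorem dz_sub_le (θ φ : ℝ) : dz (θ - φ) ≤ dz θ + dz φ := by
  have h := dz_le_int (θ - φ) (round θ - round φ)
  refine h.trans ?_
  have h1 : θ - φ - ((round θ - round φ : ℤ) : ℝ) = (θ - round θ) - (φ - round φ) := by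
    push_cast
    ring
  rw [h1]
  exact abs_sub _ _

theorem mn_nonneg (V : ℕ) (θ : ℝ) : 0 ≤ mn V θ := by
  unfold mn
  split_ifs
  · positivity
  · refine le_min (by positivity) ?_
    have := dz_nonneg θ
    positivity

theorem mn_le_inv (V : ℕ) (θ t : ℝ) (ht : 0 < t) (h : t ≤ dz θ) : mn V θ ≤ 1 / (2 * t) := by
  unfold mn
  rw [if_neg (by linarith)]
  refine (min_le_right _ _).trans ?_
  apply one_div_le_one_div_of_le (by linarith)
  linarith

/-- one block of `Q` consecutive integers -/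
theorem block (V Q : ℕ) (a τ : ℝ) (hτ : 0 < τ)
    (ha : ∀ u : ℕ, 1 ≤ u → u < Q → τ ≤ dz (a * u)) (S : Finset ℤ)
    (hS : ∀ u ∈ S, ∀ v ∈ S, |u - v| < Q) (hc : S.card ≤ Q) :
    ∑ u ∈ S, mn V (a * u) ≤ (2 * V + 1) + Q / τ := by
  classical
  have hd : ∀ u ∈ S, ∀ v ∈ S, u ≠ v → τ ≤ dz (a * u - a * v) := by
    intro u hu v hv huv
    have h1 := abs_lt.1 (hS u hu v hv)
    obtain ⟨w, hw⟩ : ∃ w : ℕ, w = (u - v).natAbs := ⟨_, rfl⟩
    have hw1 : 1 ≤ w := by omega
    have hw2 : w < Q := by omega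
    have h2 := ha w hw1 hw2
    rcases lt_or_ge v u with h3 | h3
    · have h4 : ((w : ℕ) : ℝ) = u - v := by
        have : (w : ℤ) = u - v := by omega
        exact_mod_cast this
      rw [h4, mul_sub] at h2
      exact h2
    · have h4 : ((w : ℕ) : ℝ) = v - u := by
        have : (w : ℤ) = v - u := by omega
        exact_mod_cast this
      rw [h4, mul_sub, ← dz_neg] at h2
      refine h2.trans (le_of_eq ?_)
      congr 1
      ring
  by_cases hex : ∃ u0 ∈ S, dz (a * u0) < τ / 2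
  · obtain ⟨u0, hu0, hu0'⟩ := hex
    have h1 : ∀ u ∈ S.erase u0, mn V (a * u) ≤ 1 / τ := by
      intro u hu
      rw [Finset.mem_erase] at hu
      have h2 := hd u hu.2 u0 hu0 hu.1
      have h3 := dz_sub_le (a * u) (a * u0)
      have h4 : τ / 2 ≤ dz (a * u) := by linarith
      refine (mn_le_inv V _ (τ / 2) (by linarith) h4).trans (le_of_eq ?_)
      field_simp
    rw [← Finset.add_sum_erase _ _ hu0]
    refine add_le_add (Pool.Agent.Y331.VK.mn_le V _) ?_
    refine (Finset.sum_le_sum h1).trans ?_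
    rw [Finset.sum_const, nsmul_eq_mul]
    have h2 : ((S.erase u0).card : ℝ) ≤ Q := by
      have := Finset.card_erase_le (s := S) (a := u0)
      exact_mod_cast this.trans hc
    calc ((S.erase u0).card : ℝ) * (1 / τ) ≤ Q * (1 / τ) := by gcongr
      _ = Q / τ := by ring
  · push Not at hex
    have h1 : ∀ u ∈ S, mn V (a * u) ≤ 1 / τ := by
      intro u hu
      refine (mn_le_inv V _ (τ / 2) (by linarith) (hex u hu)).trans (le_of_eq ?_)
      field_simp
    refine (Finset.sum_le_sum h1).trans ?_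
    rw [Finset.sum_const, nsmul_eq_mul]
    have h2 : ((S.card : ℕ) : ℝ) ≤ Q := by exact_mod_cast hc
    have h3 : (0 : ℝ) ≤ 2 * V + 1 := by positivity
    calc ((S.card : ℕ) : ℝ) * (1 / τ) ≤ Q * (1 / τ) := by gcongr
      _ = Q / τ := by ring
      _ ≤ (2 * V + 1) + Q / τ := by linarith

/-- all the blocks -/
theorem sum_blocks (V Q : ℕ) (a τ : ℝ) (hQ : 1 ≤ Q) (hτ : 0 < τ)
    (ha : ∀ u : ℕ, 1 ≤ u → u < Q → τ ≤ dz (a * u)) (hQV : Q ≤ 2 * V + 1)
    (hτV : Q / τ ≤ 2 * (V : ℝ) + 1) :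
    ∑ u ∈ Finset.Icc (-(V : ℤ)) (V : ℤ), mn V (a * u) ≤ 4 * (2 * (V : ℝ) + 1) ^ 2 / Q := by
  classical
  obtain ⟨n, hn⟩ : ∃ n : ℕ, n = (2 * V) / Q + 1 := ⟨_, rfl⟩
  have h1 : ∑ u ∈ Finset.Icc (-(V : ℤ)) (V : ℤ), mn V (a * u) =
      ∑ t ∈ Finset.range n, ∑ u ∈ (Finset.Icc (-(V : ℤ)) (V : ℤ)).filter
        (fun u : ℤ => (u + V).toNat / Q = t), mn V (a * u) := by
    rw [Finset.sum_fiberwise_of_maps_to]
    intro u hu
    rw [Finset.mem_Icc] at hu
    rw [Finset.mem_range, hn]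
    have : (u + V).toNat ≤ 2 * V := by omega
    have h2 := Nat.div_le_div_right (c := Q) this
    omega
  rw [h1]
  have h2 : ∀ t ∈ Finset.range n, ∑ u ∈ (Finset.Icc (-(V : ℤ)) (V : ℤ)).filter
        (fun u : ℤ => (u + V).toNat / Q = t), mn V (a * u) ≤ 2 * (2 * (V : ℝ) + 1) := by
    intro t _
    have h3 : ∀ u ∈ (Finset.Icc (-(V : ℤ)) (V : ℤ)).filter
        (fun u : ℤ => (u + V).toNat / Q = t), (Q * t : ℤ) ≤ u + V ∧ u + V < Q * t + Q := by
      intro u hu
      rw [Finset.mem_filter, Finset.mem_Icc] at hu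
      obtain ⟨⟨h4, h5⟩, h6⟩ := hu
      have h7 := Nat.div_add_mod (u + V).toNat Q
      have h8 := Nat.mod_lt (u + V).toNat (by omega : 0 < Q)
      rw [h6] at h7
      have h9 : ((u + V).toNat : ℤ) = u + V := by omega
      constructor
      · have : Q * t ≤ (u + V).toNat := by omega
        have h10 : ((Q * t : ℕ) : ℤ) ≤ ((u + V).toNat : ℤ) := by exact_mod_cast this
        rw [h9] at h10
        push_cast at h10
        exact h10
      · have : (u + V).toNat < Q * t + Q := by omega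
        have h10 : ((u + V).toNat : ℤ) < ((Q * t + Q : ℕ) : ℤ) := by exact_mod_cast this
        rw [h9] at h10
        push_cast at h10
        exact h10
    refine (block V Q a τ hτ ha _ ?_ ?_).trans ?_
    · intro u hu v hv
      have h4 := h3 u hu
      have h5 := h3 v hv
      rw [abs_lt]
      constructor <;> linarith [h4.1, h4.2, h5.1, h5.2]
    · have h4 : (Finset.Icc (-(V : ℤ)) (V : ℤ)).filter (fun u : ℤ => (u + V).toNat / Q = t) ⊆
          Finset.Ico ((Q * t : ℤ) - V) ((Q * t : ℤ) - V + Q) := by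
        intro u hu
        have h5 := h3 u hu
        rw [Finset.mem_Ico]
        constructor <;> linarith [h5.1, h5.2]
      refine (Finset.card_le_card h4).trans (le_of_eq ?_)
      rw [Int.card_Ico]
      omega
    · linarith
  refine (Finset.sum_le_sum h2).trans ?_
  rw [Finset.sum_const, Finset.card_range, nsmul_eq_mul]
  have hQ0 : (0 : ℝ) < Q := by exact_mod_cast hQ
  have h3 : (n : ℝ) ≤ 2 * (2 * (V : ℝ) + 1) / Q := by
    rw [le_div_iff₀ hQ0]
    have h4 : n * Q ≤ 2 * (2 * V + 1) := by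
      rw [hn, add_mul, one_mul]
      have := Nat.div_mul_le_self (2 * V) Q
      omega
    exact_mod_cast h4
  calc (n : ℝ) * (2 * (2 * (V : ℝ) + 1)) ≤ 2 * (2 * (V : ℝ) + 1) / Q * (2 * (2 * (V : ℝ) + 1)) := by
        gcongr
    _ = 4 * (2 * (V : ℝ) + 1) ^ 2 / Q := by ring

theorem WJ_le (s M j Q : ℕ) (a τ : ℝ) (hQ : 1 ≤ Q) (hτ : 0 < τ)
    (ha : ∀ u : ℕ, 1 ≤ u → u < Q → τ ≤ dz (a * u)) (hQV : Q ≤ 2 * (s * M ^ j) + 1)
    (hτV : Q / τ ≤ 2 * ((s * M ^ j : ℕ) : ℝ) + 1) :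
    WJ s M j a ≤ 4 * (2 * ((s * M ^ j : ℕ) : ℝ) + 1) ^ 2 / Q := by
  unfold WJ
  exact sum_blocks (s * M ^ j) Q a τ hQ hτ ha hQV hτV

end Run7.h683.AB
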