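import Pool.Agent.Run7.h683.AB.W1
import Pool.Agent.Y957.VK.Triv
import Pool.Agent.Y331.VK.Lin
import Pool.Agent.Y235.VK.Hol
import Pool.Agent.Y950.VK.Cnt
import Pool.Agent.Y911.VK.Cond
import Pool.Agent.Y901.VK.Vmvt
import Pool.Agent.Y309.VK.DA
import Pool.Agent.Y93.VK.DB
import Pool.Agent.Y70.VK.Tn

/-!
# Random bases: bilinear Weyl sums of growing degree with one coefficient which is far from fractions
-/

set_option autoImplicit false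

namespace Run7.h683.AB

open Finset
open Pool.Agent.Y957.VK

theorem vmvt : S_VMVT :=
  Pool.Agent.Y901.VK.vmvt
    (rec_of Pool.Agent.Y235.VK.hol (Pool.Agent.Y950.VK.cnt Pool.Agent.Y331.VK.lin))
    Pool.Agent.Y911.VK.cond

theorem dbl : S_DBL := dbl_of Pool.Agent.Y309.VK.da Pool.Agent.Y93.VK.db

theorem WJ_nonneg (s M j : ℕ) (a : ℝ) : 0 ≤ WJ s M j a := by
  unfold WJ
  exact Finset.sum_nonneg fun u _ => mn_nonneg _ _

theorem box_le (s M j : ℕ) (hs : 1 ≤ s) (hM : 1 ≤ M) :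
    (2 * ((s * M ^ j : ℕ) : ℝ) + 1) ^ 2 ≤ 9 * (s : ℝ) ^ 2 * (M : ℝ) ^ (2 * j) := by
  have hV : 1 ≤ s * M ^ j := Nat.mul_pos hs (pow_pos hM j)
  have hV' : (1 : ℝ) ≤ ((s * M ^ j : ℕ) : ℝ) := by exact_mod_cast hV
  calc (2 * ((s * M ^ j : ℕ) : ℝ) + 1) ^ 2 ≤ (3 * ((s * M ^ j : ℕ) : ℝ)) ^ 2 := by
        apply pow_le_pow_left₀ (by positivity)
        linarith
    _ = 9 * (s : ℝ) ^ 2 * (M : ℝ) ^ (2 * j) := by
        push_cast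
        ring

theorem tt_bound : ∃ C : ℕ, ∀ (r m M s j0 : ℕ) (α : ℕ → ℝ) (ρ : ℝ), 2 ≤ r → 1 ≤ M →
    s = r ^ 2 + r * m → j0 ∈ Finset.Icc 1 r → 0 ≤ ρ →
    WJ s M j0 (α j0) ≤ (2 * ((s * M ^ j0 : ℕ) : ℝ) + 1) ^ 2 * ρ →
    ‖TT r M α‖ ^ (4 * s ^ 2) ≤ ((M : ℝ) ^ 2) ^ (4 * s ^ 2) *
      (Real.exp (2 * (C * ((r : ℝ) + m) ^ C)) * (9 * (s : ℝ) ^ 2) ^ r *
        (M : ℝ) ^ (2 * ((r : ℝ) * (r + 1) / 2 * (1 - 1 / (r : ℝ)) ^ m)) * ρ) := by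
  classical
  obtain ⟨C, hV⟩ := vmvt
  refine ⟨C, ?_⟩
  intro r m M s j0 α ρ hr hM hs hj0 hρ hW
  have hs1 : 1 ≤ s := by
    rw [hs]
    have : 0 < r ^ 2 := by positivity
    omega
  have hM0 : (0 : ℝ) < M := by exact_mod_cast hM
  have hD := dbl s r M α hs1 (by omega) hM
  have hJ := hV r m M hr hM
  obtain ⟨θ, hθ⟩ : ∃ θ : ℝ, θ = (r : ℝ) * (r + 1) / 2 * (1 - 1 / (r : ℝ)) ^ m := ⟨_, rfl⟩
  rw [← hθ] at hJ ⊢
  rw [← hs] at hJ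
  have hsr : (s : ℝ) = (r : ℝ) ^ 2 + r * m := by
    rw [hs]
    push_cast
    ring
  rw [← hsr] at hJ
  -- the product
  have hP : ∏ j ∈ Finset.Icc 1 r, WJ s M j (α j) ≤
      (9 * (s : ℝ) ^ 2) ^ r * (M : ℝ) ^ (r * (r + 1)) * ρ := by
    have h1 : ∀ j ∈ Finset.Icc 1 r, WJ s M j (α j) ≤
        (9 * (s : ℝ) ^ 2) * (M : ℝ) ^ (2 * j) * (if j = j0 then ρ else 1) := by
      intro j _
      split_ifs with h
      · subst h
        refine hW.trans ?_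
        exact mul_le_mul_of_nonneg_right (box_le s M j hs1 hM) hρ
      · rw [mul_one]
        exact ((Pool.Agent.Y331.VK.wb s M j (α j) hs1 hM).1).trans (box_le s M j hs1 hM)
    refine (Finset.prod_le_prod (fun j _ => WJ_nonneg _ _ _ _) h1).trans (le_of_eq ?_)
    rw [Finset.prod_mul_distrib, Finset.prod_mul_distrib, Finset.prod_const, Nat.card_Icc,
      Nat.add_sub_cancel, Finset.prod_ite_eq', if_pos hj0, Finset.prod_pow_eq_pow_sum]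
    congr 3
    have h2 : ∀ n : ℕ, ∑ j ∈ Finset.Icc 1 n, 2 * j = n * (n + 1) := by
      intro n
      induction n with
      | zero => simp
      | succ n ih =>
        rw [Finset.sum_Icc_succ_top (by omega), ih]
        ring
    exact h2 r
  have hJ2 : (J s r M : ℝ) ^ 2 ≤ Real.exp (2 * (C * ((r : ℝ) + m) ^ C)) *
      (M : ℝ) ^ (2 * (2 * (s : ℝ) - r * (r + 1) / 2 + θ)) := by
    calc (J s r M : ℝ) ^ 2 ≤ (Real.exp (C * ((r : ℝ) + m) ^ C) *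
          (M : ℝ) ^ (2 * (s : ℝ) - r * (r + 1) / 2 + θ)) ^ 2 :=
          pow_le_pow_left₀ (Nat.cast_nonneg _) hJ 2
      _ = _ := by
        rw [mul_pow, ← Real.exp_nat_mul, ← Real.rpow_natCast ((M : ℝ) ^ _) 2, ← Real.rpow_mul hM0.le]
        congr 2
        push_cast
        ring
  have h3 : (M : ℝ) ^ (8 * s ^ 2 - 4 * s) * (J s r M : ℝ) ^ 2 *
      ∏ j ∈ Finset.Icc 1 r, WJ s M j (α j) ≤
      (M : ℝ) ^ (8 * s ^ 2 - 4 * s) * (Real.exp (2 * (C * ((r : ℝ) + m) ^ C)) *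
      (M : ℝ) ^ (2 * (2 * (s : ℝ) - r * (r + 1) / 2 + θ))) *
      ((9 * (s : ℝ) ^ 2) ^ r * (M : ℝ) ^ (r * (r + 1)) * ρ) := by
    have hpn : 0 ≤ ∏ j ∈ Finset.Icc 1 r, WJ s M j (α j) :=
      Finset.prod_nonneg fun j _ => WJ_nonneg _ _ _ _
    gcongr
  refine hD.trans (h3.trans (le_of_eq ?_))
  have h4 : (M : ℝ) ^ (8 * s ^ 2 - 4 * s) = (M : ℝ) ^ (8 * (s : ℝ) ^ 2 - 4 * s : ℝ) := by
    rw [← Real.rpow_natCast]
    congr 1
    rw [Nat.cast_sub (by nlinarith)]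
    push_cast
    ring
  have h5 : (M : ℝ) ^ (r * (r + 1)) = (M : ℝ) ^ ((r : ℝ) * (r + 1) : ℝ) := by
    rw [← Real.rpow_natCast]
    congr 1
    push_cast
    ring
  have h6 : ((M : ℝ) ^ 2) ^ (4 * s ^ 2) = (M : ℝ) ^ (8 * (s : ℝ) ^ 2 : ℝ) := by
    rw [← pow_mul, ← Real.rpow_natCast]
    congr 1
    push_cast
    ring
  rw [h4, h5, h6]
  have h7 : (M : ℝ) ^ (8 * (s : ℝ) ^ 2 - 4 * s : ℝ) *
      (M : ℝ) ^ (2 * (2 * (s : ℝ) - r * (r + 1) / 2 + θ)) * (M : ℝ) ^ ((r : ℝ) * (r + 1) : ℝ) =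
      (M : ℝ) ^ (8 * (s : ℝ) ^ 2 : ℝ) * (M : ℝ) ^ (2 * θ) := by
    rw [← Real.rpow_add hM0, ← Real.rpow_add hM0, ← Real.rpow_add hM0]
    congr 1
    ring
  linear_combination (Real.exp (2 * (C * ((r : ℝ) + m) ^ C)) * (9 * (s : ℝ) ^ 2) ^ r * ρ) * h7

end Run7.h683.AB
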