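import Pool.Agent.Run7.h683.AB.W2

/-!
# Random bases: from polynomial sums to bilinear sums
-/

set_option autoImplicit false

namespace Run7.h683.AB

open Finset Polynomial
open Pool.Agent.Y957.VK

/-- `e(t) = exp (2 π i t)` -/
noncomputable def ee (t : ℝ) : ℂ := Complex.exp (2 * Real.pi * Complex.I * (t : ℂ))

theorem norm_ee (t : ℝ) : ‖ee t‖ = 1 := by
  unfold ee
  have h3 : (2 * Real.pi * Complex.I * (t : ℂ)) = ((2 * Real.pi * t : ℝ) : ℂ) * Complex.I := by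
    push_cast
    ring
  rw [h3, Complex.norm_exp_ofReal_mul_I]

theorem ee_add (s t : ℝ) : ee (s + t) = ee s * ee t := by
  unfold ee
  rw [← Complex.exp_add]
  congr 1
  push_cast
  ring

theorem ee_int (m : ℤ) : ee m = 1 := by
  unfold ee
  have h : 2 * Real.pi * Complex.I * ((m : ℝ) : ℂ) = (m : ℂ) * (2 * Real.pi * Complex.I) := by
    push_cast
    ring
  rw [h, Complex.exp_int_mul_two_pi_mul_I]

theorem ee_zero : ee 0 = 1 := by
  have := ee_int 0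
  simpa using this

/-- the shift of a sum -/
theorem shift_one (g : ℕ → ℂ) (hg : ∀ n, ‖g n‖ ≤ 1) (N h : ℕ) :
    ‖∑ n ∈ Finset.Ioc 0 N, g n - ∑ n ∈ Finset.Ioc 0 N, g (n + h)‖ ≤ 2 * h := by
  have hb : ∀ a b : ℕ, ‖∑ n ∈ Finset.Ioc a (a + b), g n‖ ≤ b := by
    intro a b
    refine (norm_sum_le _ _).trans ?_
    refine (Finset.sum_le_sum fun n _ => hg n).trans ?_
    simp
  have h1 : ∑ n ∈ Finset.Ioc 0 N, g (n + h) = ∑ n ∈ Finset.Ioc (0 + h) (N + h), g n := by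
    rw [← Finset.map_add_right_Ioc, Finset.sum_map]
    rfl
  have h2 : ∑ n ∈ Finset.Ioc 0 N, g n + ∑ n ∈ Finset.Ioc N (N + h), g n =
      ∑ n ∈ Finset.Ioc 0 (0 + h), g n + ∑ n ∈ Finset.Ioc (0 + h) (N + h), g n := by
    rw [Finset.sum_Ioc_consecutive g (Nat.zero_le _) (by omega),
      Finset.sum_Ioc_consecutive g (by omega) (by omega)]
  have h3 : ∑ n ∈ Finset.Ioc 0 N, g n - ∑ n ∈ Finset.Ioc 0 N, g (n + h) =
      ∑ n ∈ Finset.Ioc 0 (0 + h), g n - ∑ n ∈ Finset.Ioc N (N + h), g n := by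
    rw [h1]
    linear_combination h2
  rw [h3]
  refine (norm_sub_le _ _).trans ?_
  linarith [hb 0 h, hb N h]

theorem shift_all (g : ℕ → ℂ) (hg : ∀ n, ‖g n‖ ≤ 1) (N M : ℕ) (hM : 1 ≤ M) :
    ‖∑ n ∈ Finset.Ioc 0 N, g n‖ ≤ 1 / (M : ℝ) ^ 2 * ∑ n ∈ Finset.Ioc 0 N,
      ‖∑ x ∈ Finset.Icc 1 M, ∑ y ∈ Finset.Icc 1 M, g (n + x * y)‖ + 2 * (M : ℝ) ^ 2 := by
  obtain ⟨S, hS⟩ : ∃ S, S = ∑ n ∈ Finset.Ioc 0 N, g n := ⟨_, rfl⟩
  rw [← hS]
  have hM0 : (0 : ℝ) < M := by exact_mod_cast hM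
  have h1 : (M : ℂ) ^ 2 * S = ∑ x ∈ Finset.Icc 1 M, ∑ y ∈ Finset.Icc 1 M,
      (S - ∑ n ∈ Finset.Ioc 0 N, g (n + x * y)) +
      ∑ n ∈ Finset.Ioc 0 N, ∑ x ∈ Finset.Icc 1 M, ∑ y ∈ Finset.Icc 1 M, g (n + x * y) := by
    have h2 : ∑ n ∈ Finset.Ioc 0 N, ∑ x ∈ Finset.Icc 1 M, ∑ y ∈ Finset.Icc 1 M, g (n + x * y) =
        ∑ x ∈ Finset.Icc 1 M, ∑ y ∈ Finset.Icc 1 M, ∑ n ∈ Finset.Ioc 0 N, g (n + x * y) := by
      rw [Finset.sum_comm]
      refine Finset.sum_congr rfl fun x _ => ?_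
      rw [Finset.sum_comm]
    rw [h2]
    simp only [Finset.sum_sub_distrib, Finset.sum_const, Nat.card_Icc, Nat.add_sub_cancel,
      nsmul_eq_mul]
    ring
  have h3 : (M : ℝ) ^ 2 * ‖S‖ ≤ (M : ℝ) ^ 2 * (2 * (M : ℝ) ^ 2) +
      ∑ n ∈ Finset.Ioc 0 N, ‖∑ x ∈ Finset.Icc 1 M, ∑ y ∈ Finset.Icc 1 M, g (n + x * y)‖ := by
    have h4 : ‖(M : ℂ) ^ 2 * S‖ = (M : ℝ) ^ 2 * ‖S‖ := by
      rw [norm_mul, norm_pow, Complex.norm_natCast]
    rw [← h4, h1]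
    refine (norm_add_le _ _).trans (add_le_add ?_ (norm_sum_le _ _))
    refine (norm_sum_le _ _).trans ?_
    refine (Finset.sum_le_sum (g := fun _ => (M : ℝ) * (2 * (M : ℝ) ^ 2)) fun x hx =>
      (norm_sum_le _ _).trans ?_).trans ?_
    · refine (Finset.sum_le_sum (g := fun _ => 2 * (M : ℝ) ^ 2) fun y hy => ?_).trans ?_
      · rw [hS]
        refine (shift_one g hg N (x * y)).trans ?_
        have hx' : (x : ℝ) ≤ M := by exact_mod_cast (Finset.mem_Icc.1 hx).2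
        have hy' : (y : ℝ) ≤ M := by exact_mod_cast (Finset.mem_Icc.1 hy).2
        have : (x : ℝ) * y ≤ M * M := mul_le_mul hx' hy' (by positivity) (by positivity)
        push_cast
        nlinarith
      · simp
    · simp only [Finset.sum_const, Nat.card_Icc, Nat.add_sub_cancel, nsmul_eq_mul]
      rw [sq]
      linarith
  have h8 : (0 : ℝ) < (M : ℝ) ^ 2 := by positivity
  refine le_of_mul_le_mul_left ?_ h8
  refine h3.trans (le_of_eq ?_)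
  field_simp
  ring

/-- the Taylor coefficients at `n` -/
noncomputable def ac (P : ℝ[X]) (n : ℕ) (j : ℕ) : ℝ := (taylor (n : ℝ) P).coeff j

theorem inner_eq (P : ℝ[X]) (r : ℕ) (hP : P.natDegree ≤ r) (n M : ℕ) :
    ∑ x ∈ Finset.Icc 1 M, ∑ y ∈ Finset.Icc 1 M, ee (P.eval ((n + x * y : ℕ) : ℝ)) =
      ee (P.eval (n : ℝ)) * TT r M (ac P n) := by
  have h1 : ∀ z : ℝ, P.eval (z + n) = P.eval (n : ℝ) + ∑ j ∈ Finset.Icc 1 r, ac P n j * z ^ j := by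
    intro z
    rw [← taylor_eval, eval_eq_sum_range' (n := r + 1) (by rw [natDegree_taylor]; omega)]
    rw [Finset.sum_range_succ', pow_zero, mul_one, taylor_coeff_zero, add_comm]
    congr 1
    have hI : Finset.Icc 1 r = Finset.Ico 1 (r + 1) := rfl
    rw [hI, Finset.sum_Ico_eq_sum_range, Nat.add_sub_cancel]
    refine Finset.sum_congr rfl fun j _ => ?_
    rw [add_comm 1 j]
    rfl
  unfold TT
  rw [Finset.mul_sum]
  refine Finset.sum_congr rfl fun x _ => ?_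
  rw [Finset.mul_sum]
  refine Finset.sum_congr rfl fun y _ => ?_
  have h2 : ((n + x * y : ℕ) : ℝ) = (x : ℝ) * y + n := by
    push_cast
    ring
  rw [h2, h1, ee_add]
  rfl

theorem poly_sum (P : ℝ[X]) (r : ℕ) (hP : P.natDegree ≤ r) (N M : ℕ) (hM : 1 ≤ M) (T : ℝ)
    (hT : ∀ n ∈ Finset.Ioc 0 N, ‖TT r M (ac P n)‖ ≤ (M : ℝ) ^ 2 * T) :
    ‖∑ n ∈ Finset.Ioc 0 N, ee (P.eval (n : ℝ))‖ ≤ N * T + 2 * (M : ℝ) ^ 2 := by
  have hM0 : (0 : ℝ) < M := by exact_mod_cast hM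
  refine (shift_all (fun n => ee (P.eval (n : ℝ))) (fun n => (norm_ee _).le) N M hM).trans ?_
  refine add_le_add ?_ le_rfl
  have h1 : ∑ n ∈ Finset.Ioc 0 N,
      ‖∑ x ∈ Finset.Icc 1 M, ∑ y ∈ Finset.Icc 1 M, ee (P.eval ((n + x * y : ℕ) : ℝ))‖ ≤
      ∑ n ∈ Finset.Ioc 0 N, (M : ℝ) ^ 2 * T := by
    refine Finset.sum_le_sum fun n hn => ?_
    rw [inner_eq P r hP, norm_mul, norm_ee, one_mul]
    exact hT n hn
  rw [Finset.sum_const, Nat.card_Ioc, Nat.sub_zero, nsmul_eq_mul] at h1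
  have h2 : (0 : ℝ) < (M : ℝ) ^ 2 := by positivity
  calc 1 / (M : ℝ) ^ 2 * ∑ n ∈ Finset.Ioc 0 N,
      ‖∑ x ∈ Finset.Icc 1 M, ∑ y ∈ Finset.Icc 1 M, ee (P.eval ((n + x * y : ℕ) : ℝ))‖ ≤
      1 / (M : ℝ) ^ 2 * (N * ((M : ℝ) ^ 2 * T)) := by gcongr
    _ = N * T := by field_simp

/-- the coefficient of the degree of the polynomial does not depend on `n` -/
theorem ac_top (P : ℝ[X]) (n k : ℕ) (hk : P.natDegree = k) : ac P n k = P.coeff k := by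
  unfold ac
  have h1 : (taylor (n : ℝ) P).leadingCoeff = P.leadingCoeff := leadingCoeff_taylor _ _
  rw [leadingCoeff, leadingCoeff, natDegree_taylor, hk] at h1
  exact h1

end Run7.h683.AB
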