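import Pool.Agent.Run7.h683.AB.W3

/-!
# Random bases: exponential sums over polynomials of growing degree, explicit form
-/

set_option autoImplicit false

namespace Run7.h683.AB

open Finset Polynomial
open Pool.Agent.Y957.VK

theorem theta_le {r c1 m : ℕ} (hr : 2 ≤ r) (hc : 1 ≤ c1) (hm : m = r * (r + c1)) :
    (r : ℝ) * (r + 1) / 2 * (1 - 1 / (r : ℝ)) ^ m ≤ 4 / c1 := by
  have hr0 : (0 : ℝ) < r := by exact_mod_cast (by omega : 0 < r)
  have hr1 : (1 : ℝ) ≤ r := by exact_mod_cast (by omega : 1 ≤ r)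
  have hc0 : (0 : ℝ) < c1 := by exact_mod_cast hc
  have h0 : (0 : ℝ) ≤ 1 - 1 / r := by
    rw [sub_nonneg, div_le_one hr0]
    exact hr1
  have h1 : 1 - 1 / (r : ℝ) ≤ Real.exp (-(1 / r)) := by
    have := Real.add_one_le_exp (-(1 / (r : ℝ)))
    linarith
  have h2 : (1 - 1 / (r : ℝ)) ^ m ≤ Real.exp (-(1 / r)) ^ m := pow_le_pow_left₀ h0 h1 _
  have h3 : Real.exp (-(1 / (r : ℝ))) ^ m = Real.exp (-(r : ℝ)) * Real.exp (-(c1 : ℝ)) := by
    rw [← Real.exp_nat_mul, ← Real.exp_add, hm]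
    congr 1
    push_cast
    field_simp
    ring
  have h4 : (r : ℝ) ^ 2 / 4 ≤ Real.exp r := by
    have h5 := Real.add_one_le_exp ((r : ℝ) / 2)
    have h6 : Real.exp r = Real.exp (r / 2) ^ 2 := by
      rw [← Real.exp_nat_mul]
      congr 1
      push_cast
      ring
    rw [h6]
    nlinarith
  have h5 : (c1 : ℝ) ≤ Real.exp c1 := by
    have := Real.add_one_le_exp (c1 : ℝ)
    linarith
  rw [h3] at h2
  have h6 : (r : ℝ) * (r + 1) / 2 ≤ (r : ℝ) ^ 2 := by nlinarith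
  have h7 : (0 : ℝ) ≤ Real.exp (-(r : ℝ)) * Real.exp (-(c1 : ℝ)) := by positivity
  have h8 : (0 : ℝ) ≤ (1 - 1 / (r : ℝ)) ^ m := pow_nonneg h0 _
  calc (r : ℝ) * (r + 1) / 2 * (1 - 1 / (r : ℝ)) ^ m
      ≤ (r : ℝ) ^ 2 * (Real.exp (-(r : ℝ)) * Real.exp (-(c1 : ℝ))) := by gcongr
    _ ≤ (4 * Real.exp r) * (Real.exp (-(r : ℝ)) * Real.exp (-(c1 : ℝ))) := by
        gcongr
        linarith
    _ = 4 * Real.exp (-(c1 : ℝ)) := by
        rw [Real.exp_neg (r : ℝ)]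
        field_simp
    _ ≤ 4 / c1 := by
        rw [Real.exp_neg, div_eq_mul_inv]
        gcongr

/-- the quantity which the logarithm of the length has to dominate -/
noncomputable def AA (C : ℕ) (E : ℝ) : ℝ := 2 * (C * (2 * E ^ 2) ^ C) + 9 * E ^ 7 + 3

theorem weyl_explicit : ∃ C : ℕ, ∀ (κ r M N : ℕ) (L c : ℝ) (P : ℝ[X]), 2 ≤ r → 1 ≤ M → 1 ≤ L →
    0 < c → 1 ≤ P.natDegree → P.natDegree ≤ r →
    (∀ u : ℕ, 1 ≤ u → c / (L * u) ^ κ ≤ dz (P.coeff P.natDegree * u)) →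
    L ^ κ ≤ c * (M : ℝ) ^ (1 / 2 : ℝ) →
    AA C (r + 32 * (κ + 1) + 1) ≤ Real.log M / (8 * (κ + 1)) →
    ‖∑ n ∈ Finset.Ioc 0 N, ee (P.eval (n : ℝ))‖ ≤
      N * Real.exp (-(Real.log M / (32 * (κ + 1) * ((r : ℝ) + 32 * (κ + 1) + 1) ^ 6))) +
        2 * (M : ℝ) ^ 2 := by
  obtain ⟨C, hC⟩ := tt_bound
  refine ⟨C, ?_⟩
  intro κ r M N L c P hr hM hL hc hk1 hk2 hdz hLc hA
  refine poly_sum P r hk2 N M hM _ ?_
  intro n _
  obtain ⟨k, hk⟩ : ∃ k, k = P.natDegree := ⟨_, rfl⟩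
  rw [← hk] at hk1 hk2 hdz
  obtain ⟨c1, hc1⟩ : ∃ c1 : ℕ, c1 = 32 * (κ + 1) := ⟨_, rfl⟩
  obtain ⟨m, hm⟩ : ∃ m : ℕ, m = r * (r + c1) := ⟨_, rfl⟩
  obtain ⟨s, hs⟩ : ∃ s : ℕ, s = r ^ 2 + r * m := ⟨_, rfl⟩
  obtain ⟨E, hE⟩ : ∃ E : ℝ, E = r + 32 * (κ + 1) + 1 := ⟨_, rfl⟩
  rw [← hE] at hA
  have hE' : E = (r : ℝ) + c1 + 1 := by
    rw [hE, hc1]
    push_cast
    ring
  have hM0 : (0 : ℝ) < M := by exact_mod_cast hM
  have hM1 : (1 : ℝ) ≤ M := by exact_mod_cast hM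
  have hr0 : (0 : ℝ) < r := by exact_mod_cast (by omega : 0 < r)
  have hc10 : (0 : ℝ) ≤ c1 := Nat.cast_nonneg _
  have hrE : (r : ℝ) ≤ E := by rw [hE']; linarith
  have hE1 : 1 ≤ E := by rw [hE']; linarith
  have hκ0 : (0 : ℝ) < (κ : ℝ) + 1 := by positivity
  have hs1 : 1 ≤ s := by
    rw [hs]
    have : 0 < r ^ 2 := by positivity
    omega
  have hsR : (s : ℝ) = (r : ℝ) ^ 2 * E := by
    rw [hs, hm, hE']
    push_cast
    ring
  have hsE : (s : ℝ) ≤ E ^ 3 := by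
    rw [hsR]
    calc (r : ℝ) ^ 2 * E ≤ E ^ 2 * E := by gcongr
      _ = E ^ 3 := by ring
  have hs0 : (0 : ℝ) < s := by exact_mod_cast hs1
  -- the length of the blocks
  obtain ⟨y, hy⟩ : ∃ y : ℝ, y = (M : ℝ) ^ (1 / (2 * ((κ : ℝ) + 1))) := ⟨_, rfl⟩
  have hy1 : 1 ≤ y := by
    rw [hy]
    exact Real.one_le_rpow hM1 (by positivity)
  obtain ⟨Q, hQ⟩ : ∃ Q : ℕ, Q = ⌊y⌋₊ := ⟨_, rfl⟩
  have hQ1 : 1 ≤ Q := by
    rw [hQ, Nat.one_le_floor_iff]
    exact hy1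
  have hQy : (Q : ℝ) ≤ y := by
    rw [hQ]
    exact Nat.floor_le (by linarith)
  have hyQ : y ≤ 2 * Q := by
    have h1 : y < (Q : ℝ) + 1 := by
      rw [hQ]
      exact Nat.lt_floor_add_one y
    have h2 : (1 : ℝ) ≤ Q := by exact_mod_cast hQ1
    linarith
  have hQ0 : (0 : ℝ) < Q := by exact_mod_cast hQ1
  have hyM : y ^ (κ + 1) = (M : ℝ) ^ (1 / 2 : ℝ) := by
    rw [hy, ← Real.rpow_natCast, ← Real.rpow_mul hM0.le]
    congr 1
    push_cast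
    field_simp
  have hMhalf : (M : ℝ) ^ (1 / 2 : ℝ) * (M : ℝ) ^ (1 / 2 : ℝ) = M := by
    rw [← Real.rpow_add hM0]
    norm_num
  have hyM' : y ≤ M := by
    calc y = y ^ 1 := (pow_one y).symm
      _ ≤ y ^ (κ + 1) := pow_le_pow_right₀ hy1 (by omega)
      _ = (M : ℝ) ^ (1 / 2 : ℝ) := hyM
      _ ≤ (M : ℝ) ^ (1 : ℝ) := Real.rpow_le_rpow_of_exponent_le hM1 (by norm_num)
      _ = M := Real.rpow_one _
  obtain ⟨V, hV⟩ : ∃ V : ℕ, V = s * M ^ k := ⟨_, rfl⟩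
  have hVM : M ≤ V := by
    rw [hV]
    calc M = 1 * M ^ 1 := by ring
      _ ≤ s * M ^ k := Nat.mul_le_mul hs1 (Nat.pow_le_pow_right hM hk1)
  have hVM' : (M : ℝ) ≤ V := by exact_mod_cast hVM
  obtain ⟨τ, hτ⟩ : ∃ τ : ℝ, τ = c / (L * Q) ^ κ := ⟨_, rfl⟩
  have hτ0 : 0 < τ := by
    rw [hτ]
    positivity
  have hW : WJ s M k (ac P n k) ≤ (2 * ((s * M ^ k : ℕ) : ℝ) + 1) ^ 2 * (4 / Q) := by
    have h1 : ac P n k = P.coeff k := ac_top P n k hk.symm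
    rw [h1]
    refine (WJ_le s M k Q (P.coeff k) τ hQ1 hτ0 ?_ ?_ ?_).trans (le_of_eq (by ring))
    · intro u hu1 hu2
      refine le_trans ?_ (hdz u hu1)
      rw [hτ]
      have h2 : (u : ℝ) ≤ Q := by exact_mod_cast hu2.le
      have h3 : (1 : ℝ) ≤ u := by exact_mod_cast hu1
      have h4 : (L * u) ^ κ ≤ (L * Q) ^ κ := by
        apply pow_le_pow_left₀ (by positivity)
        gcongr
      have h5 : (0 : ℝ) < (L * u) ^ κ := by positivity
      exact div_le_div_of_nonneg_left hc.le h5 h4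
    · rw [← hV]
      have h2 : (Q : ℝ) ≤ V := hQy.trans (hyM'.trans hVM')
      have h3 : Q ≤ V := by exact_mod_cast h2
      omega
    · rw [← hV, hτ, div_div_eq_mul_div, div_le_iff₀ hc, mul_pow]
      calc (Q : ℝ) * (L ^ κ * (Q : ℝ) ^ κ) = L ^ κ * (Q : ℝ) ^ (κ + 1) := by ring
        _ ≤ (c * (M : ℝ) ^ (1 / 2 : ℝ)) * y ^ (κ + 1) := by gcongr
        _ = c * ((M : ℝ) ^ (1 / 2 : ℝ) * (M : ℝ) ^ (1 / 2 : ℝ)) := by rw [hyM]; ring
        _ = M * c := by rw [hMhalf]; ring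
        _ ≤ (2 * V + 1) * c := by
            have : (M : ℝ) ≤ 2 * V + 1 := by linarith
            gcongr
  have hT := hC r m M s k (ac P n) (4 / Q) hr hM hs (Finset.mem_Icc.2 ⟨hk1, hk2⟩) (by positivity) hW
  obtain ⟨X, hX⟩ : ∃ X : ℝ, X = Real.exp (2 * (C * ((r : ℝ) + m) ^ C)) * (9 * (s : ℝ) ^ 2) ^ r *
        (M : ℝ) ^ (2 * ((r : ℝ) * (r + 1) / 2 * (1 - 1 / (r : ℝ)) ^ m)) * (4 / Q) := ⟨_, rfl⟩
  rw [← hX] at hT
  obtain ⟨l, hl⟩ : ∃ l : ℝ, l = Real.log M := ⟨_, rfl⟩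
  have hl0 : 0 ≤ l := by rw [hl]; exact Real.log_nonneg hM1
  rw [← hl] at hA ⊢
  rw [← hE]
  have hXle : X ≤ Real.exp (-(l / (8 * (κ + 1)))) := by
    have h1 : (9 * (s : ℝ) ^ 2) ^ r ≤ Real.exp (9 * E ^ 7) := by
      have h2 : 9 * (s : ℝ) ^ 2 ≤ Real.exp (9 * (s : ℝ) ^ 2) := by
        have := Real.add_one_le_exp (9 * (s : ℝ) ^ 2)
        linarith
      calc (9 * (s : ℝ) ^ 2) ^ r ≤ Real.exp (9 * (s : ℝ) ^ 2) ^ r :=
            pow_le_pow_left₀ (by positivity) h2 r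
        _ = Real.exp (r * (9 * (s : ℝ) ^ 2)) := by rw [← Real.exp_nat_mul]
        _ ≤ Real.exp (9 * E ^ 7) := by
            apply Real.exp_le_exp.2
            calc (r : ℝ) * (9 * (s : ℝ) ^ 2) ≤ E * (9 * (E ^ 3) ^ 2) := by gcongr
              _ = 9 * E ^ 7 := by ring
    have h2 : Real.exp (2 * (C * ((r : ℝ) + m) ^ C)) ≤ Real.exp (2 * (C * (2 * E ^ 2) ^ C)) := by
      apply Real.exp_le_exp.2
      have h3 : (r : ℝ) + m ≤ 2 * E ^ 2 := by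
        rw [hm]
        push_cast
        have h4 : (r : ℝ) * (r + c1) ≤ E * E := by
          gcongr
          rw [hE']
          linarith
        have h5 : (r : ℝ) ≤ E * E := by nlinarith
        nlinarith
      gcongr
    have h3 : (M : ℝ) ^ (2 * ((r : ℝ) * (r + 1) / 2 * (1 - 1 / (r : ℝ)) ^ m)) ≤
        Real.exp (l / (4 * (κ + 1))) := by
      rw [Real.rpow_def_of_pos hM0, ← hl]
      apply Real.exp_le_exp.2
      have h4 := theta_le hr (by omega : 1 ≤ c1) hm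
      have h5 : (4 : ℝ) / c1 = 1 / (8 * (κ + 1)) := by
        rw [hc1]
        push_cast
        field_simp
        ring
      rw [h5] at h4
      calc l * (2 * ((r : ℝ) * (r + 1) / 2 * (1 - 1 / (r : ℝ)) ^ m))
          ≤ l * (2 * (1 / (8 * (κ + 1)))) := by gcongr
        _ = l / (4 * (κ + 1)) := by field_simp; ring
    have h4 : (4 : ℝ) / Q ≤ Real.exp (3 - l / (2 * (κ + 1))) := by
      have h5 : (4 : ℝ) / Q ≤ 8 / y := by
        rw [div_le_div_iff₀ hQ0 (by linarith)]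
        linarith
      have h6 : y = Real.exp (l / (2 * (κ + 1))) := by
        rw [hy, Real.rpow_def_of_pos hM0, ← hl]
        congr 1
        field_simp
      have h7 : (8 : ℝ) ≤ Real.exp 3 := by
        have h8 := Real.add_one_le_exp (1 : ℝ)
        have h9 : Real.exp 3 = Real.exp 1 ^ 3 := by
          rw [← Real.exp_nat_mul]
          norm_num
        rw [h9]
        calc (8 : ℝ) = 2 ^ 3 := by norm_num
          _ ≤ Real.exp 1 ^ 3 := pow_le_pow_left₀ (by norm_num) (by linarith) 3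
      refine h5.trans ?_
      rw [Real.exp_sub, ← h6]
      gcongr
    rw [hX]
    have h5 : (0 : ℝ) ≤ (9 * (s : ℝ) ^ 2) ^ r := by positivity
    calc Real.exp (2 * (C * ((r : ℝ) + m) ^ C)) * (9 * (s : ℝ) ^ 2) ^ r *
        (M : ℝ) ^ (2 * ((r : ℝ) * (r + 1) / 2 * (1 - 1 / (r : ℝ)) ^ m)) * (4 / Q) ≤
        Real.exp (2 * (C * (2 * E ^ 2) ^ C)) * Real.exp (9 * E ^ 7) *
        Real.exp (l / (4 * (κ + 1))) * Real.exp (3 - l / (2 * (κ + 1))) := by gcongr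
      _ = Real.exp (AA C E - l / (4 * (κ + 1))) := by
          rw [← Real.exp_add, ← Real.exp_add, ← Real.exp_add]
          congr 1
          unfold AA
          field_simp
          ring
      _ ≤ Real.exp (-(l / (8 * (κ + 1)))) := by
          apply Real.exp_le_exp.2
          have h6 : l / (4 * ((κ : ℝ) + 1)) = l / (8 * (κ + 1)) + l / (8 * (κ + 1)) := by
            field_simp
            ring
          linarith
  -- extraction of the root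
  have hn0 : 4 * s ^ 2 ≠ 0 := by positivity
  refine le_of_pow_le_pow_left₀ hn0 (by positivity) ?_
  rw [mul_pow]
  refine hT.trans (mul_le_mul_of_nonneg_left ?_ (by positivity))
  refine hXle.trans ?_
  rw [← Real.exp_nat_mul]
  apply Real.exp_le_exp.2
  push_cast
  have h1 : 4 * (s : ℝ) ^ 2 * (l / (32 * (κ + 1) * E ^ 6)) ≤ l / (8 * (κ + 1)) := by
    calc 4 * (s : ℝ) ^ 2 * (l / (32 * (κ + 1) * E ^ 6)) ≤
        4 * (E ^ 3) ^ 2 * (l / (32 * (κ + 1) * E ^ 6)) := by gcongr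
      _ = l / (8 * (κ + 1)) := by
          field_simp
          ring
  linarith

end Run7.h683.AB
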